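import Mathlib

namespace Pool.Agent.Helper650.AP

open Set

/-- affine function whose graph passes through `P` and `Q` -/
noncomputable def ch (P Q : ℝ × ℝ) (x : ℝ) : ℝ := P.2 + (Q.2 - P.2) / (Q.1 - P.1) * (x - P.1)

lemma ch_left (P Q : ℝ × ℝ) : ch P Q P.1 = P.2 := by simp [ch]

lemma ch_right {P Q : ℝ × ℝ} (h : P.1 ≠ Q.1) : ch P Q Q.1 = Q.2 := by
  have : Q.1 - P.1 ≠ 0 := sub_ne_zero.mpr (Ne.symm h)
  unfold ch
  field_simp
  ring

lemma ch_comm {P Q : ℝ × ℝ} (h : P.1 ≠ Q.1) (x : ℝ) : ch P Q x = ch Q P x := by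
  have h1 : Q.1 - P.1 ≠ 0 := sub_ne_zero.mpr (Ne.symm h)
  have h2 : P.1 - Q.1 ≠ 0 := sub_ne_zero.mpr h
  have h3 : (Q.2 - P.2) / (Q.1 - P.1) = (P.2 - Q.2) / (P.1 - Q.1) := by
    rw [div_eq_div_iff h1 h2]; ring
  have h4 : P.2 - Q.2 = (P.2 - Q.2) / (P.1 - Q.1) * (P.1 - Q.1) := by
    field_simp
  unfold ch
  rw [h3]
  linear_combination h4

lemma ch_affine (P Q : ℝ × ℝ) : ∃ A B : ℝ, ∀ x, ch P Q x = A * x + B :=
  ⟨(Q.2 - P.2) / (Q.1 - P.1), P.2 - (Q.2 - P.2) / (Q.1 - P.1) * P.1, fun x => by unfold ch; ring⟩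

lemma aff_pos {c d α β x : ℝ} (h1 : α ≤ x) (h2 : x ≤ β) (hα : 0 < c * α + d)
    (hβ : 0 < c * β + d) : 0 < c * x + d := by
  rcases le_total 0 c with h | h
  · nlinarith
  · nlinarith

lemma ch_lt {P Q P' Q' : ℝ × ℝ} {α β x : ℝ} (h1 : α ≤ x) (h2 : x ≤ β)
    (hα : ch P Q α < ch P' Q' α) (hβ : ch P Q β < ch P' Q' β) : ch P Q x < ch P' Q' x := by
  obtain ⟨A, B, hA⟩ := ch_affine P Q
  obtain ⟨A', B', hA'⟩ := ch_affine P' Q'
  rw [hA, hA'] at *
  have := aff_pos (c := A' - A) (d := B' - B) h1 h2 (by linarith) (by linarith)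
  linarith

/-- strict at the left end, weak at the right end -/
lemma ch_lt' {P Q P' Q' : ℝ × ℝ} {α β x : ℝ} (h1 : α ≤ x) (h2 : x < β)
    (hα : ch P Q α < ch P' Q' α) (hβ : ch P Q β ≤ ch P' Q' β) : ch P Q x < ch P' Q' x := by
  obtain ⟨A, B, hA⟩ := ch_affine P Q
  obtain ⟨A', B', hA'⟩ := ch_affine P' Q'
  rw [hA, hA'] at *
  by_contra hx
  push Not at hx
  have h3 : 0 < (A' - A) * α + (B' - B) := by linarith
  have h4 : (A' - A) * x + (B' - B) ≤ 0 := by linarith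
  have h5 : 0 ≤ (A' - A) * β + (B' - B) := by linarith
  rcases le_total 0 (A' - A) with h | h
  · nlinarith
  · nlinarith

/-- if the difference is positive at `α`, and non-positive at `κ ≥ α`, then it is negative beyond -/
lemma ch_neg_after {P Q P' Q' : ℝ × ℝ} {α κ x : ℝ} (h1 : α < κ) (h2 : κ < x)
    (hα : ch P Q α < ch P' Q' α) (hκ : ch P' Q' κ ≤ ch P Q κ) : ch P' Q' x < ch P Q x := by
  obtain ⟨A, B, hA⟩ := ch_affine P Q
  obtain ⟨A', B', hA'⟩ := ch_affine P' Q'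
  rw [hA, hA'] at *
  have hneg : A' - A < 0 := by
    by_contra h
    push Not at h
    nlinarith
  nlinarith

/-- `chord P Q` lies strictly below `chord P' Q'` over the common `x`-range -/
def Below (P Q P' Q' : ℝ × ℝ) : Prop :=
  ∀ x, x ∈ uIcc P.1 Q.1 → x ∈ uIcc P'.1 Q'.1 → ch P Q x < ch P' Q' x

lemma Below.comm_left {P Q P' Q' : ℝ × ℝ} (h : P.1 ≠ Q.1) (hb : Below P Q P' Q') :
    Below Q P P' Q' := by
  intro x hx hx'
  rw [← ch_comm h]
  exact hb x (by rwa [uIcc_comm]) hx'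

lemma Below.comm_right {P Q P' Q' : ℝ × ℝ} (h : P'.1 ≠ Q'.1) (hb : Below P Q P' Q') :
    Below P Q Q' P' := by
  intro x hx hx'
  rw [← ch_comm h]
  exact hb x hx (by rwa [uIcc_comm])

lemma below_of_ends_aux {P Q P' Q' : ℝ × ℝ} (h : P.1 < Q.1) (h' : P'.1 < Q'.1)
    (hP : P.1 ∈ uIcc P'.1 Q'.1 → P.2 < ch P' Q' P.1)
    (hQ : Q.1 ∈ uIcc P'.1 Q'.1 → Q.2 < ch P' Q' Q.1)
    (hP' : P'.1 ∈ uIcc P.1 Q.1 → ch P Q P'.1 < P'.2)
    (hQ' : Q'.1 ∈ uIcc P.1 Q.1 → ch P Q Q'.1 < Q'.2) : Below P Q P' Q' := by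
  intro x hx hx'
  rw [uIcc_of_le h.le, mem_Icc] at *
  rw [uIcc_of_le h'.le, mem_Icc] at *
  obtain ⟨α, hα1, hα2⟩ : ∃ α, α ≤ x ∧ ch P Q α < ch P' Q' α := by
    rcases le_total P.1 P'.1 with hl | hl
    · refine ⟨P'.1, hx'.1, ?_⟩
      rw [ch_left P' Q']
      exact hP' ⟨hl, hx'.1.trans hx.2⟩
    · refine ⟨P.1, hx.1, ?_⟩
      rw [ch_left P Q]
      exact hP ⟨hl, hx.1.trans hx'.2⟩
  obtain ⟨β, hβ1, hβ2⟩ : ∃ β, x ≤ β ∧ ch P Q β < ch P' Q' β := by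
    rcases le_total Q.1 Q'.1 with hl | hl
    · refine ⟨Q.1, hx.2, ?_⟩
      rw [ch_right h.ne]
      exact hQ ⟨hx'.1.trans hx.2, hl⟩
    · refine ⟨Q'.1, hx'.2, ?_⟩
      rw [ch_right h'.ne]
      exact hQ' ⟨hx.1.trans hx'.2, hl⟩
  exact ch_lt hα1 hβ1 hα2 hβ2

lemma below_of_ends {P Q P' Q' : ℝ × ℝ} (h : P.1 ≠ Q.1) (h' : P'.1 ≠ Q'.1)
    (hP : P.1 ∈ uIcc P'.1 Q'.1 → P.2 < ch P' Q' P.1)
    (hQ : Q.1 ∈ uIcc P'.1 Q'.1 → Q.2 < ch P' Q' Q.1)
    (hP' : P'.1 ∈ uIcc P.1 Q.1 → ch P Q P'.1 < P'.2)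
    (hQ' : Q'.1 ∈ uIcc P.1 Q.1 → ch P Q Q'.1 < Q'.2) : Below P Q P' Q' := by
  rcases lt_or_gt_of_ne h with h1 | h1 <;> rcases lt_or_gt_of_ne h' with h2 | h2
  · exact below_of_ends_aux h1 h2 hP hQ hP' hQ'
  · refine Below.comm_right h'.symm ?_
    refine below_of_ends_aux h1 h2 ?_ ?_ hQ' hP'
    · rw [uIcc_comm, ← ch_comm h']; exact hP
    · rw [uIcc_comm, ← ch_comm h']; exact hQ
  · refine Below.comm_left h.symm ?_
    refine below_of_ends_aux h1 h2 hQ hP ?_ ?_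
    · rw [uIcc_comm, ← ch_comm h]; exact hP'
    · rw [uIcc_comm, ← ch_comm h]; exact hQ'
  · refine Below.comm_left h.symm (Below.comm_right h'.symm ?_)
    refine below_of_ends_aux h1 h2 ?_ ?_ ?_ ?_
    · rw [uIcc_comm, ← ch_comm h']; exact hQ
    · rw [uIcc_comm, ← ch_comm h']; exact hP
    · rw [uIcc_comm, ← ch_comm h]; exact hQ'
    · rw [uIcc_comm, ← ch_comm h]; exact hP'

/-- separated in the `x`-direction -/
lemma below_of_sep {P Q P' Q' : ℝ × ℝ} (h1 : P.1 < P'.1) (h2 : P.1 < Q'.1) (h3 : Q.1 < P'.1)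
    (h4 : Q.1 < Q'.1) : Below P Q P' Q' := by
  intro x hx hx'
  exfalso
  rw [mem_uIcc] at hx hx'
  rcases hx with hx | hx <;> rcases hx' with hx' | hx' <;> linarith

lemma below_of_sep' {P Q P' Q' : ℝ × ℝ} (h1 : P'.1 < P.1) (h2 : Q'.1 < P.1) (h3 : P'.1 < Q.1)
    (h4 : Q'.1 < Q.1) : Below P Q P' Q' := by
  intro x hx hx'
  exfalso
  rw [mem_uIcc] at hx hx'
  rcases hx with hx | hx <;> rcases hx' with hx' | hx' <;> linarith

lemma seg_mem_ch {P Q z : ℝ × ℝ} (h : P.1 ≠ Q.1) (hz : z ∈ segment ℝ P Q) :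
    z.1 ∈ uIcc P.1 Q.1 ∧ z.2 = ch P Q z.1 := by
  rw [segment_eq_image_lineMap] at hz
  obtain ⟨t, ht, rfl⟩ := hz
  have h1 : (AffineMap.lineMap P Q t : ℝ × ℝ).1 = P.1 + t * (Q.1 - P.1) := by
    simp [AffineMap.lineMap_apply]; ring
  have h2 : (AffineMap.lineMap P Q t : ℝ × ℝ).2 = P.2 + t * (Q.2 - P.2) := by
    simp [AffineMap.lineMap_apply]; ring
  have h3 : Q.1 - P.1 ≠ 0 := sub_ne_zero.mpr (Ne.symm h)
  constructor
  · rw [h1, mem_uIcc]
    rcases lt_or_gt_of_ne h with h4 | h4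
    · left; constructor <;> nlinarith [ht.1, ht.2]
    · right; constructor <;> nlinarith [ht.1, ht.2]
  · rw [h1, h2]
    unfold ch
    field_simp
    ring

lemma Below.disjoint {P Q P' Q' : ℝ × ℝ} (h : P.1 ≠ Q.1) (h' : P'.1 ≠ Q'.1)
    (hb : Below P Q P' Q') : Disjoint (segment ℝ P Q) (segment ℝ P' Q') := by
  rw [Set.disjoint_left]
  intro z hz hz'
  obtain ⟨a1, a2⟩ := seg_mem_ch h hz
  obtain ⟨b1, b2⟩ := seg_mem_ch h' hz'
  have := hb z.1 a1 b1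
  rw [← a2, ← b2] at this
  exact lt_irrefl _ this

lemma ch_mem_segment {P Q : ℝ × ℝ} (h : P.1 ≠ Q.1) {x : ℝ} (hx : x ∈ uIcc P.1 Q.1) :
    ((x, ch P Q x) : ℝ × ℝ) ∈ segment ℝ P Q := by
  rw [segment_eq_image_lineMap]
  have h3 : Q.1 - P.1 ≠ 0 := sub_ne_zero.mpr (Ne.symm h)
  refine ⟨(x - P.1) / (Q.1 - P.1), ?_, ?_⟩
  · rw [mem_uIcc] at hx
    rcases lt_or_gt_of_ne h with h4 | h4
    · have : 0 < Q.1 - P.1 := by linarith
      rcases hx with hx | hx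
      · constructor
        · apply div_nonneg <;> linarith
        · rw [div_le_one this]; linarith
      · exfalso; linarith
    · have : 0 < P.1 - Q.1 := by linarith
      have e : (x - P.1) / (Q.1 - P.1) = (P.1 - x) / (P.1 - Q.1) := by
        rw [div_eq_div_iff h3 this.ne']; ring
      rw [e]
      rcases hx with hx | hx
      · exfalso; linarith
      · constructor
        · apply div_nonneg <;> linarith
        · rw [div_le_one this]; linarith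
  · ext
    · simp [AffineMap.lineMap_apply]
      field_simp
      ring
    · simp [AffineMap.lineMap_apply, ch]
      ring

/-- sign constancy for affine functions without a common value -/
lemma ch_lt_of_ne {P Q P' Q' : ℝ × ℝ} {x y : ℝ} (hlt : ch P Q x < ch P' Q' x)
    (hne : ∀ z ∈ uIcc x y, ch P Q z ≠ ch P' Q' z) : ch P Q y < ch P' Q' y := by
  obtain ⟨A, B, hA⟩ := ch_affine P Q
  obtain ⟨A', B', hA'⟩ := ch_affine P' Q'
  rw [hA, hA'] at hlt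
  rw [hA, hA']
  by_contra hcon
  push Not at hcon
  have hd : (A' - A) * (x - y) > 0 := by nlinarith
  have hne0 : A' - A ≠ 0 := by
    intro h0; rw [h0] at hd; simp at hd
  -- the zero
  obtain ⟨z, hz⟩ : ∃ z, z = (B - B') / (A' - A) := ⟨_, rfl⟩
  have hz0 : (A' - A) * z = B - B' := by rw [hz]; field_simp
  have hz1 : A * z + B = A' * z + B' := by linarith
  apply hne z
  · rw [mem_uIcc]
    rcases lt_or_gt_of_ne hne0 with hs | hs
    · left
      constructor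
      · by_contra hc; push Not at hc; nlinarith
      · by_contra hc; push Not at hc; nlinarith
    · right
      constructor
      · by_contra hc; push Not at hc; nlinarith
      · by_contra hc; push Not at hc; nlinarith
  · rw [hA, hA']; exact hz1

/-- reflection in the `x`-axis -/
def fl (P : ℝ × ℝ) : ℝ × ℝ := (P.1, -P.2)

@[simp] lemma fl_fst (P : ℝ × ℝ) : (fl P).1 = P.1 := rfl
@[simp] lemma fl_snd (P : ℝ × ℝ) : (fl P).2 = -P.2 := rfl
@[simp] lemma fl_fl (P : ℝ × ℝ) : fl (fl P) = P := by simp [fl]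

lemma ch_fl (P Q : ℝ × ℝ) (x : ℝ) : ch (fl P) (fl Q) x = - ch P Q x := by
  unfold ch fl; simp only; ring

lemma Below.fl {P Q P' Q' : ℝ × ℝ} (hb : Below P Q P' Q') :
    Below (fl P') (fl Q') (fl P) (fl Q) := by
  intro x hx hx'
  rw [ch_fl, ch_fl]
  have := hb x hx' hx
  linarith

lemma segment_fl (P Q : ℝ × ℝ) : segment ℝ (fl P) (fl Q) = fl '' segment ℝ P Q := by
  have := image_segment ℝ ((LinearMap.fst ℝ ℝ ℝ).prod (-(LinearMap.snd ℝ ℝ ℝ))).toAffineMap P Q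
  have e : (⇑((LinearMap.fst ℝ ℝ ℝ).prod (-(LinearMap.snd ℝ ℝ ℝ))).toAffineMap) = fl := by
    funext P
    simp [Pool.Agent.Helper650.AP.fl]
  rw [e] at this
  exact this.symm

lemma fl_injective : Function.Injective fl := by
  intro P Q h
  have := congrArg fl h
  simpa using this

lemma disjoint_segment_fl {P Q P' Q' : ℝ × ℝ} :
    Disjoint (segment ℝ (fl P) (fl Q)) (segment ℝ (fl P') (fl Q')) ↔
      Disjoint (segment ℝ P Q) (segment ℝ P' Q') := by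
  rw [segment_fl, segment_fl, Set.disjoint_image_iff fl_injective]

end Pool.Agent.Helper650.AP
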