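import Mathlib
import Pool.Agent.Helper650.AP1

namespace Pool.Agent.Helper650.AP

open Set

/-- Erdős–Szekeres in subset form -/
lemma es {ι : Type*} [DecidableEq ι] (h b : ι → ℝ) (q : ℕ) : ∀ (m : ℕ) (S : Finset ι),
    Set.InjOn h S → Set.InjOn b S → m * q < S.card →
    (∃ T, T ⊆ S ∧ m + 1 ≤ T.card ∧ ∀ i ∈ T, ∀ j ∈ T, h i < h j → b i < b j) ∨
    (∃ T, T ⊆ S ∧ q + 1 ≤ T.card ∧ ∀ i ∈ T, ∀ j ∈ T, h i < h j → b j < b i) := by
  classical
  intro m
  induction m with
  | zero =>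
    intro S _ _ hc
    left
    have : 0 < S.card := by omega
    obtain ⟨x, hx⟩ := Finset.card_pos.mp this
    refine ⟨{x}, by simpa using hx, by simp, ?_⟩
    intro i hi j hj hij
    simp only [Finset.mem_singleton] at hi hj
    subst hi; subst hj
    exact absurd hij (lt_irrefl _)
  | succ m ih =>
    intro S hh hb hc
    set Mn := S.filter (fun i => ∀ j ∈ S, ¬ (h j < h i ∧ b j < b i)) with hMn
    by_cases hq : q + 1 ≤ Mn.card
    · right
      refine ⟨Mn, Finset.filter_subset _ _, hq, ?_⟩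
      intro i hi j hj hij
      rw [hMn, Finset.mem_filter] at hi hj
      have h1 := hj.2 i hi.1
      have h2 : ¬ b i < b j := fun h => h1 ⟨hij, h⟩
      have h3 : b i ≠ b j := by
        intro h
        have := hb hi.1 hj.1 h
        subst this
        exact lt_irrefl _ hij
      exact lt_of_le_of_ne (not_lt.mp h2) h3.symm
    · push Not at hq
      have hsub : Mn ⊆ S := Finset.filter_subset _ _
      have hcard : m * q < (S \ Mn).card := by
        rw [Finset.card_sdiff_of_subset hsub]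
        have : (m + 1) * q = m * q + q := by ring
        omega
      rcases ih (S \ Mn) (hh.mono (by simp)) (hb.mono (by simp)) hcard with
        ⟨T, hT, hTc, hTm⟩ | ⟨T, hT, hTc, hTm⟩
      · left
        have hTne : T.Nonempty := Finset.card_pos.mp (by omega)
        obtain ⟨t0, ht0, hmin⟩ := Finset.exists_min_image T h hTne
        have ht0S := hT ht0
        rw [Finset.mem_sdiff, hMn, Finset.mem_filter] at ht0S
        obtain ⟨ht0S, hnot⟩ := ht0S
        push Not at hnot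
        obtain ⟨j, hjS, hj1, hj2⟩ := hnot ht0S
        have hTS : ∀ i ∈ T, i ∈ S := fun i hi => (Finset.mem_sdiff.mp (hT hi)).1
        have hjT : j ∉ T := by
          intro hjT
          exact absurd (hmin j hjT) (not_le.mpr hj1)
        have hlow : ∀ i ∈ T, h j < h i ∧ b j < b i := by
          intro i hi
          have h1 := hmin i hi
          refine ⟨lt_of_lt_of_le hj1 h1, ?_⟩
          rcases eq_or_lt_of_le h1 with h2 | h2
          · have := hh ht0S (hTS i hi) h2
            rw [← this]; exact hj2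
          · exact hj2.trans (hTm t0 ht0 i hi h2)
        refine ⟨insert j T, ?_, ?_, ?_⟩
        · intro x hx
          rw [Finset.mem_insert] at hx
          rcases hx with rfl | hx
          · exact hjS
          · exact hTS x hx
        · rw [Finset.card_insert_of_notMem hjT]; omega
        · intro x hx y hy hxy
          rw [Finset.mem_insert] at hx hy
          rcases hx with rfl | hx
          · rcases hy with rfl | hy
            · exact absurd hxy (lt_irrefl _)
            · exact (hlow y hy).2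
          · rcases hy with rfl | hy
            · exact absurd hxy (not_lt.mpr (hlow x hx).1.le)
            · exact hTm x hx y hy hxy
      · right
        exact ⟨T, fun x hx => (Finset.mem_sdiff.mp (hT hx)).1, hTc, hTm⟩

structure Fam (ι : Type*) where
  p : ι → Bool → ℝ × ℝ
  lr : ∀ i, (p i false).1 < (p i true).1
  xinj : ∀ i j a b, (p i a).1 = (p j b).1 → i = j ∧ a = b
  disj : ∀ i j, i ≠ j →
    Disjoint (segment ℝ (p i false) (p i true)) (segment ℝ (p j false) (p j true))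

variable {ι : Type*}

/-- left endpoint -/
def Fam.l (F : Fam ι) (i : ι) : ℝ × ℝ := F.p i false
/-- right endpoint -/
def Fam.r (F : Fam ι) (i : ι) : ℝ × ℝ := F.p i true
/-- the line through segment `i` -/
noncomputable def Fam.L (F : Fam ι) (i : ι) (x : ℝ) : ℝ := ch (F.l i) (F.r i) x

def Fam.Stab (F : Fam ι) (ξ : ℝ) (i : ι) : Prop := (F.l i).1 ≤ ξ ∧ ξ ≤ (F.r i).1

def Fam.flip (F : Fam ι) : Fam ι where
  p i b := fl (F.p i b)
  lr i := F.lr i
  xinj i j a b h := F.xinj i j a b h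
  disj i j h := disjoint_segment_fl.mpr (F.disj i j h)

@[simp] lemma flip_l (F : Fam ι) (i : ι) : F.flip.l i = fl (F.l i) := rfl
@[simp] lemma flip_r (F : Fam ι) (i : ι) : F.flip.r i = fl (F.r i) := rfl
lemma flip_L (F : Fam ι) (i : ι) (x : ℝ) : F.flip.L i x = - F.L i x := by
  unfold Fam.L; rw [flip_l, flip_r, ch_fl]
lemma flip_stab {F : Fam ι} {ξ : ℝ} {i : ι} : F.flip.Stab ξ i ↔ F.Stab ξ i := Iff.rfl

lemma Fam.lr' (F : Fam ι) (i : ι) : (F.l i).1 < (F.r i).1 := F.lr i

lemma Fam.l_ne_r (F : Fam ι) (i j : ι) : (F.l i).1 ≠ (F.r j).1 := by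
  intro h
  have := (F.xinj i j false true h).2
  exact absurd this (by decide)

lemma Fam.r_ne (F : Fam ι) {i j : ι} (h : i ≠ j) : (F.r i).1 ≠ (F.r j).1 :=
  fun e => h (F.xinj i j true true e).1

lemma Fam.l_ne (F : Fam ι) {i j : ι} (h : i ≠ j) : (F.l i).1 ≠ (F.l j).1 :=
  fun e => h (F.xinj i j false false e).1

lemma Fam.L_l (F : Fam ι) (i : ι) : F.L i (F.l i).1 = (F.l i).2 := ch_left _ _
lemma Fam.L_r (F : Fam ι) (i : ι) : F.L i (F.r i).1 = (F.r i).2 := ch_right (F.lr' i).ne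

lemma Fam.L_ne (F : Fam ι) {i j : ι} (h : i ≠ j) {x : ℝ} (h1 : (F.l i).1 ≤ x)
    (h2 : x ≤ (F.r i).1) (h3 : (F.l j).1 ≤ x) (h4 : x ≤ (F.r j).1) : F.L i x ≠ F.L j x := by
  intro e
  have hd := F.disj i j h
  rw [Set.disjoint_left] at hd
  have m1 := ch_mem_segment (P := F.l i) (Q := F.r i) (F.lr' i).ne (x := x)
    (by rw [uIcc_of_le (F.lr' i).le]; exact ⟨h1, h2⟩)
  have m2 := ch_mem_segment (P := F.l j) (Q := F.r j) (F.lr' j).ne (x := x)
    (by rw [uIcc_of_le (F.lr' j).le]; exact ⟨h3, h4⟩)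
  have e' : ch (F.l i) (F.r i) x = ch (F.l j) (F.r j) x := e
  rw [← e'] at m2
  exact hd m1 m2

section group
variable {F : Fam ι} {ξ : ℝ}

lemma Stab.lr {F : Fam ι} {ξ : ℝ} {i j : ι} (hi : F.Stab ξ i) (hj : F.Stab ξ j) :
    (F.l i).1 < (F.r j).1 :=
  lt_of_le_of_ne (hi.1.trans hj.2) (F.l_ne_r i j)

lemma ord {i j : ι} (hi : F.Stab ξ i) (hj : F.Stab ξ j) (hlt : F.L i ξ < F.L j ξ) {x : ℝ}
    (h1 : (F.l i).1 ≤ x) (h2 : x ≤ (F.r i).1) (h3 : (F.l j).1 ≤ x) (h4 : x ≤ (F.r j).1) :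
    F.L i x < F.L j x := by
  have hne : i ≠ j := by rintro rfl; exact lt_irrefl _ hlt
  apply ch_lt_of_ne (x := ξ) hlt
  intro z hz
  rw [mem_uIcc] at hz
  have hi' := hi; have hj' := hj
  obtain ⟨a1, a2⟩ := hi'
  obtain ⟨a3, a4⟩ := hj'
  apply F.L_ne hne <;> rcases hz with hz | hz <;> linarith

lemma h_ne {i j : ι} (hi : F.Stab ξ i) (hj : F.Stab ξ j) (h : i ≠ j) : F.L i ξ ≠ F.L j ξ :=
  F.L_ne h hi.1 hi.2 hj.1 hj.2

lemma ne_of_h {i j : ι} (h : F.L i ξ < F.L j ξ) : i ≠ j := by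
  rintro rfl; exact lt_irrefl _ h

/-- chords on the right side, descending extents: lower segments are below -/
lemma dec_below {i j k : ι} (hi : F.Stab ξ i) (hj : F.Stab ξ j) (hk : F.Stab ξ k)
    (hij : F.L i ξ < F.L j ξ) (ha : (F.r j).1 < (F.r i).1) (hki : F.L k ξ < F.L i ξ) :
    Below (F.l k) (F.r k) (F.r i) (F.r j) := by
  have lkj := Stab.lr hk hj
  have lki := Stab.lr hk hi
  have lij := Stab.lr hi hj
  have ljj := Stab.lr hj hj
  have lii := Stab.lr hi hi
  apply below_of_ends (F.lr' k).ne ha.ne'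
  · intro hx
    rw [uIcc_of_ge ha.le, mem_Icc] at hx
    linarith
  · intro hx
    rw [uIcc_of_ge ha.le, mem_Icc] at hx
    have hne : (F.r k).1 ≠ (F.r i).1 := F.r_ne (ne_of_h hki)
    have hlt : (F.r k).1 < (F.r i).1 := lt_of_le_of_ne hx.2 hne
    have h1 : F.L k (F.r k).1 < F.L i (F.r k).1 :=
      ord hk hi hki (F.lr' k).le le_rfl (by have := Stab.lr hi hk; linarith) hlt.le
    rw [F.L_r k] at h1
    refine h1.trans ?_
    apply ch_lt' (α := (F.r j).1) (β := (F.r i).1) hx.1 hlt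
    · rw [ch_right ha.ne']
      have := ord hi hj hij lij.le ha.le ljj.le le_rfl
      rw [F.L_r j] at this
      exact this
    · rw [ch_right (F.lr' i).ne, ch_left]
  · intro hx
    rw [uIcc_of_le (F.lr' k).le, mem_Icc] at hx
    have := ord hk hi hki hx.1 hx.2 lii.le le_rfl
    rw [F.L_r i] at this
    exact this
  · intro hx
    rw [uIcc_of_le (F.lr' k).le, mem_Icc] at hx
    have := ord hk hj (hki.trans hij) hx.1 hx.2 ljj.le le_rfl
    rw [F.L_r j] at this
    exact this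

/-- segment `k` (above) hits the chord from `r i` to `r j` -/
def Hit (F : Fam ι) (i j k : ι) : Prop :=
  (F.r j).1 < (F.r k).1 ∧ (F.r k).1 < (F.r i).1 ∧ (F.r k).2 ≤ ch (F.r i) (F.r j) (F.r k).1

lemma dec_above {i j k : ι} (hi : F.Stab ξ i) (hj : F.Stab ξ j) (hk : F.Stab ξ k)
    (hij : F.L i ξ < F.L j ξ) (ha : (F.r j).1 < (F.r i).1) (hjk : F.L j ξ < F.L k ξ)
    (hh : ¬ Hit F i j k) : Below (F.r i) (F.r j) (F.l k) (F.r k) := by
  have lkj := Stab.lr hk hj
  have lki := Stab.lr hk hi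
  have lij := Stab.lr hi hj
  have ljj := Stab.lr hj hj
  have lii := Stab.lr hi hi
  apply below_of_ends ha.ne' (F.lr' k).ne
  · intro hx
    rw [uIcc_of_le (F.lr' k).le, mem_Icc] at hx
    have := ord hi hk (hij.trans hjk) lii.le le_rfl hx.1 hx.2
    rw [F.L_r i] at this
    exact this
  · intro hx
    rw [uIcc_of_le (F.lr' k).le, mem_Icc] at hx
    have := ord hj hk hjk ljj.le le_rfl hx.1 hx.2
    rw [F.L_r j] at this
    exact this
  · intro hx
    rw [uIcc_of_ge ha.le, mem_Icc] at hx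
    linarith
  · intro hx
    rw [uIcc_of_ge ha.le, mem_Icc] at hx
    have hne : (F.r k).1 ≠ (F.r i).1 := F.r_ne (ne_of_h (hij.trans hjk)).symm
    have hne' : (F.r j).1 ≠ (F.r k).1 := F.r_ne (ne_of_h hjk)
    by_contra hc
    push Not at hc
    exact hh ⟨lt_of_le_of_ne hx.1 hne', lt_of_le_of_ne hx.2 hne, hc⟩

lemma hit_mono {i j w k : ι} (hi : F.Stab ξ i) (hj : F.Stab ξ j) (hw : F.Stab ξ w)
    (hk : F.Stab ξ k) (hij : F.L i ξ < F.L j ξ) (hjw : F.L j ξ < F.L w ξ)
    (hwk : F.L w ξ < F.L k ξ) (hh : Hit F i j k) (ha : (F.r k).1 < (F.r w).1) : Hit F i j w := by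
  obtain ⟨h1, h2, h3⟩ := hh
  have hne : (F.r i).1 ≠ (F.r j).1 := by linarith
  have e1 : ch (F.r i) (F.r j) (F.r j).1 < F.L w (F.r j).1 := by
    rw [ch_right hne]
    have := ord hj hw hjw (Stab.lr hj hj).le le_rfl (Stab.lr hw hj).le (by linarith)
    rw [F.L_r j] at this
    exact this
  have e2 : F.L w (F.r k).1 ≤ ch (F.r i) (F.r j) (F.r k).1 := by
    have := ord hw hk hwk (Stab.lr hw hk).le ha.le (Stab.lr hk hk).le le_rfl
    rw [F.L_r k] at this
    linarith
  have key : ∀ x, (F.r k).1 < x → F.L w x < ch (F.r i) (F.r j) x := by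
    intro x hx
    exact ch_neg_after h1 hx e1 e2
  have hwi : (F.r w).1 < (F.r i).1 := by
    by_contra hc
    push Not at hc
    have h4 := key (F.r i).1 h2
    rw [ch_left] at h4
    have h5 := ord hi hw (hij.trans hjw) (Stab.lr hi hi).le le_rfl (Stab.lr hw hi).le hc
    rw [F.L_r i] at h5
    linarith
  refine ⟨by linarith, hwi, ?_⟩
  have := key (F.r w).1 ha
  rw [F.L_r w] at this
  exact this.le

end group

/-- relation between a lower pair `x` and a higher pair `y` -/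
structure RR (F : Fam ι) (ξ : ℝ) (x y : ι × ι) : Prop where
  lt : F.L x.2 ξ < F.L y.1 ξ
  b1 : Below (F.r x.1) (F.r x.2) (F.l y.1) (F.r y.1)
  b2 : Below (F.r x.1) (F.r x.2) (F.l y.2) (F.r y.2)
  b3 : Below (F.l x.1) (F.r x.1) (F.r y.1) (F.r y.2)
  b4 : Below (F.l x.2) (F.r x.2) (F.r y.1) (F.r y.2)

lemma RR.flip {F : Fam ι} {ξ : ℝ} {x y : ι × ι} (hx : x.1 ≠ x.2) (hy : y.1 ≠ y.2)
    (h : RR F.flip ξ x y) : RR F ξ y.swap x.swap := by
  obtain ⟨h0, h1, h2, h3, h4⟩ := h
  have h1 := h1.fl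
  have h2 := h2.fl
  have h3 := h3.fl
  have h4 := h4.fl
  simp only [flip_l, flip_r, fl_fl] at h1 h2 h3 h4
  rw [flip_L, flip_L] at h0
  refine ⟨?_, ?_, ?_, ?_, ?_⟩
  · simp only [Prod.fst_swap, Prod.snd_swap]; linarith
  · exact h4.comm_left (F.r_ne hy)
  · exact h3.comm_left (F.r_ne hy)
  · exact h2.comm_right (F.r_ne hx)
  · exact h1.comm_right (F.r_ne hx)

end Pool.Agent.Helper650.AP
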