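import Mathlib
import Pool.Agent.Helper650.AP2

namespace Pool.Agent.Helper650.AP

open Set

variable {ι : Type*}

/-- data of runs: for `t ∈ A`, `(u t, v t, w t)` increasing in height and decreasing in extent -/
structure Runs (F : Fam ι) (ξ : ℝ) {τ : Type} [LinearOrder τ] (A : Finset τ)
    (e : τ → Fin 3 → ι) : Prop where
  stab : ∀ t ∈ A, ∀ a, F.Stab ξ (e t a)
  hinc : ∀ t ∈ A, ∀ a b, a < b → F.L (e t a) ξ < F.L (e t b) ξ
  adec : ∀ t ∈ A, ∀ a b, a < b → (F.r (e t b)).1 < (F.r (e t a)).1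
  sep : ∀ t ∈ A, ∀ t' ∈ A, t < t' → F.L (e t 2) ξ < F.L (e t' 0) ξ

section
variable {F : Fam ι} {ξ : ℝ} {τ : Type} [LinearOrder τ] {A : Finset τ} {e : τ → Fin 3 → ι}

/-- first index of the gap -/
def g1 (b : Bool) : Fin 3 := if b then 1 else 0
/-- second index of the gap -/
def g2 (b : Bool) : Fin 3 := if b then 2 else 1

lemma g12 (b : Bool) : g1 b < g2 b := by cases b <;> decide

lemma Runs.le2 (R : Runs F ξ A e) {t : τ} (ht : t ∈ A) (a : Fin 3) :
    F.L (e t a) ξ ≤ F.L (e t 2) ξ := by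
  rcases eq_or_lt_of_le (show a ≤ 2 from Fin.le_last a) with h | h
  · rw [h]
  · exact (R.hinc t ht _ _ h).le

lemma Runs.ge0 (R : Runs F ξ A e) {t : τ} (ht : t ∈ A) (a : Fin 3) :
    F.L (e t 0) ξ ≤ F.L (e t a) ξ := by
  rcases eq_or_lt_of_le (show 0 ≤ a from Fin.zero_le a) with h | h
  · rw [← h]
  · exact (R.hinc t ht _ _ h).le

lemma Runs.lt_of_lt (R : Runs F ξ A e) {t t' : τ} (ht : t ∈ A) (ht' : t' ∈ A) (h : t < t')
    (a b : Fin 3) : F.L (e t a) ξ < F.L (e t' b) ξ :=
  lt_of_le_of_lt (R.le2 ht a) (lt_of_lt_of_le (R.sep t ht t' ht' h) (R.ge0 ht' b))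

/-- the gap `(t, b)` is bad -/
def Bad (F : Fam ι) (ξ : ℝ) (A : Finset τ) (e : τ → Fin 3 → ι) (t : τ) (b : Bool) : Prop :=
  ∃ t' ∈ A, ∃ a : Fin 3, F.L (e t (g2 b)) ξ < F.L (e t' a) ξ ∧
    Hit F (e t (g1 b)) (e t (g2 b)) (e t' a)

lemma bad_spec (R : Runs F ξ A e) {t : τ} (ht : t ∈ A) {b : Bool} (hb : Bad F ξ A e t b) :
    ∃ t' ∈ A, F.L (e t (g2 b)) ξ < F.L (e t' 0) ξ ∧
      Hit F (e t (g1 b)) (e t (g2 b)) (e t' 0) ∧
      ∀ s ∈ A, ∀ a : Fin 3, F.L (e t (g2 b)) ξ < F.L (e s a) ξ →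
        F.L (e s a) ξ < F.L (e t' 0) ξ → (F.r (e s a)).1 < (F.r (e t' 0)).1 := by
  classical
  -- the finite set of hitting positions
  set K : Finset (τ × Fin 3) := (A ×ˢ Finset.univ).filter
    (fun x => F.L (e t (g2 b)) ξ < F.L (e x.1 x.2) ξ ∧
      Hit F (e t (g1 b)) (e t (g2 b)) (e x.1 x.2)) with hK
  have hKne : K.Nonempty := by
    obtain ⟨t', ht', a, h1, h2⟩ := hb
    exact ⟨(t', a), by rw [hK, Finset.mem_filter]; exact ⟨by simp [ht'], h1, h2⟩⟩
  obtain ⟨⟨t', a⟩, hmem, hmin⟩ := Finset.exists_min_image K (fun x => F.L (e x.1 x.2) ξ) hKne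
  rw [hK, Finset.mem_filter] at hmem
  obtain ⟨hm1, hm2, hm3⟩ := hmem
  have ht' : t' ∈ A := (Finset.mem_product.mp hm1).1
  simp only at hm2 hm3
  have s1 := R.stab t ht (g1 b)
  have s2 := R.stab t ht (g2 b)
  have hij := R.hinc t ht _ _ (g12 b)
  -- everything between has smaller extent
  have key : ∀ s ∈ A, ∀ a' : Fin 3, F.L (e t (g2 b)) ξ < F.L (e s a') ξ →
      F.L (e s a') ξ < F.L (e t' a) ξ → (F.r (e s a')).1 < (F.r (e t' a)).1 := by
    intro s hs a' h1 h2
    by_contra hc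
    push Not at hc
    have hne : (F.r (e t' a)).1 ≠ (F.r (e s a')).1 := F.r_ne (ne_of_h h2).symm
    have hlt := lt_of_le_of_ne hc hne
    have hh := hit_mono s1 s2 (R.stab s hs a') (R.stab t' ht' a) hij h1 h2 hm3 hlt
    have := hmin (s, a') (by
      rw [hK, Finset.mem_filter]
      exact ⟨by simp [hs], h1, hh⟩)
    simp only at this
    linarith
  -- position relative to `t`
  have htt : ¬ t' < t := by
    intro h
    have := R.lt_of_lt ht' ht h a (g2 b)
    linarith
  have hinv : ∀ a' : Fin 3, a' < a → ¬ F.L (e t (g2 b)) ξ < F.L (e t' a') ξ := by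
    intro a' ha' h
    have := key t' ht' a' h (R.hinc t' ht' _ _ ha')
    have := R.adec t' ht' _ _ ha'
    linarith
  have ha0 : a = 0 := by
    by_contra hne
    have h0a : (0 : Fin 3) < a := Fin.pos_iff_ne_zero.mpr hne
    have h1 := hinv 0 h0a
    rcases lt_trichotomy t t' with h | h | h
    · exact h1 (R.lt_of_lt ht ht' h _ _)
    · subst h
      -- same run
      have hlt : g2 b < a := by
        by_contra hc
        push Not at hc
        rcases eq_or_lt_of_le hc with h | h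
        · rw [h] at hm2; exact lt_irrefl _ hm2
        · have := R.hinc t ht _ _ h; linarith
      have := R.adec t ht _ _ hlt
      have := hm3.1
      linarith
    · exact htt h
  subst ha0
  exact ⟨t', ht', hm2, hm3, key⟩

lemma bad_count [DecidableEq τ] (R : Runs F ξ A e) :
    ∃ G : Finset τ, G ⊆ A ∧ A.card ≤ 2 * G.card ∧ ∀ t ∈ G, ∃ b, ¬ Bad F ξ A e t b := by
  classical
  set Bd := A.filter (fun t => ∀ b, Bad F ξ A e t b) with hBd
  refine ⟨A \ Bd, Finset.sdiff_subset, ?_, ?_⟩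
  · have hsub : Bd ⊆ A := Finset.filter_subset _ _
    have hcard : 2 * Bd.card ≤ A.card := by
      have hbad : ∀ x ∈ Bd ×ˢ (Finset.univ : Finset Bool), x.1 ∈ A ∧ Bad F ξ A e x.1 x.2 := by
        intro x hx
        have := (Finset.mem_product.mp hx).1
        rw [hBd, Finset.mem_filter] at this
        exact ⟨this.1, this.2 _⟩
      have hch : ∀ x : τ × Bool, x ∈ Bd ×ˢ (Finset.univ : Finset Bool) →
          ∃ t' ∈ A, F.L (e x.1 (g2 x.2)) ξ < F.L (e t' 0) ξ ∧
            Hit F (e x.1 (g1 x.2)) (e x.1 (g2 x.2)) (e t' 0) ∧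
            ∀ s ∈ A, ∀ a : Fin 3, F.L (e x.1 (g2 x.2)) ξ < F.L (e s a) ξ →
              F.L (e s a) ξ < F.L (e t' 0) ξ → (F.r (e s a)).1 < (F.r (e t' 0)).1 :=
        fun x hx => bad_spec R (hbad x hx).1 (hbad x hx).2
      have hch' : ∀ x : τ × Bool, ∃ t' : τ, x ∈ Bd ×ˢ (Finset.univ : Finset Bool) →
          t' ∈ A ∧ F.L (e x.1 (g2 x.2)) ξ < F.L (e t' 0) ξ ∧
            Hit F (e x.1 (g1 x.2)) (e x.1 (g2 x.2)) (e t' 0) ∧
            ∀ s ∈ A, ∀ a : Fin 3, F.L (e x.1 (g2 x.2)) ξ < F.L (e s a) ξ →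
              F.L (e s a) ξ < F.L (e t' 0) ξ → (F.r (e s a)).1 < (F.r (e t' 0)).1 := by
        intro x
        by_cases hx : x ∈ Bd ×ˢ (Finset.univ : Finset Bool)
        · obtain ⟨t', h1, h2⟩ := hch x hx
          exact ⟨t', fun _ => ⟨h1, h2⟩⟩
        · exact ⟨x.1, fun h => absurd h hx⟩
      choose κ hκ using hch'
      -- a strict comparison of gaps
      have hgap : ∀ x ∈ Bd ×ˢ (Finset.univ : Finset Bool), ∀ y ∈ Bd ×ˢ (Finset.univ : Finset Bool),
          (x.1 < y.1 ∨ (x.1 = y.1 ∧ x.2 = false ∧ y.2 = true)) → κ x ≠ κ y := by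
        intro x hx y hy hxy heq
        obtain ⟨a1, a2, a3, a4⟩ := hκ x hx
        obtain ⟨b1, b2, b3, b4⟩ := hκ y hy
        rw [← heq] at b2 b3 b4
        have hxA := (hbad x hx).1
        have hyA := (hbad y hy).1
        have hle : e x.1 (g2 x.2) = e y.1 (g1 y.2) ∨
            F.L (e x.1 (g2 x.2)) ξ < F.L (e y.1 (g1 y.2)) ξ := by
          rcases hxy with h | ⟨h, h', h''⟩
          · right; exact R.lt_of_lt hxA hyA h _ _
          · left; rw [h, h', h'']; rfl
        have hyk : F.L (e y.1 (g1 y.2)) ξ < F.L (e (κ x) 0) ξ :=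
          (R.hinc _ hyA _ _ (g12 y.2)).trans b2
        have hb31 := b3.2.1
        rcases hle with h | h
        · rw [← h] at hb31
          have := a3.1
          linarith
        · have := a4 y.1 hyA (g1 y.2) h hyk
          linarith
      have := Finset.card_le_card_of_injOn (s := Bd ×ˢ (Finset.univ : Finset Bool)) (t := A) κ
        (fun x hx => (hκ x hx).1) (by
          intro x hx y hy hxy
          have hx' : x ∈ Bd ×ˢ (Finset.univ : Finset Bool) := hx
          have hy' : y ∈ Bd ×ˢ (Finset.univ : Finset Bool) := hy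
          by_contra hne
          rcases lt_trichotomy x.1 y.1 with h | h | h
          · exact hgap x hx' y hy' (Or.inl h) hxy
          · have h2 : x.2 ≠ y.2 := fun h2 => hne (Prod.ext h h2)
            rcases hx2 : x.2 with _ | _
            · rcases hy2 : y.2 with _ | _
              · exact h2 (by rw [hx2, hy2])
              · exact hgap x hx' y hy' (Or.inr ⟨h, hx2, hy2⟩) hxy
            · rcases hy2 : y.2 with _ | _
              · exact hgap y hy' x hx' (Or.inr ⟨h.symm, hy2, hx2⟩) hxy.symm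
              · exact h2 (by rw [hx2, hy2])
          · exact hgap y hy' x hx' (Or.inl h) hxy.symm)
      rw [Finset.card_product] at this
      simp at this
      omega
    rw [Finset.card_sdiff_of_subset hsub]
    have := Finset.card_le_card hsub
    omega
  · intro t ht
    rw [Finset.mem_sdiff, hBd, Finset.mem_filter] at ht
    have h2 := ht.2
    push Not at h2
    exact h2 ht.1

/-- extraction of consecutive clear pairs from runs -/
lemma pairs_dec [DecidableEq τ] (R : Runs F ξ A e) :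
    ∃ l : List (ι × ι), A.card ≤ 2 * l.length ∧
      (∀ x ∈ l, (∃ t ∈ A, ∃ a b, x.1 = e t a ∧ x.2 = e t b) ∧ F.L x.1 ξ < F.L x.2 ξ) ∧
      l.Pairwise (RR F ξ) := by
  classical
  obtain ⟨G, hGA, hcard, hG⟩ := bad_count R
  have : ∀ t : τ, ∃ b : Bool, t ∈ G → ¬ Bad F ξ A e t b := by
    intro t
    by_cases h : t ∈ G
    · obtain ⟨b, hb⟩ := hG t h
      exact ⟨b, fun _ => hb⟩
    · exact ⟨true, fun h' => absurd h' h⟩
  choose β hβ using this
  refine ⟨(G.sort (· ≤ ·)).map (fun t => (e t (g1 (β t)), e t (g2 (β t)))), ?_, ?_, ?_⟩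
  · simpa using hcard
  · intro x hx
    rw [List.mem_map] at hx
    obtain ⟨t, ht, rfl⟩ := hx
    rw [Finset.mem_sort] at ht
    exact ⟨⟨t, hGA ht, _, _, rfl, rfl⟩, R.hinc t (hGA ht) _ _ (g12 _)⟩
  · rw [List.pairwise_map]
    have hs := (G.sortedLT_sort).pairwise
    refine List.Pairwise.imp_of_mem ?_ hs
    intro t t' ht ht' hlt
    rw [Finset.mem_sort] at ht ht'
    have hA := hGA ht
    have hA' := hGA ht'
    have hnb := hβ t ht
    have above : ∀ a : Fin 3, Below (F.r (e t (g1 (β t)))) (F.r (e t (g2 (β t))))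
        (F.l (e t' a)) (F.r (e t' a)) := by
      intro a
      apply dec_above (R.stab t hA _) (R.stab t hA _) (R.stab t' hA' _) (R.hinc t hA _ _ (g12 _))
        (R.adec t hA _ _ (g12 _)) (R.lt_of_lt hA hA' hlt _ _)
      intro hh
      exact hnb ⟨t', hA', a, R.lt_of_lt hA hA' hlt _ _, hh⟩
    have below : ∀ a : Fin 3, Below (F.l (e t a)) (F.r (e t a))
        (F.r (e t' (g1 (β t')))) (F.r (e t' (g2 (β t')))) := by
      intro a
      exact dec_below (R.stab t' hA' _) (R.stab t' hA' _) (R.stab t hA _)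
        (R.hinc t' hA' _ _ (g12 _)) (R.adec t' hA' _ _ (g12 _)) (R.lt_of_lt hA hA' hlt _ _)
    exact ⟨R.lt_of_lt hA hA' hlt _ _, above _, above _, below _, below _⟩

end

/-- enumeration in increasing height -/
lemma enum {ι : Type*} [DecidableEq ι] [Nonempty ι] (h : ι → ℝ) : ∀ (M : ℕ) (S : Finset ι),
    Set.InjOn h S → S.card = M →
    ∃ e : ℕ → ι, (∀ i < M, e i ∈ S) ∧ ∀ i j, i < j → j < M → h (e i) < h (e j) := by
  intro M
  induction M with
  | zero =>
    intro S _ _
    exact ⟨fun _ => Classical.arbitrary ι, fun i hi => absurd hi (Nat.not_lt_zero _),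
      fun i j _ hj => absurd hj (Nat.not_lt_zero _)⟩
  | succ M ih =>
    intro S hinj hc
    have hne : S.Nonempty := Finset.card_pos.mp (by omega)
    obtain ⟨x, hx, hmax⟩ := Finset.exists_max_image S h hne
    obtain ⟨e, he1, he2⟩ := ih (S.erase x) (hinj.mono (by simp))
      (by rw [Finset.card_erase_of_mem hx]; omega)
    refine ⟨fun i => if i < M then e i else x, ?_, ?_⟩
    · intro i hi
      by_cases h : i < M
      · simp only [h, if_true]
        exact Finset.mem_of_mem_erase (he1 i h)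
      · simp only [h, if_false]
        exact hx
    · intro i j hij hj
      have hi : i < M := by omega
      simp only [hi, if_true]
      by_cases h : j < M
      · simp only [h, if_true]
        exact he2 i j hij h
      · simp only [h, if_false]
        have h1 := he1 i hi
        rw [Finset.mem_erase] at h1
        refine lt_of_le_of_ne (hmax _ h1.2) ?_
        intro h2
        exact h1.1 (hinj h1.2 hx h2)

/-- three elements of a set sorted by height -/
lemma three_sorted {ι : Type*} [DecidableEq ι] (h : ι → ℝ) (T : Finset ι) (hinj : Set.InjOn h T)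
    (hc : 3 ≤ T.card) : ∃ e : Fin 3 → ι, (∀ a, e a ∈ T) ∧ ∀ a b, a < b → h (e a) < h (e b) := by
  obtain ⟨x, hx⟩ : T.Nonempty := Finset.card_pos.mp (by omega)
  have : Nonempty ι := ⟨x⟩
  obtain ⟨e, h1, h2⟩ := enum h T.card T hinj rfl
  refine ⟨fun a => e a, fun a => h1 _ (by omega), fun a b hab => h2 _ _ hab (by omega)⟩

/-- main extraction lemma: from a stabbed set, a linear number of clear consecutive pairs -/
lemma pairs [DecidableEq ι] (F : Fam ι) (ξ : ℝ) (S : Finset ι) (hS : ∀ i ∈ S, F.Stab ξ i) :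
    ∃ l : List (ι × ι), S.card ≤ 20 * l.length + 4 ∧
      (∀ x ∈ l, x.1 ∈ S ∧ x.2 ∈ S ∧ F.L x.1 ξ < F.L x.2 ξ) ∧ l.Pairwise (RR F ξ) := by
  classical
  rcases S.eq_empty_or_nonempty with rfl | ⟨x0, hx0⟩
  · exact ⟨[], by simp, by simp, by simp⟩
  have : Nonempty ι := ⟨x0⟩
  have hinj : Set.InjOn (fun i => F.L i ξ) S := by
    intro i hi j hj hij
    by_contra hne
    exact h_ne (hS i hi) (hS j hj) hne hij
  have ainj : Set.InjOn (fun i => (F.r i).1) S := by
    intro i hi j hj hij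
    by_contra hne
    exact F.r_ne hne hij
  obtain ⟨e, he1, he2⟩ := enum (fun i => F.L i ξ) S.card S hinj rfl
  obtain ⟨K, hK⟩ : ∃ K, K = S.card / 5 := ⟨_, rfl⟩
  have hK5 : 5 * K ≤ S.card := by omega
  have einj : ∀ i < S.card, ∀ j < S.card, e i = e j → i = j := by
    intro i hi j hj hij
    rcases lt_trichotomy i j with h | h | h
    · have := he2 i j h hj; simp only [hij] at this; exact absurd this (lt_irrefl _)
    · exact h
    · have := he2 j i h hi; simp only [hij] at this; exact absurd this (lt_irrefl _)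
  -- triples
  have htr : ∀ t < K, ∃ f : Fin 3 → ι, (∀ a, ∃ k, 5 * t ≤ k ∧ k < 5 * t + 5 ∧ f a = e k) ∧
      (∀ a b, a < b → F.L (f a) ξ < F.L (f b) ξ) ∧
      ((∀ a b, a < b → (F.r (f b)).1 < (F.r (f a)).1) ∨
        (∀ a b, a < b → (F.r (f a)).1 < (F.r (f b)).1)) := by
    intro t ht
    set B := (Finset.Ico (5 * t) (5 * t + 5)).image e with hB
    have hBS : B ⊆ S := by
      intro x hx
      rw [hB, Finset.mem_image] at hx
      obtain ⟨k, hk, rfl⟩ := hx
      rw [Finset.mem_Ico] at hk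
      exact he1 k (by omega)
    have hBc : B.card = 5 := by
      rw [hB, Finset.card_image_of_injOn]
      · simp
      · intro i hi j hj hij
        simp only [Finset.coe_Ico, Set.mem_Ico] at hi hj
        exact einj i (by omega) j (by omega) hij
    have hBm : ∀ x ∈ B, ∃ k, 5 * t ≤ k ∧ k < 5 * t + 5 ∧ x = e k := by
      intro x hx
      rw [hB, Finset.mem_image] at hx
      obtain ⟨k, hk, rfl⟩ := hx
      rw [Finset.mem_Ico] at hk
      exact ⟨k, hk.1, hk.2, rfl⟩
    rcases es (fun i => F.L i ξ) (fun i => (F.r i).1) 2 2 B (hinj.mono hBS) (ainj.mono hBS)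
      (by omega) with ⟨T, hT, hTc, hTm⟩ | ⟨T, hT, hTc, hTm⟩
    · obtain ⟨f, hf1, hf2⟩ := three_sorted (fun i => F.L i ξ) T
        (hinj.mono (by exact_mod_cast hT.trans hBS)) hTc
      exact ⟨f, fun a => hBm _ (hT (hf1 a)), hf2, Or.inr fun a b hab =>
        hTm _ (hf1 a) _ (hf1 b) (hf2 a b hab)⟩
    · obtain ⟨f, hf1, hf2⟩ := three_sorted (fun i => F.L i ξ) T
        (hinj.mono (by exact_mod_cast hT.trans hBS)) hTc
      exact ⟨f, fun a => hBm _ (hT (hf1 a)), hf2, Or.inl fun a b hab =>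
        hTm _ (hf1 a) _ (hf1 b) (hf2 a b hab)⟩
  have htr' : ∀ t : ℕ, ∃ f : Fin 3 → ι, t < K →
      (∀ a, ∃ k, 5 * t ≤ k ∧ k < 5 * t + 5 ∧ f a = e k) ∧
      (∀ a b, a < b → F.L (f a) ξ < F.L (f b) ξ) ∧
      ((∀ a b, a < b → (F.r (f b)).1 < (F.r (f a)).1) ∨
        (∀ a b, a < b → (F.r (f a)).1 < (F.r (f b)).1)) := by
    intro t
    by_cases ht : t < K
    · obtain ⟨f, hf⟩ := htr t ht
      exact ⟨f, fun _ => hf⟩
    · exact ⟨fun _ => x0, fun h => absurd h ht⟩
  choose f hf using htr'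
  have fS : ∀ t < K, ∀ a, f t a ∈ S := by
    intro t ht a
    obtain ⟨k, h1, h2, h3⟩ := (hf t ht).1 a
    rw [h3]
    exact he1 k (by omega)
  have fsep : ∀ t t', t < t' → t' < K → ∀ a b, F.L (f t a) ξ < F.L (f t' b) ξ := by
    intro t t' htt ht' a b
    obtain ⟨k, h1, h2, h3⟩ := (hf t (by omega)).1 a
    obtain ⟨k', h1', h2', h3'⟩ := (hf t' ht').1 b
    rw [h3, h3']
    exact he2 k k' (by omega) (by omega)
  set A1 : Finset ℕ := (Finset.range K).filter
    (fun t => ∀ a b, a < b → (F.r (f t b)).1 < (F.r (f t a)).1) with hA1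
  set A2 : Finset ℕ := (Finset.range K).filter
    (fun t => ∀ a b, a < b → (F.r (f t a)).1 < (F.r (f t b)).1) with hA2
  have hun : Finset.range K ⊆ A1 ∪ A2 := by
    intro t ht
    have ht' := Finset.mem_range.mp ht
    rw [Finset.mem_union, hA1, hA2, Finset.mem_filter, Finset.mem_filter]
    rcases (hf t ht').2.2 with h | h
    · left; exact ⟨ht, h⟩
    · right; exact ⟨ht, h⟩
  have hcard : K ≤ A1.card + A2.card := by
    have := (Finset.card_le_card hun).trans (Finset.card_union_le _ _)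
    simpa using this
  by_cases hmaj : A2.card ≤ A1.card
  · have R : Runs F ξ A1 f := by
      refine ⟨?_, ?_, ?_, ?_⟩
      · intro t ht a
        rw [hA1, Finset.mem_filter, Finset.mem_range] at ht
        exact hS _ (fS t ht.1 a)
      · intro t ht
        rw [hA1, Finset.mem_filter, Finset.mem_range] at ht
        exact (hf t ht.1).2.1
      · intro t ht
        rw [hA1, Finset.mem_filter, Finset.mem_range] at ht
        exact ht.2
      · intro t ht t' ht' htt
        rw [hA1, Finset.mem_filter, Finset.mem_range] at ht ht'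
        exact fsep t t' htt ht'.1 _ _
    obtain ⟨l, h1, h2, h3⟩ := pairs_dec R
    refine ⟨l, by omega, ?_, h3⟩
    intro x hx
    obtain ⟨⟨t, ht, a, b, e1, e2⟩, h4⟩ := h2 x hx
    rw [hA1, Finset.mem_filter, Finset.mem_range] at ht
    exact ⟨e1 ▸ fS t ht.1 a, e2 ▸ fS t ht.1 b, h4⟩
  · push Not at hmaj
    have hA2m : ∀ t ∈ A2, t < K ∧ ∀ a b, a < b → (F.r (f t a)).1 < (F.r (f t b)).1 := by
      intro t ht
      rw [hA2, Finset.mem_filter, Finset.mem_range] at ht
      exact ht
    have hD : ∀ t : ℕᵒᵈ, t ∈ A2.map OrderDual.toDual.toEmbedding → OrderDual.ofDual t ∈ A2 := by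
      intro t ht
      rw [Finset.mem_map] at ht
      obtain ⟨s, hs, rfl⟩ := ht
      exact hs
    have R : Runs F.flip ξ (A2.map OrderDual.toDual.toEmbedding)
        (fun (t : ℕᵒᵈ) a => f (OrderDual.ofDual t) (2 - a)) := by
      have hsub : ∀ a b : Fin 3, a < b → 2 - b < 2 - a := by decide
      refine ⟨?_, ?_, ?_, ?_⟩
      · intro t ht a
        have ht := hA2m _ (hD t ht)
        exact flip_stab.mpr (hS _ (fS _ ht.1 _))
      · intro t ht a b hab
        have ht := hA2m _ (hD t ht)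
        rw [flip_L, flip_L]
        have := (hf _ ht.1).2.1 _ _ (hsub a b hab)
        linarith
      · intro t ht a b hab
        have ht := hA2m _ (hD t ht)
        exact ht.2 _ _ (hsub a b hab)
      · intro t ht t' ht' htt
        have ht := hA2m _ (hD t ht)
        have ht' := hA2m _ (hD t' ht')
        rw [flip_L, flip_L]
        have htt' : OrderDual.ofDual t' < OrderDual.ofDual t := OrderDual.ofDual_lt_ofDual.mpr htt
        have := fsep _ _ htt' ht.1 (2 - 0) (2 - 2)
        linarith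
    obtain ⟨l, h1, h2, h3⟩ := pairs_dec R
    have hh : ∀ x ∈ l, x.1 ∈ S ∧ x.2 ∈ S ∧ F.L x.2 ξ < F.L x.1 ξ := by
      intro x hx
      obtain ⟨⟨t, ht, a, b, e1, e2⟩, h4⟩ := h2 x hx
      have ht := hA2m _ (hD t ht)
      rw [flip_L, flip_L] at h4
      exact ⟨e1 ▸ fS _ ht.1 _, e2 ▸ fS _ ht.1 _, by linarith⟩
    refine ⟨(l.map Prod.swap).reverse, ?_, ?_, ?_⟩
    · rw [Finset.card_map] at h1
      rw [List.length_reverse, List.length_map]
      omega
    · intro x hx
      rw [List.mem_reverse, List.mem_map] at hx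
      obtain ⟨y, hy, rfl⟩ := hx
      have := hh y hy
      exact ⟨this.2.1, this.1, this.2.2⟩
    · rw [List.pairwise_reverse, List.pairwise_map]
      refine List.Pairwise.imp_of_mem ?_ h3
      intro x y hx hy hxy
      exact RR.flip (ne_of_h (hh x hx).2.2).symm (ne_of_h (hh y hy).2.2).symm hxy

end Pool.Agent.Helper650.AP
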