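import Mathlib
import Pool.Agent.Helper650.AP3

namespace Pool.Agent.Helper650.AP

open Set

variable {ι : Type*}

/-- a path element `(i, true)` is segment `i` traversed from `p i false` to `p i true` -/
def stp (p : ι → Bool → ℝ × ℝ) (s : ι × Bool) : ℝ × ℝ := p s.1 (!s.2)
def enp (p : ι → Bool → ℝ × ℝ) (s : ι × Bool) : ℝ × ℝ := p s.1 s.2

/-- consecutive pairs -/
def conns {α : Type*} (l : List α) : List (α × α) := l.zip l.tail

@[simp] lemma conns_nil {α : Type*} : conns ([] : List α) = [] := rfl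
@[simp] lemma conns_single {α : Type*} (a : α) : conns [a] = [] := rfl
@[simp] lemma conns_cons_cons {α : Type*} (a b : α) (l : List α) :
    conns (a :: b :: l) = (a, b) :: conns (b :: l) := rfl

/-- the connecting edge -/
def cseg (p : ι → Bool → ℝ × ℝ) (c : (ι × Bool) × (ι × Bool)) : Set (ℝ × ℝ) :=
  segment ℝ (enp p c.1) (stp p c.2)

structure Good (p : ι → Bool → ℝ × ℝ) (l : List (ι × Bool)) : Prop where
  nodup : (l.map Prod.fst).Nodup
  cs : ∀ c ∈ conns l, ∀ s ∈ l, s.1 ≠ c.1.1 → s.1 ≠ c.2.1 →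
    Disjoint (cseg p c) (segment ℝ (p s.1 false) (p s.1 true))
  cc : (conns l).Pairwise (fun c c' => Disjoint (cseg p c) (cseg p c'))

structure Inv (F : Fam ι) (l : List (ι × Bool)) (f : ι) : Prop where
  good : Good F.p l
  head : ∃ l', l = (f, true) :: l'
  left : ∀ s ∈ l, s.1 ≠ f → (F.l f).1 < (F.l s.1).1
  cleft : ∀ c ∈ conns l, (F.l f).1 < (enp F.p c.1).1 ∧ (F.l f).1 < (stp F.p c.2).1
  cne : ∀ c ∈ conns l, (enp F.p c.1).1 ≠ (stp F.p c.2).1

structure Ready (F : Fam ι) (l : List (ι × Bool)) (x : ι × ι) : Prop where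
  s : ∀ s ∈ l, Below (F.r x.1) (F.r x.2) (F.l s.1) (F.r s.1)
  c1 : ∀ c ∈ conns l, Below (F.l x.1) (F.r x.1) (enp F.p c.1) (stp F.p c.2)
  c2 : ∀ c ∈ conns l, Below (F.l x.2) (F.r x.2) (enp F.p c.1) (stp F.p c.2)
  cc : ∀ c ∈ conns l, Below (F.r x.1) (F.r x.2) (enp F.p c.1) (stp F.p c.2)
  notin : ∀ s ∈ l, s.1 ≠ x.1 ∧ s.1 ≠ x.2

section
variable {F : Fam ι} {ξ : ℝ}

lemma Inv.left' {l : List (ι × Bool)} {f : ι} (h : Inv F l f) {s : ι × Bool} (hs : s ∈ l) :
    (F.l f).1 ≤ (F.l s.1).1 := by
  by_cases e : s.1 = f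
  · rw [e]
  · exact (h.left s hs e).le

lemma lchord {k q f : ι} (hk : F.Stab ξ k) (hq : F.Stab ξ q) (hf : F.Stab ξ f)
    (hkq : F.L k ξ < F.L q ξ) (hkf : F.L k ξ < F.L f ξ) (x1 : (F.l k).1 < (F.l q).1)
    (x2 : (F.l q).1 < (F.l f).1) : Below (F.l k) (F.r k) (F.l q) (F.l f) := by
  apply below_of_ends (F.lr' k).ne x2.ne
  · intro hx
    rw [uIcc_of_le x2.le, mem_Icc] at hx
    linarith
  · intro hx
    rw [uIcc_of_le x2.le, mem_Icc] at hx
    have := Stab.lr hf hk
    linarith
  · intro hx
    rw [uIcc_of_le (F.lr' k).le, mem_Icc] at hx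
    have := ord hk hq hkq hx.1 hx.2 le_rfl (F.lr' q).le
    rw [F.L_l q] at this
    exact this
  · intro hx
    rw [uIcc_of_le (F.lr' k).le, mem_Icc] at hx
    have := ord hk hf hkf hx.1 hx.2 le_rfl (F.lr' f).le
    rw [F.L_l f] at this
    exact this

lemma step_inv {l : List (ι × Bool)} {f : ι} {x : ι × ι} (hI : Inv F l f) (hf : F.Stab ξ f)
    (h1 : F.Stab ξ x.1) (h2 : F.Stab ξ x.2) (o1 : F.L x.1 ξ < F.L x.2 ξ)
    (o2 : F.L x.2 ξ < F.L f ξ) (x1 : (F.l x.1).1 < (F.l x.2).1)
    (x2 : (F.l x.2).1 < (F.l f).1) (hR : Ready F l x) :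
    Inv F ((x.1, true) :: (x.2, false) :: l) x.1 := by
  obtain ⟨l', hl'⟩ := hI.head
  have hne : x.1 ≠ x.2 := ne_of_h o1
  have hcon : conns ((x.1, true) :: (x.2, false) :: l) =
      ((x.1, true), (x.2, false)) :: ((x.2, false), (f, true)) :: conns l := by
    rw [hl']; rfl
  have eR : cseg F.p ((x.1, true), (x.2, false)) = segment ℝ (F.r x.1) (F.r x.2) := rfl
  have eL : cseg F.p ((x.2, false), (f, true)) = segment ℝ (F.l x.2) (F.l f) := rfl
  have nR : (F.r x.1).1 ≠ (F.r x.2).1 := F.r_ne hne
  refine ⟨⟨?_, ?_, ?_⟩, ⟨_, rfl⟩, ?_, ?_, ?_⟩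
  · rw [List.map_cons, List.map_cons, List.nodup_cons, List.nodup_cons]
    refine ⟨?_, ?_, hI.good.nodup⟩
    · intro h
      rw [List.mem_cons, List.mem_map] at h
      rcases h with h | ⟨s, hs, hs'⟩
      · exact hne h
      · exact (hR.notin s hs).1 hs'
    · intro h
      rw [List.mem_map] at h
      obtain ⟨s, hs, hs'⟩ := h
      exact (hR.notin s hs).2 hs'
  · intro c hc s hs n1 n2
    rw [hcon, List.mem_cons, List.mem_cons] at hc
    rw [List.mem_cons, List.mem_cons] at hs
    rcases hc with rfl | rfl | hc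
    · rcases hs with rfl | rfl | hs
      · exact absurd rfl n1
      · exact absurd rfl n2
      · rw [eR]
        exact (hR.s s hs).disjoint nR (F.lr' s.1).ne
    · rcases hs with rfl | rfl | hs
      · rw [eL]
        exact ((lchord h1 h2 hf o1 (o1.trans o2) x1 x2).disjoint (F.lr' _).ne x2.ne).symm
      · exact absurd rfl n1
      · rw [eL]
        have := hI.left s hs n2
        have h3 := F.lr' s.1
        exact (below_of_sep (P := F.l x.2) (Q := F.l f) (P' := F.l s.1) (Q' := F.r s.1)
          (by linarith) (by linarith) (by linarith) (by linarith)).disjoint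
          x2.ne (F.lr' s.1).ne
    · rcases hs with rfl | rfl | hs
      · exact ((hR.c1 c hc).disjoint (F.lr' _).ne (hI.cne c hc)).symm
      · exact ((hR.c2 c hc).disjoint (F.lr' _).ne (hI.cne c hc)).symm
      · exact hI.good.cs c hc s hs n1 n2
  · rw [hcon, List.pairwise_cons, List.pairwise_cons]
    refine ⟨?_, ?_, hI.good.cc⟩
    · intro c hc
      rw [List.mem_cons] at hc
      rcases hc with rfl | hc
      · rw [eR, eL]
        exact (below_of_sep' (Stab.lr h2 h1) (Stab.lr hf h1) (Stab.lr h2 h2)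
          (Stab.lr hf h2)).disjoint nR x2.ne
      · rw [eR]
        exact (hR.cc c hc).disjoint nR (hI.cne c hc)
    · intro c hc
      rw [eL]
      obtain ⟨c1, c2⟩ := hI.cleft c hc
      exact (below_of_sep (by linarith) (by linarith) (by linarith) (by linarith)).disjoint
        x2.ne (hI.cne c hc)
  · intro s hs n
    rw [List.mem_cons, List.mem_cons] at hs
    rcases hs with rfl | rfl | hs
    · exact absurd rfl n
    · exact x1
    · have := hI.left' hs
      linarith
  · intro c hc
    rw [hcon, List.mem_cons, List.mem_cons] at hc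
    rcases hc with rfl | rfl | hc
    · exact ⟨F.lr' x.1, Stab.lr h1 h2⟩
    · exact ⟨x1, x1.trans x2⟩
    · obtain ⟨c1, c2⟩ := hI.cleft c hc
      exact ⟨by linarith, by linarith⟩
  · intro c hc
    rw [hcon, List.mem_cons, List.mem_cons] at hc
    rcases hc with rfl | rfl | hc
    · exact nR
    · exact x2.ne
    · exact hI.cne c hc

lemma step_ready {l : List (ι × Bool)} {f : ι} {x y : ι × ι} (hI : Inv F l f) (hf : F.Stab ξ f)
    (h2 : F.Stab ξ x.2) (k1 : F.Stab ξ y.1) (k2 : F.Stab ξ y.2)
    (o1 : F.L x.1 ξ < F.L x.2 ξ) (o2 : F.L x.2 ξ < F.L f ξ)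
    (x2 : (F.l x.2).1 < (F.l f).1) (oy : F.L y.1 ξ < F.L y.2 ξ)
    (m1 : (F.l y.1).1 < (F.l x.2).1) (m2 : (F.l y.2).1 < (F.l x.2).1)
    (hR : Ready F l y) (hRR : RR F ξ y x) :
    Ready F ((x.1, true) :: (x.2, false) :: l) y := by
  obtain ⟨l', hl'⟩ := hI.head
  have hne : x.1 ≠ x.2 := ne_of_h o1
  have hney : y.1 ≠ y.2 := ne_of_h oy
  have hcon : conns ((x.1, true) :: (x.2, false) :: l) =
      ((x.1, true), (x.2, false)) :: ((x.2, false), (f, true)) :: conns l := by
    rw [hl']; rfl
  have olt := hRR.lt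
  refine ⟨?_, ?_, ?_, ?_, ?_⟩
  · intro s hs
    rw [List.mem_cons, List.mem_cons] at hs
    rcases hs with rfl | rfl | hs
    · exact hRR.b1
    · exact hRR.b2
    · exact hR.s s hs
  · intro c hc
    rw [hcon, List.mem_cons, List.mem_cons] at hc
    rcases hc with rfl | rfl | hc
    · exact hRR.b3
    · exact lchord k1 h2 hf (by linarith) (by linarith) m1 x2
    · exact hR.c1 c hc
  · intro c hc
    rw [hcon, List.mem_cons, List.mem_cons] at hc
    rcases hc with rfl | rfl | hc
    · exact hRR.b4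
    · exact lchord k2 h2 hf (by linarith) (by linarith) m2 x2
    · exact hR.c2 c hc
  · intro c hc
    rw [hcon, List.mem_cons, List.mem_cons] at hc
    rcases hc with rfl | rfl | hc
    · show Below (F.r y.1) (F.r y.2) (F.r x.1) (F.r x.2)
      apply below_of_ends (F.r_ne hney) (F.r_ne hne)
      · intro hx
        have := hRR.b3 _ (right_mem_uIcc) hx
        rwa [ch_right (F.lr' _).ne] at this
      · intro hx
        have := hRR.b4 _ (right_mem_uIcc) hx
        rwa [ch_right (F.lr' _).ne] at this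
      · intro hx
        have := hRR.b1 _ hx (right_mem_uIcc)
        rwa [ch_right (F.lr' _).ne] at this
      · intro hx
        have := hRR.b2 _ hx (right_mem_uIcc)
        rwa [ch_right (F.lr' _).ne] at this
    · exact below_of_sep' (Stab.lr h2 k1) (Stab.lr hf k1) (Stab.lr h2 k2) (Stab.lr hf k2)
    · exact hR.cc c hc
  · intro s hs
    rw [List.mem_cons, List.mem_cons] at hs
    rcases hs with rfl | rfl | hs
    · exact ⟨(ne_of_h (oy.trans olt)).symm, (ne_of_h olt).symm⟩
    · exact ⟨(ne_of_h (oy.trans (olt.trans o1))).symm, (ne_of_h (olt.trans o1)).symm⟩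
    · exact hR.notin s hs

/-- admissible tail for the set `T` -/
def TailOK (F : Fam ι) (T : Finset ι) (l : List (ι × Bool)) : Prop :=
  l = [] ∨ ∃ z, Inv F l z ∧ ∀ k ∈ T, (F.r k).1 < (F.l z).1 ∧ F.L k (F.l z).1 ≤ (F.l z).2

lemma base_inv {T : Finset ι} {l : List (ι × Bool)} (hT : TailOK F T l) {t : ι} (ht : t ∈ T) :
    Inv F ((t, true) :: l) t := by
  rcases hT with rfl | ⟨z, hI, hz⟩
  · refine ⟨⟨by simp, by simp, by simp⟩, ⟨_, rfl⟩, ?_, by simp, by simp⟩
    intro s hs n
    rw [List.mem_singleton] at hs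
    subst hs
    exact absurd rfl n
  · obtain ⟨l', hl'⟩ := hI.head
    have hcon : conns ((t, true) :: l) = ((t, true), (z, true)) :: conns l := by
      rw [hl']; rfl
    have hzt := (hz t ht).1
    have htt := F.lr' t
    have eK : cseg F.p ((t, true), (z, true)) = segment ℝ (F.r t) (F.l z) := rfl
    refine ⟨⟨?_, ?_, ?_⟩, ⟨_, rfl⟩, ?_, ?_, ?_⟩
    · rw [List.map_cons, List.nodup_cons]
      refine ⟨?_, hI.good.nodup⟩
      intro h
      rw [List.mem_map] at h
      obtain ⟨s, hs, hs'⟩ := h
      have := hI.left' hs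
      rw [hs'] at this
      linarith
    · intro c hc s hs n1 n2
      rw [hcon, List.mem_cons] at hc
      rw [List.mem_cons] at hs
      rcases hc with rfl | hc
      · rcases hs with rfl | hs
        · exact absurd rfl n1
        · rw [eK]
          have := hI.left s hs n2
          have h3 := F.lr' s.1
          exact (below_of_sep (P := F.r t) (Q := F.l z) (P' := F.l s.1) (Q' := F.r s.1)
            (by linarith) (by linarith) (by linarith) (by linarith)).disjoint
            hzt.ne (F.lr' s.1).ne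
      · rcases hs with rfl | hs
        · obtain ⟨c1, c2⟩ := hI.cleft c hc
          exact ((below_of_sep (P := F.l t) (Q := F.r t) (by linarith) (by linarith) (by linarith)
            (by linarith)).disjoint (F.lr' _).ne (hI.cne c hc)).symm
        · exact hI.good.cs c hc s hs n1 n2
    · rw [hcon, List.pairwise_cons]
      refine ⟨?_, hI.good.cc⟩
      intro c hc
      rw [eK]
      obtain ⟨c1, c2⟩ := hI.cleft c hc
      exact (below_of_sep (by linarith) (by linarith) (by linarith)
            (by linarith)).disjoint hzt.ne (hI.cne c hc)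
    · intro s hs n
      rw [List.mem_cons] at hs
      rcases hs with rfl | hs
      · exact absurd rfl n
      · have := hI.left' hs
        linarith
    · intro c hc
      rw [hcon, List.mem_cons] at hc
      rcases hc with rfl | hc
      · exact ⟨htt, htt.trans hzt⟩
      · obtain ⟨c1, c2⟩ := hI.cleft c hc
        exact ⟨by linarith, by linarith⟩
    · intro c hc
      rw [hcon, List.mem_cons] at hc
      rcases hc with rfl | hc
      · exact hzt.ne
      · exact hI.cne c hc

lemma link_above {t k z : ι} (ht : F.Stab ξ t) (hk : F.Stab ξ k) (hkt : F.L k ξ < F.L t ξ)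
    (hzt : (F.r t).1 < (F.l z).1) (hzk : (F.r k).1 < (F.l z).1)
    (hL : F.L k (F.l z).1 ≤ (F.l z).2) (hx : (F.r t).1 ≤ (F.r k).1) :
    (F.r k).2 < ch (F.r t) (F.l z) (F.r k).1 := by
  have h := ch_lt' (P := F.l k) (Q := F.r k) (P' := F.r t) (Q' := F.l z) (α := (F.r t).1)
    (β := (F.l z).1) hx hzk
    (by
      rw [ch_left]
      have := ord hk ht hkt (Stab.lr hk ht).le hx (Stab.lr ht ht).le le_rfl
      rw [F.L_r t] at this
      exact this)
    (by
      rw [ch_right hzt.ne]
      exact hL)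
  rwa [ch_right (F.lr' k).ne] at h

lemma link_seg {t k z : ι} (ht : F.Stab ξ t) (hk : F.Stab ξ k) (hkt : F.L k ξ < F.L t ξ)
    (hzt : (F.r t).1 < (F.l z).1) (hzk : (F.r k).1 < (F.l z).1)
    (hL : F.L k (F.l z).1 ≤ (F.l z).2) : Below (F.l k) (F.r k) (F.r t) (F.l z) := by
  apply below_of_ends (F.lr' k).ne hzt.ne
  · intro hx
    rw [uIcc_of_le hzt.le, mem_Icc] at hx
    have := Stab.lr hk ht
    linarith
  · intro hx
    rw [uIcc_of_le hzt.le, mem_Icc] at hx
    exact link_above ht hk hkt hzt hzk hL hx.1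
  · intro hx
    rw [uIcc_of_le (F.lr' k).le, mem_Icc] at hx
    have := ord hk ht hkt hx.1 hx.2 (Stab.lr ht ht).le le_rfl
    rw [F.L_r t] at this
    exact this
  · intro hx
    rw [uIcc_of_le (F.lr' k).le, mem_Icc] at hx
    linarith

lemma base_ready {T : Finset ι} {l : List (ι × Bool)} (hT : TailOK F T l) {t : ι} (ht : t ∈ T)
    (hS : ∀ i ∈ T, F.Stab ξ i) {y : ι × ι} (hy1 : y.1 ∈ T) (hy2 : y.2 ∈ T)
    (oy : F.L y.1 ξ < F.L y.2 ξ) (ot : F.L y.2 ξ < F.L t ξ)
    (hb : Below (F.r y.1) (F.r y.2) (F.l t) (F.r t)) :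
    Ready F ((t, true) :: l) y := by
  have st := hS t ht
  have s1 := hS _ hy1
  have s2 := hS _ hy2
  rcases hT with rfl | ⟨z, hI, hz⟩
  · refine ⟨?_, by simp, by simp, by simp, ?_⟩
    · intro s hs
      rw [List.mem_singleton] at hs
      subst hs
      exact hb
    · intro s hs
      rw [List.mem_singleton] at hs
      subst hs
      exact ⟨(ne_of_h (oy.trans ot)).symm, (ne_of_h ot).symm⟩
  · obtain ⟨l', hl'⟩ := hI.head
    have hcon : conns ((t, true) :: l) = ((t, true), (z, true)) :: conns l := by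
      rw [hl']; rfl
    obtain ⟨z1, z1'⟩ := hz _ hy1
    obtain ⟨z2, z2'⟩ := hz _ hy2
    have zt := (hz t ht).1
    have y1 := F.lr' y.1
    have y2 := F.lr' y.2
    refine ⟨?_, ?_, ?_, ?_, ?_⟩
    · intro s hs
      rw [List.mem_cons] at hs
      rcases hs with rfl | hs
      · exact hb
      · have := hI.left' hs
        have h3 := F.lr' s.1
        exact below_of_sep (by linarith) (by linarith) (by linarith) (by linarith)
    · intro c hc
      rw [hcon, List.mem_cons] at hc
      rcases hc with rfl | hc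
      · exact link_seg st s1 (oy.trans ot) zt z1 z1'
      · obtain ⟨c1, c2⟩ := hI.cleft c hc
        exact below_of_sep (by linarith) (by linarith) (by linarith) (by linarith)
    · intro c hc
      rw [hcon, List.mem_cons] at hc
      rcases hc with rfl | hc
      · exact link_seg st s2 ot zt z2 z2'
      · obtain ⟨c1, c2⟩ := hI.cleft c hc
        exact below_of_sep (by linarith) (by linarith) (by linarith) (by linarith)
    · intro c hc
      rw [hcon, List.mem_cons] at hc
      rcases hc with rfl | hc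
      · show Below (F.r y.1) (F.r y.2) (F.r t) (F.l z)
        apply below_of_ends (F.r_ne (ne_of_h oy)) zt.ne
        · intro hx
          rw [uIcc_of_le zt.le, mem_Icc] at hx
          exact link_above st s1 (oy.trans ot) zt z1 z1' hx.1
        · intro hx
          rw [uIcc_of_le zt.le, mem_Icc] at hx
          exact link_above st s2 ot zt z2 z2' hx.1
        · intro hx
          have := hb _ hx (right_mem_uIcc)
          rwa [ch_right (F.lr' _).ne] at this
        · intro hx
          exfalso
          rw [mem_uIcc] at hx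
          rcases hx with hx | hx <;> linarith
      · obtain ⟨c1, c2⟩ := hI.cleft c hc
        exact below_of_sep (by linarith) (by linarith) (by linarith) (by linarith)
    · intro s hs
      rw [List.mem_cons] at hs
      rcases hs with rfl | hs
      · exact ⟨(ne_of_h (oy.trans ot)).symm, (ne_of_h ot).symm⟩
      · have := hI.left' hs
        constructor
        · intro e; rw [e] at this; linarith
        · intro e; rw [e] at this; linarith

lemma zigzag {T : Finset ι} {l : List (ι × Bool)} (hT : TailOK F T l)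
    (hS : ∀ i ∈ T, F.Stab ξ i)
    (hmono : ∀ i ∈ T, ∀ j ∈ T, F.L i ξ < F.L j ξ → (F.l i).1 < (F.l j).1) :
    ∀ (rest : List (ι × ι)) (x : ι × ι),
      (∀ y ∈ x :: rest, y.1 ∈ T ∧ y.2 ∈ T ∧ F.L y.1 ξ < F.L y.2 ξ) →
      (x :: rest).Pairwise (RR F ξ) →
      ∃ l', Inv F l' x.1 ∧ l'.length = l.length + 2 * rest.length + 1 ∧
        (∀ s ∈ l', s.1 ∈ T ∨ s ∈ l) ∧
        ∀ y : ι × ι, y.1 ∈ T → y.2 ∈ T → F.L y.1 ξ < F.L y.2 ξ →
          (∀ x' ∈ x :: rest, RR F ξ y x') → Ready F l' y := by
  intro rest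
  induction rest with
  | nil =>
    intro x hx _
    obtain ⟨hx1, hx2, hx3⟩ := hx x (by simp)
    refine ⟨(x.1, true) :: l, base_inv hT hx1, by simp, ?_, ?_⟩
    · intro s hs
      rw [List.mem_cons] at hs
      rcases hs with rfl | hs
      · left; exact hx1
      · right; exact hs
    · intro y hy1 hy2 oy hRR
      have hR := hRR x (by simp)
      exact base_ready hT hx1 hS hy1 hy2 oy hR.lt hR.b1
  | cons z rest ih =>
    intro x hx hp
    rw [List.pairwise_cons] at hp
    obtain ⟨l', hI, hlen, hmem, hready⟩ := ih z (fun y hy => hx y (List.mem_cons_of_mem _ hy)) hp.2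
    obtain ⟨hx1, hx2, hx3⟩ := hx x (by simp)
    obtain ⟨hz1, hz2, hz3⟩ := hx z (by simp)
    have hxz := hp.1 z (by simp)
    have hRx : Ready F l' x := hready x hx1 hx2 hx3 hp.1
    have x2 := hmono _ hx2 _ hz1 hxz.lt
    refine ⟨(x.1, true) :: (x.2, false) :: l', ?_, ?_, ?_, ?_⟩
    · exact step_inv hI (hS _ hz1) (hS _ hx1) (hS _ hx2) hx3 hxz.lt (hmono _ hx1 _ hx2 hx3)
        x2 hRx
    · simp only [List.length_cons]
      omega
    · intro s hs
      rw [List.mem_cons, List.mem_cons] at hs
      rcases hs with rfl | rfl | hs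
      · left; exact hx1
      · left; exact hx2
      · exact hmem s hs
    · intro y hy1 hy2 oy hRR
      have hyx := hRR x (by simp)
      refine step_ready hI (hS _ hz1) (hS _ hx2) (hS _ hy1) (hS _ hy2) hx3 hxz.lt x2 oy
        ?_ ?_ ?_ hyx
      · exact hmono _ hy1 _ hx2 (oy.trans (hyx.lt.trans hx3))
      · exact hmono _ hy2 _ hx2 (hyx.lt.trans hx3)
      · exact hready y hy1 hy2 oy (fun x' hx' => hRR x' (List.mem_cons_of_mem _ hx'))

lemma traverse [DecidableEq ι] {T : Finset ι} {l : List (ι × Bool)} (hT : TailOK F T l)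
    (hne : T.Nonempty) (hS : ∀ i ∈ T, F.Stab ξ i)
    (hmono : ∀ i ∈ T, ∀ j ∈ T, F.L i ξ < F.L j ξ → (F.l i).1 < (F.l j).1) :
    ∃ l' f, f ∈ T ∧ Inv F l' f ∧ T.card + 24 * l.length ≤ 24 * l'.length ∧
      ∀ s ∈ l', s.1 ∈ T ∨ s ∈ l := by
  obtain ⟨prs, hc, hm, hp⟩ := pairs F ξ T hS
  cases prs with
  | nil =>
    obtain ⟨t, ht⟩ := hne
    refine ⟨(t, true) :: l, t, ht, base_inv hT ht, ?_, ?_⟩
    · simp only [List.length_cons, List.length_nil] at *
      omega
    · intro s hs
      rw [List.mem_cons] at hs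
      rcases hs with rfl | hs
      · left; exact ht
      · right; exact hs
  | cons x rest =>
    obtain ⟨l', hI, hlen, hmem, _⟩ := zigzag hT hS hmono rest x hm hp
    refine ⟨l', x.1, (hm x (by simp)).1, hI, ?_, hmem⟩
    simp only [List.length_cons] at *
    omega

end

lemma good_flip {F : Fam ι} {l : List (ι × Bool)} : Good F.flip.p l ↔ Good F.p l := by
  have e1 : ∀ c, cseg F.flip.p c = segment ℝ (fl (enp F.p c.1)) (fl (stp F.p c.2)) :=
    fun c => rfl
  constructor
  · rintro ⟨h1, h2, h3⟩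
    refine ⟨h1, ?_, ?_⟩
    · intro c hc s hs n1 n2
      exact disjoint_segment_fl.mp (h2 c hc s hs n1 n2)
    · exact h3.imp (fun {c c'} h => disjoint_segment_fl.mp h)
  · rintro ⟨h1, h2, h3⟩
    refine ⟨h1, ?_, ?_⟩
    · intro c hc s hs n1 n2
      exact disjoint_segment_fl.mpr (h2 c hc s hs n1 n2)
    · exact h3.imp (fun {c c'} h => disjoint_segment_fl.mpr h)

lemma inv_flip {F : Fam ι} {l : List (ι × Bool)} {f : ι} : Inv F.flip l f ↔ Inv F l f := by
  constructor
  · rintro ⟨h1, h2, h3, h4, h5⟩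
    exact ⟨good_flip.mp h1, h2, h3, h4, h5⟩
  · rintro ⟨h1, h2, h3, h4, h5⟩
    exact ⟨good_flip.mpr h1, h2, h3, h4, h5⟩

section count
variable [DecidableEq ι]

lemma half {F : Fam ι} {ξ : ℝ} {P : ℕ} (hP : ∀ l, Good F.p l → l.length < P) {S : Finset ι}
    {l : List (ι × Bool)} (hT : TailOK F S l) (hne : S.Nonempty) (hS : ∀ i ∈ S, F.Stab ξ i) :
    ∃ l' f, f ∈ S ∧ Inv F l' f ∧ S.card + 576 * P * l.length ≤ 576 * P * l'.length ∧
      ∀ s ∈ l', s.1 ∈ S ∨ s ∈ l := by
  classical
  have hinj : Set.InjOn (fun i => F.L i ξ) S := by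
    intro i hi j hj hij
    by_contra hne
    exact h_ne (hS i hi) (hS j hj) hne hij
  have linj : Set.InjOn (fun i => (F.l i).1) S := by
    intro i hi j hj hij
    by_contra hne
    exact F.l_ne hne hij
  have hP0 : 0 < P := by
    have := hP [] ⟨by simp, by simp, by simp⟩
    exact this
  have hq : 0 < 24 * P := by omega
  obtain ⟨m, hm⟩ : ∃ m, m = (S.card - 1) / (24 * P) := ⟨_, rfl⟩
  have hpos : 0 < S.card := hne.card_pos
  have hmq : m * (24 * P) < S.card := by
    have := Nat.div_mul_le_self (S.card - 1) (24 * P)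
    rw [← hm] at this
    omega
  have hmq' : S.card ≤ (m + 1) * (24 * P) := by
    have h := Nat.div_add_mod (S.card - 1) (24 * P)
    have h2 := Nat.mod_lt (S.card - 1) hq
    rw [← hm] at h
    have h3 : S.card - 1 + 1 = S.card := by omega
    nlinarith
  rcases es (fun i => F.L i ξ) (fun i => (F.l i).1) (24 * P) m S hinj linj hmq with
    ⟨T, hTS, hTc, hTm⟩ | ⟨T, hTS, hTc, hTm⟩
  · have hTT : TailOK F T l := by
      rcases hT with h | ⟨z, h1, h2⟩
      · left; exact h
      · right; exact ⟨z, h1, fun k hk => h2 k (hTS hk)⟩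
    obtain ⟨l', f, hf, hI, hc, hmem⟩ := traverse (ξ := ξ) hTT (Finset.card_pos.mp (by omega))
      (fun i hi => hS i (hTS hi)) hTm
    refine ⟨l', f, hTS hf, hI, ?_, ?_⟩
    · have h1 : (m + 1) * (24 * P) ≤ T.card * (24 * P) := Nat.mul_le_mul_right _ hTc
      have h2 : (T.card + 24 * l.length) * (24 * P) ≤ (24 * l'.length) * (24 * P) :=
        Nat.mul_le_mul_right _ hc
      nlinarith
    · intro s hs
      rcases hmem s hs with h | h
      · left; exact hTS h
      · right; exact h
  · exfalso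
    obtain ⟨l', f, hf, hI, hc, hmem⟩ := traverse (F := F.flip) (ξ := ξ) (T := T) (l := [])
      (Or.inl rfl) (Finset.card_pos.mp (by omega)) (fun i hi => flip_stab.mpr (hS i (hTS hi)))
      (by
        intro i hi j hj hij
        rw [flip_L, flip_L] at hij
        exact hTm j hj i hi (by linarith))
    have := hP l' (good_flip.mp hI.good)
    simp only [List.length_nil] at hc
    omega

lemma group {F : Fam ι} {ξ : ℝ} {P : ℕ} (hP : ∀ l, Good F.p l → l.length < P) {S : Finset ι}
    {l : List (ι × Bool)}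
    (hT : l = [] ∨ ∃ z, Inv F l z ∧ ∀ k ∈ S, (F.r k).1 < (F.l z).1)
    (hne : S.Nonempty) (hS : ∀ i ∈ S, F.Stab ξ i) :
    ∃ l' f, f ∈ S ∧ Inv F l' f ∧ S.card + 1152 * P * l.length ≤ 1152 * P * l'.length ∧
      ∀ s ∈ l', s.1 ∈ S ∨ s ∈ l := by
  classical
  have hpos : 0 < S.card := hne.card_pos
  rcases hT with rfl | ⟨z, hI, hz⟩
  · obtain ⟨l', f, hf, hI, hc, hm⟩ := half hP (S := S) (l := []) (Or.inl rfl) hne hS
    refine ⟨l', f, hf, hI, ?_, hm⟩
    simp only [List.length_nil] at *
    nlinarith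
  · set S1 := S.filter (fun k => F.L k (F.l z).1 ≤ (F.l z).2) with hS1
    set S2 := S.filter (fun k => ¬ F.L k (F.l z).1 ≤ (F.l z).2) with hS2
    have hsum : S1.card + S2.card = S.card := by
      rw [hS1, hS2]
      exact Finset.card_filter_add_card_filter_not _
    by_cases hmaj : S.card ≤ 2 * S1.card
    · have sub : S1 ⊆ S := Finset.filter_subset _ _
      obtain ⟨l', f, hf, hI', hc, hm⟩ := half hP (S := S1) (l := l)
        (Or.inr ⟨z, hI, fun k hk => ⟨hz k (sub hk), by
          rw [hS1, Finset.mem_filter] at hk; exact hk.2⟩⟩)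
        (Finset.card_pos.mp (by omega)) (fun i hi => hS i (sub hi))
      refine ⟨l', f, sub hf, hI', ?_, ?_⟩
      · nlinarith
      · intro s hs
        rcases hm s hs with h | h
        · left; exact sub h
        · right; exact h
    · have sub : S2 ⊆ S := Finset.filter_subset _ _
      have hP' : ∀ l, Good F.flip.p l → l.length < P := fun l h => hP l (good_flip.mp h)
      obtain ⟨l', f, hf, hI', hc, hm⟩ := half (F := F.flip) (ξ := ξ) hP' (S := S2) (l := l)
        (Or.inr ⟨z, inv_flip.mpr hI, fun k hk => ⟨hz k (sub hk), by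
          rw [hS2, Finset.mem_filter] at hk
          have h2 := hk.2
          push Not at h2
          rw [flip_L, flip_l, fl_fst, fl_snd]
          linarith⟩⟩)
        (Finset.card_pos.mp (by omega)) (fun i hi => flip_stab.mpr (hS i (sub hi)))
      refine ⟨l', f, sub hf, inv_flip.mp hI', ?_, ?_⟩
      · nlinarith
      · intro s hs
        rcases hm s hs with h | h
        · left; exact sub h
        · right; exact h

lemma level {F : Fam ι} {P : ℕ} (hP : ∀ l, Good F.p l → l.length < P) (ξ : ι → ℝ) :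
    ∀ (N : ℕ) (X : Finset ι), X.card ≤ N → X.Nonempty → (∀ i ∈ X, F.Stab (ξ i) i) →
      (∀ i ∈ X, ∀ j ∈ X, ξ i = ξ j ∨ (F.r i).1 < (F.l j).1 ∨ (F.r j).1 < (F.l i).1) →
      ∃ l f, f ∈ X ∧ Inv F l f ∧ X.card ≤ 1152 * P * l.length ∧ ∀ s ∈ l, s.1 ∈ X := by
  classical
  intro N
  induction N with
  | zero =>
    intro X hX hne
    have := hne.card_pos
    omega
  | succ N ih =>
    intro X hX hne hst hsep
    obtain ⟨i0, hi0, hmin⟩ := Finset.exists_min_image X ξ hne
    set G := X.filter (fun i => ξ i = ξ i0) with hG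
    set X' := X.filter (fun i => ¬ ξ i = ξ i0) with hX'
    have hsum : G.card + X'.card = X.card := by
      rw [hG, hX']
      exact Finset.card_filter_add_card_filter_not _
    have hGX : G ⊆ X := Finset.filter_subset _ _
    have hX'X : X' ⊆ X := Finset.filter_subset _ _
    have hGne : G.Nonempty := ⟨i0, by rw [hG, Finset.mem_filter]; exact ⟨hi0, rfl⟩⟩
    have hGpos := hGne.card_pos
    have hGst : ∀ i ∈ G, F.Stab (ξ i0) i := by
      intro i hi
      have h1 := hst i (hGX hi)
      rw [hG, Finset.mem_filter] at hi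
      rw [← hi.2]; exact h1
    rcases X'.eq_empty_or_nonempty with he | hne'
    · obtain ⟨l, f, hf, hI, hc, hm⟩ := group hP (S := G) (l := []) (Or.inl rfl) hGne hGst
      refine ⟨l, f, hGX hf, hI, ?_, ?_⟩
      · rw [he] at hsum
        simp only [Finset.card_empty, List.length_nil] at *
        omega
      · intro s hs
        rcases hm s hs with h | h
        · exact hGX h
        · exact absurd h (by simp)
    · obtain ⟨l, z, hz, hI, hc, hm⟩ := ih X' (by omega) hne' (fun i hi => hst i (hX'X hi))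
        (fun i hi j hj => hsep i (hX'X hi) j (hX'X hj))
      have hsepG : ∀ k ∈ G, (F.r k).1 < (F.l z).1 := by
        intro k hk
        have hk' := hk
        rw [hG, Finset.mem_filter] at hk'
        have hz' := hz
        rw [hX', Finset.mem_filter] at hz'
        have hlt : ξ k < ξ z := by
          rw [hk'.2]
          exact lt_of_le_of_ne (hmin z hz'.1) (Ne.symm hz'.2)
        rcases hsep k hk'.1 z hz'.1 with h | h | h
        · exact absurd h hlt.ne
        · exact h
        · exfalso
          have h1 := (hst k hk'.1).1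
          have h2 := (hst z hz'.1).2
          linarith
      obtain ⟨l', f, hf, hI', hc', hm'⟩ := group hP (S := G) (l := l) (Or.inr ⟨z, hI, hsepG⟩)
        hGne hGst
      refine ⟨l', f, hGX hf, hI', by omega, ?_⟩
      intro s hs
      rcases hm' s hs with h | h
      · exact hGX h
      · exact hX'X (hm s h)

lemma level_card {F : Fam ι} {P : ℕ} (hP : ∀ l, Good F.p l → l.length < P) (ξ : ι → ℝ)
    (X : Finset ι) (hst : ∀ i ∈ X, F.Stab (ξ i) i)
    (hsep : ∀ i ∈ X, ∀ j ∈ X, ξ i = ξ j ∨ (F.r i).1 < (F.l j).1 ∨ (F.r j).1 < (F.l i).1) :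
    X.card ≤ 1152 * P * P := by
  rcases X.eq_empty_or_nonempty with rfl | hne
  · simp
  · obtain ⟨l, f, _, hI, hc, _⟩ := level hP ξ X.card X le_rfl hne hst hsep
    have := hP l hI.good
    exact hc.trans (Nat.mul_le_mul_left _ this.le)

lemma pivot (a : ι → ℝ) (S : Finset ι) (K : ℕ) (hK : 0 < K) (hne : S.Nonempty)
    (hc : S.card < 2 * K) :
    ∃ j ∈ S, (S.filter (fun i => a i < a j)).card < K ∧
      (S.filter (fun i => a j < a i)).card < K := by
  classical
  set C := S.filter (fun j => (S.filter (fun i => a i < a j)).card < K) with hC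
  have hCne : C.Nonempty := by
    obtain ⟨j, hj, hmin⟩ := Finset.exists_min_image S a hne
    refine ⟨j, ?_⟩
    rw [hC, Finset.mem_filter]
    refine ⟨hj, ?_⟩
    have : S.filter (fun i => a i < a j) = ∅ := by
      rw [Finset.filter_eq_empty_iff]
      intro i hi
      exact not_lt.mpr (hmin i hi)
    rw [this]; simpa using hK
  obtain ⟨j, hj, hmax⟩ := Finset.exists_max_image C a hCne
  rw [hC, Finset.mem_filter] at hj
  refine ⟨j, hj.1, hj.2, ?_⟩
  by_contra hcon
  push Not at hcon
  have hne2 : (S.filter (fun i => a j < a i)).Nonempty := Finset.card_pos.mp (by omega)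
  obtain ⟨j1, hj1, hmin1⟩ := Finset.exists_min_image _ a hne2
  rw [Finset.mem_filter] at hj1
  have hj1C : j1 ∉ C := fun h => absurd (hmax j1 h) (not_le.mpr hj1.2)
  have h3 : K ≤ (S.filter (fun i => a i < a j1)).card := by
    by_contra h
    push Not at h
    exact hj1C (by rw [hC, Finset.mem_filter]; exact ⟨hj1.1, h⟩)
  have h4 : Disjoint (S.filter (fun i => a i < a j1)) (S.filter (fun i => a j < a i)) := by
    rw [Finset.disjoint_left]
    intro i hi hi'
    have h5 := hmin1 i hi'
    rw [Finset.mem_filter] at hi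
    exact absurd hi.2 (not_lt.mpr h5)
  have h5 := Finset.card_union_of_disjoint h4
  have h6 : (S.filter (fun i => a i < a j1)) ∪ (S.filter (fun i => a j < a i)) ⊆ S :=
    Finset.union_subset (Finset.filter_subset _ _) (Finset.filter_subset _ _)
  have h7 := Finset.card_le_card h6
  omega

lemma slabs (F : Fam ι) : ∀ (k : ℕ) (S : Finset ι), S.card < 2 ^ k →
    ∃ (lev : ι → ℕ) (ξ : ι → ℝ), (∀ i ∈ S, lev i < k ∧ F.Stab (ξ i) i) ∧
      ∀ i ∈ S, ∀ j ∈ S, lev i = lev j →
        ξ i = ξ j ∨ (F.r i).1 < (F.l j).1 ∨ (F.r j).1 < (F.l i).1 := by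
  classical
  intro k
  induction k with
  | zero =>
    intro S hS
    have : S = ∅ := Finset.card_eq_zero.mp (by simpa using hS)
    subst this
    exact ⟨fun _ => 0, fun _ => 0, by simp, by simp⟩
  | succ k ih =>
    intro S hS
    rcases S.eq_empty_or_nonempty with rfl | hne
    · exact ⟨fun _ => 0, fun _ => 0, by simp, by simp⟩
    obtain ⟨j0, hj0, hp1, hp2⟩ := pivot (fun i => (F.r i).1) S (2 ^ k) (by positivity) hne
      (by rw [pow_succ] at hS; omega)
    obtain ⟨ξ0, hξ0⟩ : ∃ ξ0, ξ0 = (F.r j0).1 := ⟨_, rfl⟩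
    obtain ⟨lev1, ξ1, h1, h1'⟩ := ih (S.filter (fun i => (F.r i).1 < (F.r j0).1)) hp1
    obtain ⟨lev2, ξ2, h2, h2'⟩ := ih (S.filter (fun i => ξ0 < (F.l i).1)) (by
      refine lt_of_le_of_lt (Finset.card_le_card ?_) hp2
      intro i hi
      rw [Finset.mem_filter] at *
      exact ⟨hi.1, by have := F.lr' i; have := hi.2; linarith⟩)
    rw [← hξ0] at h1 h1'
    refine ⟨fun i => if (F.r i).1 < ξ0 then lev1 i else if ξ0 < (F.l i).1 then lev2 i else k,
      fun i => if (F.r i).1 < ξ0 then ξ1 i else if ξ0 < (F.l i).1 then ξ2 i else ξ0, ?_, ?_⟩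
    · intro i hi
      by_cases c1 : (F.r i).1 < ξ0
      · simp only [c1, if_true]
        have := h1 i (by rw [Finset.mem_filter]; exact ⟨hi, c1⟩)
        exact ⟨by omega, this.2⟩
      · by_cases c2 : ξ0 < (F.l i).1
        · simp only [c1, c2, if_true, if_false]
          have := h2 i (by rw [Finset.mem_filter]; exact ⟨hi, c2⟩)
          exact ⟨by omega, this.2⟩
        · simp only [c1, c2, if_false]
          exact ⟨by omega, not_lt.mp c2, not_lt.mp c1⟩
    · intro i hi j hj hij
      by_cases c1 : (F.r i).1 < ξ0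
      · have m1 := h1 i (by rw [Finset.mem_filter]; exact ⟨hi, c1⟩)
        by_cases d1 : (F.r j).1 < ξ0
        · simp only [c1, d1, if_true] at hij ⊢
          exact h1' i (by rw [Finset.mem_filter]; exact ⟨hi, c1⟩) j
            (by rw [Finset.mem_filter]; exact ⟨hj, d1⟩) hij
        · by_cases d2 : ξ0 < (F.l j).1
          · right; left; linarith
          · simp only [c1, d1, d2, if_true, if_false] at hij
            omega
      · by_cases c2 : ξ0 < (F.l i).1
        · have m2 := h2 i (by rw [Finset.mem_filter]; exact ⟨hi, c2⟩)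
          by_cases d1 : (F.r j).1 < ξ0
          · right; right; linarith
          · by_cases d2 : ξ0 < (F.l j).1
            · simp only [c1, c2, d1, d2, if_true, if_false] at hij ⊢
              exact h2' i (by rw [Finset.mem_filter]; exact ⟨hi, c2⟩) j
                (by rw [Finset.mem_filter]; exact ⟨hj, d2⟩) hij
            · simp only [c1, c2, d1, d2, if_true, if_false] at hij
              omega
        · by_cases d1 : (F.r j).1 < ξ0
          · have m1 := h1 j (by rw [Finset.mem_filter]; exact ⟨hj, d1⟩)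
            simp only [c1, c2, d1, if_true, if_false] at hij
            omega
          · by_cases d2 : ξ0 < (F.l j).1
            · have m2 := h2 j (by rw [Finset.mem_filter]; exact ⟨hj, d2⟩)
              simp only [c1, c2, d1, d2, if_true, if_false] at hij
              omega
            · left
              simp only [c1, c2, d1, d2, if_false]

theorem main_fam [Fintype ι] (F : Fam ι) (P k : ℕ) (hP : ∀ l, Good F.p l → l.length < P)
    (hk : Fintype.card ι < 2 ^ k) : Fintype.card ι ≤ k * (1152 * P * P) := by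
  classical
  obtain ⟨lev, ξ, h1, h2⟩ := slabs F k Finset.univ (by simpa using hk)
  have h3 : (Finset.univ : Finset ι).card =
      ∑ b ∈ Finset.range k, ((Finset.univ : Finset ι).filter (fun i => lev i = b)).card :=
    Finset.card_eq_sum_card_fiberwise (fun i _ => by
      simpa using (h1 i (Finset.mem_univ i)).1)
  have h4 : ∀ b ∈ Finset.range k,
      ((Finset.univ : Finset ι).filter (fun i => lev i = b)).card ≤ 1152 * P * P := by
    intro b _
    apply level_card hP ξ
    · intro i _
      exact (h1 i (Finset.mem_univ i)).2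
    · intro i hi j hj
      rw [Finset.mem_filter] at hi hj
      exact h2 i (Finset.mem_univ i) j (Finset.mem_univ j) (hi.2.trans hj.2.symm)
  have h5 := Finset.sum_le_card_nsmul _ _ _ h4
  rw [← h3, Finset.card_univ, Finset.card_range, smul_eq_mul] at h5
  exact h5

end count

end Pool.Agent.Helper650.AP
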