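import Mathlib

namespace Pool.Agent.Helper650.AltPath

/-- A collection of `n` segments is given by the endpoints `p i false` and `p i true` of its
`i`-th segment. This is the closed segment number `i`. -/
def seg {n : ℕ} (p : Fin n → Bool → ℝ × ℝ) (i : Fin n) : Set (ℝ × ℝ) :=
  segment ℝ (p i false) (p i true)

/-- The `n` segments are pairwise disjoint and in general position: no two are parallel, all
endpoints are distinct, no three endpoints are on a line. -/
structure DisjointGenPos {n : ℕ} (p : Fin n → Bool → ℝ × ℝ) : Prop where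
  disjoint : ∀ i j, i ≠ j → Disjoint (seg p i) (seg p j)
  not_parallel : ∀ i j, i ≠ j →
    ((p i true).1 - (p i false).1) * ((p j true).2 - (p j false).2) ≠
      ((p i true).2 - (p i false).2) * ((p j true).1 - (p j false).1)
  distinct : ∀ u v : Fin n × Bool, p u.1 u.2 = p v.1 v.2 → u = v
  not_collinear : ∀ u v w : Fin n × Bool, u ≠ v → u ≠ w → v ≠ w →
    ¬ Collinear ℝ {p u.1 u.2, p v.1 v.2, p w.1 w.2}

/-- `v 0, v 1, …, v (2 * ℓ - 1)` are the vertices of a simple noncrossing polygonal path whose
edges `v (2 * k) v (2 * k + 1)`, `k < ℓ` (every other edge, beginning with the first and ending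
with the last) are members of the collection. Its length (the number of members of the collection
it uses) is `ℓ`. -/
structure IsAltPath {n : ℕ} (p : Fin n → Bool → ℝ × ℝ) (ℓ : ℕ) (v : ℕ → ℝ × ℝ) : Prop where
  simple : ∀ j k, j < 2 * ℓ → k < 2 * ℓ → v j = v k → j = k
  noncrossing : ∀ j k, j + 1 < 2 * ℓ → k + 1 < 2 * ℓ → j ≠ k →
    ∀ x, x ∈ segment ℝ (v j) (v (j + 1)) → x ∈ segment ℝ (v k) (v (k + 1)) →
      x ∉ openSegment ℝ (v j) (v (j + 1)) ∧ x ∉ openSegment ℝ (v k) (v (k + 1))
  alternating : ∀ k, k < ℓ → ∃ i, segment ℝ (v (2 * k)) (v (2 * k + 1)) = seg p i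

/-- `f n` is the largest `ℓ` such that every collection of `n` pairwise disjoint segments in
general position admits a simple noncrossing alternating path of length at least `ℓ`. -/
noncomputable def f (n : ℕ) : ℕ :=
  sSup {ℓ | ∀ p : Fin n → Bool → ℝ × ℝ, DisjointGenPos p → ∃ ℓ' v, ℓ ≤ ℓ' ∧ IsAltPath p ℓ' v}

end Pool.Agent.Helper650.AltPath
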