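import Mathlib
import Pool.Agent.Helper650.APDefs
import Pool.Agent.Helper650.AP4

namespace Pool.Agent.Helper650.AP

open Set Pool.Agent.Helper650.AltPath

/-! ### crossing of adjacent edges -/

lemma coll_mem {A B C : ℝ × ℝ} (h : ¬ Collinear ℝ {A, B, C}) :
    ∀ x, x ∈ segment ℝ A B → x ∈ segment ℝ B C →
      x ∉ openSegment ℝ A B ∧ x ∉ openSegment ℝ B C := by
  intro x hx hx'
  have hAB : A ≠ B := by
    rintro rfl
    apply h
    have : ({A, A, C} : Set (ℝ × ℝ)) = {A, C} := by simp
    rw [this]; exact collinear_pair ℝ A C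
  have hBC : B ≠ C := by
    rintro rfl
    apply h
    have : ({A, B, B} : Set (ℝ × ℝ)) = {A, B} := by simp
    rw [this]; exact collinear_pair ℝ A B
  have hxB : x = B := by
    by_contra hne
    apply h
    rw [segment_symm, segment_eq_image_lineMap] at hx
    rw [segment_eq_image_lineMap] at hx'
    obtain ⟨s, hs, hs'⟩ := hx
    obtain ⟨t, ht, ht'⟩ := hx'
    have ht0 : t ≠ 0 := by
      rintro rfl
      apply hne
      rw [← ht']; simp
    have e : s • (A - B) = t • (C - B) := by
      have h1 : x = s • (A - B) + B := by rw [← hs', AffineMap.lineMap_apply]; simp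
      have h2 : x = t • (C - B) + B := by rw [← ht', AffineMap.lineMap_apply]; simp
      exact add_right_cancel (h1.symm.trans h2)
    rw [collinear_iff_of_mem (p₀ := B) (by simp)]
    refine ⟨A - B, ?_⟩
    intro q hq
    simp only [Set.mem_insert_iff, Set.mem_singleton_iff] at hq
    rcases hq with rfl | rfl | rfl
    · exact ⟨1, by simp⟩
    · exact ⟨0, by simp⟩
    · refine ⟨t⁻¹ * s, ?_⟩
      rw [mul_smul, e, smul_smul, inv_mul_cancel₀ ht0]
      simp
  rw [hxB]
  constructor
  · rw [right_mem_openSegment_iff]; exact hAB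
  · rw [left_mem_openSegment_iff]; exact hBC

lemma disj_nc {A B C D : ℝ × ℝ} (h : Disjoint (segment ℝ A B) (segment ℝ C D)) :
    ∀ x, x ∈ segment ℝ A B → x ∈ segment ℝ C D →
      x ∉ openSegment ℝ A B ∧ x ∉ openSegment ℝ C D := by
  intro x hx hx'
  exact absurd hx' (Set.disjoint_left.mp h hx)

/-! ### from good lists to paths -/

/-- vertices of the path -/
def vert {ι : Type*} (q : ι → Bool → ℝ × ℝ) (a : ℕ → ι × Bool) (k : ℕ) : ℝ × ℝ :=
  if k % 2 = 0 then stp q (a (k / 2)) else enp q (a (k / 2))

lemma vert_even {ι : Type*} (q : ι → Bool → ℝ × ℝ) (a : ℕ → ι × Bool) (k : ℕ) :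
    vert q a (2 * k) = stp q (a k) := by
  unfold vert
  rw [if_pos (by omega), show 2 * k / 2 = k by omega]

lemma vert_odd {ι : Type*} (q : ι → Bool → ℝ × ℝ) (a : ℕ → ι × Bool) (k : ℕ) :
    vert q a (2 * k + 1) = enp q (a k) := by
  unfold vert
  rw [if_neg (by omega), show (2 * k + 1) / 2 = k by omega]

lemma seg_st_en {ι : Type*} (q : ι → Bool → ℝ × ℝ) (s : ι × Bool) :
    segment ℝ (stp q s) (enp q s) = segment ℝ (q s.1 false) (q s.1 true) := by
  unfold stp enp
  rcases s with ⟨i, b⟩
  cases b
  · simp only [Bool.not_false]; exact segment_symm ℝ _ _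
  · simp only [Bool.not_true]

lemma conns_getElem {α : Type*} (l : List α) (k : ℕ) (hk : k + 1 < l.length) :
    ∃ h : k < (conns l).length, (conns l)[k] = (l[k], l[k + 1]) := by
  unfold conns
  have h : k < (l.zip l.tail).length := by
    rw [List.length_zip, List.length_tail]
    omega
  refine ⟨h, ?_⟩
  rw [List.getElem_zip, List.getElem_tail]

lemma isAltPath_of_good {n : ℕ} {p : Fin n → Bool → ℝ × ℝ} (hp : DisjointGenPos p)
    (σ : Fin n → Bool) {l : List (Fin n × Bool)}
    (hl : Good (fun i b => p i (xor b (σ i))) l) : ∃ v, IsAltPath p l.length v := by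
  rcases l.eq_nil_or_concat with rfl | ⟨_, d, _⟩
  · exact ⟨fun _ => 0, by simp, by simp, by simp⟩
  obtain ⟨q, hq⟩ : ∃ q : Fin n → Bool → ℝ × ℝ, q = fun i b => p i (xor b (σ i)) := ⟨_, rfl⟩
  rw [← hq] at hl
  obtain ⟨a, ha⟩ : ∃ a : ℕ → Fin n × Bool, a = fun k => l.getD k d := ⟨_, rfl⟩
  have hak : ∀ k (hk : k < l.length), a k = l[k] := by
    intro k hk
    rw [ha]
    simp only
    rw [List.getD_eq_getElem _ _ hk]
  have hamem : ∀ k, k < l.length → a k ∈ l := by
    intro k hk
    rw [hak k hk]
    exact List.getElem_mem hk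
  have hinj : ∀ j k, j < l.length → k < l.length → (a j).1 = (a k).1 → j = k := by
    intro j k hj hk h
    have hn := hl.nodup
    rw [hak j hj, hak k hk] at h
    have h1 : (l.map Prod.fst)[j]'(by simpa using hj) = (l.map Prod.fst)[k]'(by simpa using hk) := by
      rw [List.getElem_map, List.getElem_map]; exact h
    exact (List.Nodup.getElem_inj_iff hn).mp h1
  have hconn : ∀ k, k + 1 < l.length → (a k, a (k + 1)) ∈ conns l := by
    intro k hk
    obtain ⟨h, e⟩ := conns_getElem l k hk
    rw [hak k (by omega), hak (k + 1) hk, ← e]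
    exact List.getElem_mem h
  have hcc : ∀ j k, j < k → k + 1 < l.length →
      Disjoint (cseg q (a j, a (j + 1))) (cseg q (a k, a (k + 1))) := by
    intro j k hjk hk
    obtain ⟨h1, e1⟩ := conns_getElem l j (by omega)
    obtain ⟨h2, e2⟩ := conns_getElem l k hk
    have := List.pairwise_iff_getElem.mp hl.cc j k h1 h2 hjk
    rw [e1, e2] at this
    rw [hak j (by omega), hak (j + 1) (by omega), hak k (by omega), hak (k + 1) hk]
    exact this
  -- labels of vertices
  have hqp : ∀ i b, q i b = p i (xor b (σ i)) := fun i b => by rw [hq]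
  have hqinj : ∀ i j b c, q i b = q j c → i = j ∧ b = c := by
    intro i j b c h
    rw [hqp, hqp] at h
    have := hp.distinct (i, xor b (σ i)) (j, xor c (σ j)) h
    rw [Prod.mk.injEq] at this
    obtain ⟨h1, h2⟩ := this
    subst h1
    exact ⟨rfl, by simpa using h2⟩
  have hqcol : ∀ i j k b c e, (i, b) ≠ (j, c) → (i, b) ≠ (k, e) → (j, c) ≠ (k, e) →
      ¬ Collinear ℝ {q i b, q j c, q k e} := by
    intro i j k b c e h1 h2 h3
    rw [hqp, hqp, hqp]
    have key : ∀ (i j : Fin n) (b c : Bool), (i, b) ≠ (j, c) →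
        (i, xor b (σ i)) ≠ (j, xor c (σ j)) := by
      intro i j b c h h'
      apply h
      rw [Prod.mk.injEq] at h' ⊢
      obtain ⟨h1, h2⟩ := h'
      subst h1
      exact ⟨rfl, by simpa using h2⟩
    have k1 := key _ _ _ _ h1
    have k2 := key _ _ _ _ h2
    have k3 := key _ _ _ _ h3
    exact hp.not_collinear (i, xor b (σ i)) (j, xor c (σ j)) (k, xor e (σ k)) k1 k2 k3
  have hqseg : ∀ i, segment ℝ (q i false) (q i true) = seg p i := by
    intro i
    rw [hqp, hqp]
    unfold seg
    cases σ i
    · rfl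
    · simp only [Bool.false_bne, Bool.true_bne, Bool.not_true]
      exact segment_symm ℝ _ _
  have hqdisj : ∀ i j, i ≠ j → Disjoint (segment ℝ (q i false) (q i true))
      (segment ℝ (q j false) (q j true)) := by
    intro i j h
    rw [hqseg, hqseg]
    exact hp.disjoint i j h
  have adj_se : ∀ k, k + 1 < l.length →
      ¬ Collinear ℝ {stp q (a k), enp q (a k), stp q (a (k + 1))} := by
    intro k hk
    have hne : (a k).1 ≠ (a (k + 1)).1 := fun h => by
      have := hinj k (k + 1) (by omega) hk h; omega
    apply hqcol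
    · intro h
      rw [Prod.mk.injEq] at h
      have := h.2
      cases (a k).2 <;> simp at this
    · intro h
      rw [Prod.mk.injEq] at h
      exact hne h.1
    · intro h
      rw [Prod.mk.injEq] at h
      exact hne h.1
  have adj_es : ∀ k, k + 1 < l.length →
      ¬ Collinear ℝ {enp q (a k), stp q (a (k + 1)), enp q (a (k + 1))} := by
    intro k hk
    have hne : (a k).1 ≠ (a (k + 1)).1 := fun h => by
      have := hinj k (k + 1) (by omega) hk h; omega
    apply hqcol
    · intro h
      rw [Prod.mk.injEq] at h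
      exact hne h.1
    · intro h
      rw [Prod.mk.injEq] at h
      exact hne h.1
    · intro h
      rw [Prod.mk.injEq] at h
      have := h.2
      cases (a (k + 1)).2 <;> simp at this
  refine ⟨vert q a, ?_, ?_, ?_⟩
  · -- simple
    intro j k hj hk h
    have hj2 : j / 2 < l.length := by omega
    have hk2 : k / 2 < l.length := by omega
    unfold vert at h
    unfold stp enp at h
    by_cases ej : j % 2 = 0 <;> by_cases ek : k % 2 = 0
    · rw [if_pos ej, if_pos ek] at h
      obtain ⟨h1, _⟩ := hqinj _ _ _ _ h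
      have := hinj _ _ hj2 hk2 h1
      omega
    · rw [if_pos ej, if_neg ek] at h
      obtain ⟨h1, h2⟩ := hqinj _ _ _ _ h
      have := hinj _ _ hj2 hk2 h1
      rw [this] at h2
      cases h3 : (a (k / 2)).2 <;> rw [h3] at h2 <;> simp at h2
    · rw [if_neg ej, if_pos ek] at h
      obtain ⟨h1, h2⟩ := hqinj _ _ _ _ h
      have := hinj _ _ hj2 hk2 h1
      rw [this] at h2
      cases h3 : (a (k / 2)).2 <;> rw [h3] at h2 <;> simp at h2
    · rw [if_neg ej, if_neg ek] at h
      obtain ⟨h1, _⟩ := hqinj _ _ _ _ h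
      have := hinj _ _ hj2 hk2 h1
      omega
  · -- noncrossing
    have key : ∀ j k, j < k → k + 1 < 2 * l.length →
        ∀ x, x ∈ segment ℝ (vert q a j) (vert q a (j + 1)) →
          x ∈ segment ℝ (vert q a k) (vert q a (k + 1)) →
          x ∉ openSegment ℝ (vert q a j) (vert q a (j + 1)) ∧
            x ∉ openSegment ℝ (vert q a k) (vert q a (k + 1)) := by
      intro j k hjk hk
      obtain ⟨j', hj'⟩ := Nat.even_or_odd' j
      obtain ⟨k', hk'⟩ := Nat.even_or_odd' k
      rcases hj' with rfl | rfl <;> rcases hk' with rfl | rfl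
      · rw [vert_even, vert_odd, vert_even, vert_odd]
        apply disj_nc
        rw [seg_st_en, seg_st_en]
        apply hqdisj
        intro h
        have := hinj j' k' (by omega) (by omega) h
        omega
      · rw [vert_even, vert_odd, show 2 * k' + 1 + 1 = 2 * (k' + 1) by ring, vert_odd, vert_even]
        by_cases e : j' = k'
        · subst e
          exact coll_mem (adj_se j' (by omega))
        · apply disj_nc
          rw [seg_st_en]
          refine (hl.cs _ (hconn k' (by omega)) (a j') (hamem _ (by omega)) ?_ ?_).symm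
          · intro h
            have := hinj j' k' (by omega) (by omega) h
            omega
          · intro h
            have := hinj j' (k' + 1) (by omega) (by omega) h
            omega
      · rw [vert_odd, show 2 * j' + 1 + 1 = 2 * (j' + 1) by ring, vert_even, vert_even, vert_odd]
        by_cases e : k' = j' + 1
        · subst e
          exact coll_mem (adj_es j' (by omega))
        · apply disj_nc
          rw [seg_st_en]
          refine hl.cs _ (hconn j' (by omega)) (a k') (hamem _ (by omega)) ?_ ?_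
          · intro h
            have := hinj k' j' (by omega) (by omega) h
            omega
          · intro h
            have := hinj k' (j' + 1) (by omega) (by omega) h
            omega
      · rw [vert_odd, show 2 * j' + 1 + 1 = 2 * (j' + 1) by ring, vert_even, vert_odd,
          show 2 * k' + 1 + 1 = 2 * (k' + 1) by ring, vert_even]
        apply disj_nc
        exact hcc j' k' (by omega) (by omega)
    intro j k hj hk hjk x hx hx'
    rcases lt_or_gt_of_ne hjk with h | h
    · exact key j k h hk x hx hx'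
    · exact (key k j h hj x hx' hx).symm
  · intro k hk
    rw [vert_even, vert_odd, seg_st_en, hqseg]
    exact ⟨_, rfl⟩

/-! ### the shear -/

/-- shear -/
def sh (ε : ℝ) (P : ℝ × ℝ) : ℝ × ℝ := (P.1 + ε * P.2, P.2)

lemma sh_injective (ε : ℝ) : Function.Injective (sh ε) := by
  intro P Q h
  unfold sh at h
  rw [Prod.mk.injEq] at h
  obtain ⟨h1, h2⟩ := h
  rw [h2] at h1
  exact Prod.ext (by linarith) h2

lemma segment_sh (ε : ℝ) (P Q : ℝ × ℝ) : segment ℝ (sh ε P) (sh ε Q) = sh ε '' segment ℝ P Q := by
  have := image_segment ℝ ((LinearMap.fst ℝ ℝ ℝ + ε • LinearMap.snd ℝ ℝ ℝ).prod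
    (LinearMap.snd ℝ ℝ ℝ)).toAffineMap P Q
  have e : (⇑((LinearMap.fst ℝ ℝ ℝ + ε • LinearMap.snd ℝ ℝ ℝ).prod
    (LinearMap.snd ℝ ℝ ℝ)).toAffineMap) = sh ε := by
    funext P
    simp [sh]
  rw [e] at this
  exact this.symm

lemma disjoint_sh {ε : ℝ} {P Q P' Q' : ℝ × ℝ} :
    Disjoint (segment ℝ (sh ε P) (sh ε Q)) (segment ℝ (sh ε P') (sh ε Q')) ↔
      Disjoint (segment ℝ P Q) (segment ℝ P' Q') := by
  rw [segment_sh, segment_sh, Set.disjoint_image_iff (sh_injective ε)]

lemma good_sh {ι : Type*} {ε : ℝ} {q : ι → Bool → ℝ × ℝ} {l : List (ι × Bool)}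
    (h : Good (fun i b => sh ε (q i b)) l) : Good q l := by
  obtain ⟨h1, h2, h3⟩ := h
  refine ⟨h1, ?_, ?_⟩
  · intro c hc s hs n1 n2
    exact disjoint_sh.mp (h2 c hc s hs n1 n2)
  · exact h3.imp (fun {c c'} h => disjoint_sh.mp h)

lemma exists_shear {α : Type*} [Finite α] (P : α → ℝ × ℝ) (hP : Function.Injective P) :
    ∃ ε : ℝ, ∀ u v, (sh ε (P u)).1 = (sh ε (P v)).1 → u = v := by
  classical
  have hfin : (⋃ u : α, ⋃ v : α, {ε : ℝ | u ≠ v ∧ (sh ε (P u)).1 = (sh ε (P v)).1}).Finite := by
    apply Set.finite_iUnion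
    intro u
    apply Set.finite_iUnion
    intro v
    by_cases huv : u = v
    · have : {ε : ℝ | u ≠ v ∧ (sh ε (P u)).1 = (sh ε (P v)).1} = ∅ := by
        ext ε; simp [huv]
      rw [this]; exact Set.finite_empty
    · apply Set.Subsingleton.finite
      intro ε hε ε' hε'
      obtain ⟨_, h1⟩ := hε
      obtain ⟨_, h2⟩ := hε'
      unfold sh at h1 h2
      simp only at h1 h2
      by_contra hne
      apply huv
      apply hP
      have h3 : (ε - ε') * ((P u).2 - (P v).2) = 0 := by linarith
      have h4 : (P u).2 - (P v).2 = 0 := by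
        rcases mul_eq_zero.mp h3 with h | h
        · exact absurd (sub_eq_zero.mp h) hne
        · exact h
      have h5 : (P u).2 = (P v).2 := by linarith
      rw [h5] at h1
      exact Prod.ext (by linarith) h5
  obtain ⟨ε, hε⟩ := hfin.exists_notMem
  refine ⟨ε, fun u v h => ?_⟩
  by_contra huv
  apply hε
  rw [Set.mem_iUnion]
  refine ⟨u, ?_⟩
  rw [Set.mem_iUnion]
  exact ⟨v, huv, h⟩

/-- the core statement for general collections -/
theorem main_genpos {n : ℕ} {p : Fin n → Bool → ℝ × ℝ} (hp : DisjointGenPos p) (P k : ℕ)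
    (hP : ∀ ℓ v, IsAltPath p ℓ v → ℓ < P) (hk : n < 2 ^ k) : n ≤ k * (1152 * P * P) := by
  classical
  obtain ⟨ε, hε⟩ := exists_shear (fun u : Fin n × Bool => p u.1 u.2)
    (fun u v h => hp.distinct u v h)
  have hx : ∀ i b c, b ≠ c → (sh ε (p i b)).1 ≠ (sh ε (p i c)).1 := by
    intro i b c hbc h
    have := hε (i, b) (i, c) h
    rw [Prod.mk.injEq] at this
    exact hbc this.2
  let σ : Fin n → Bool := fun i => decide ((sh ε (p i true)).1 < (sh ε (p i false)).1)
  have hlr : ∀ i, (sh ε (p i (xor false (σ i)))).1 < (sh ε (p i (xor true (σ i)))).1 := by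
    intro i
    by_cases h : (sh ε (p i true)).1 < (sh ε (p i false)).1
    · have : σ i = true := decide_eq_true h
      rw [this]; exact h
    · have : σ i = false := decide_eq_false h
      rw [this]
      exact lt_of_le_of_ne (not_lt.mp h) (hx i false true (by decide))
  let F : Fam (Fin n) :=
    { p := fun i b => sh ε (p i (xor b (σ i)))
      lr := hlr
      xinj := by
        intro i j a b h
        have := hε (i, xor a (σ i)) (j, xor b (σ j)) h
        rw [Prod.mk.injEq] at this
        obtain ⟨h1, h2⟩ := this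
        subst h1
        exact ⟨rfl, by simpa using h2⟩
      disj := by
        intro i j h
        have hd := hp.disjoint i j h
        have hs : ∀ i, segment ℝ (p i (xor false (σ i))) (p i (xor true (σ i))) = seg p i := by
          intro i
          unfold seg
          cases σ i
          · rfl
          · exact segment_symm ℝ _ _
        rw [← hs i, ← hs j] at hd
        exact disjoint_sh.mpr hd }
  have hF : ∀ l, Good F.p l → l.length < P := by
    intro l hl
    have h1 : Good (fun i b => p i (xor b (σ i))) l := good_sh (ε := ε) hl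
    obtain ⟨v, hv⟩ := isAltPath_of_good hp σ h1
    exact hP _ v hv
  have := main_fam F P k hF (by simpa using hk)
  simpa using this

end Pool.Agent.Helper650.AP
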