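import Mathlib
import Pool.Agent.Helper650.APDefs
import Pool.Agent.Helper650.AP5

namespace Pool.Agent.Helper650.AP

open Set Pool.Agent.Helper650.AltPath

/-- chords of a parabola -/
def par (t : ℝ) : ℝ × ℝ := (t, t ^ 2)

lemma par_coll {a b c : ℝ} (hab : a ≠ b) (hac : a ≠ c) (hbc : b ≠ c) :
    ¬ Collinear ℝ {par a, par b, par c} := by
  intro h
  rw [collinear_iff_of_mem (p₀ := par a) (by simp)] at h
  obtain ⟨w, hw⟩ := h
  obtain ⟨r, hr⟩ := hw (par b) (by simp)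
  obtain ⟨s, hs⟩ := hw (par c) (by simp)
  have r1 := congrArg Prod.fst hr
  have r2 := congrArg Prod.snd hr
  have s1 := congrArg Prod.fst hs
  have s2 := congrArg Prod.snd hs
  simp only [par, vadd_eq_add, Prod.fst_add, Prod.smul_fst, smul_eq_mul, Prod.snd_add,
    Prod.smul_snd] at r1 r2 s1 s2
  have e : (b - a) * (c ^ 2 - a ^ 2) = (c - a) * (b ^ 2 - a ^ 2) := by
    have h1 : b - a = r * w.1 := by linarith
    have h2 : b ^ 2 - a ^ 2 = r * w.2 := by linarith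
    have h3 : c - a = s * w.1 := by linarith
    have h4 : c ^ 2 - a ^ 2 = s * w.2 := by linarith
    rw [h1, h2, h3, h4]; ring
  have e2 : (b - a) * (c - a) * (c - b) = 0 := by linear_combination e
  rcases mul_eq_zero.mp e2 with h | h
  · rcases mul_eq_zero.mp h with h | h
    · exact hab (by linarith)
    · exact hac (by linarith)
  · exact hbc (by linarith)

/-- parameter of a vertex -/
def pt {n : ℕ} (i : Fin n) (b : Bool) : ℝ := 2 * (i : ℝ) + (if b then 1 else 0)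

lemma pt_inj {n : ℕ} {i j : Fin n} {b c : Bool} (h : pt i b = pt j c) : i = j ∧ b = c := by
  unfold pt at h
  cases b <;> cases c
  · simp at h
    exact ⟨Fin.ext (by exact_mod_cast h), rfl⟩
  · exfalso
    simp at h
    have : (2 * (i : ℕ) : ℕ) = 2 * (j : ℕ) + 1 := by exact_mod_cast h
    omega
  · exfalso
    simp at h
    have : (2 * (i : ℕ) + 1 : ℕ) = 2 * (j : ℕ) := by exact_mod_cast h
    omega
  · simp at h
    exact ⟨Fin.ext (by exact_mod_cast h), rfl⟩

lemma exists_genpos (n : ℕ) : ∃ p : Fin n → Bool → ℝ × ℝ, DisjointGenPos p := by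
  refine ⟨fun i b => par (pt i b), ?_, ?_, ?_, ?_⟩
  · intro i j hij
    have h1 : ∀ i : Fin n, (par (pt i false)).1 ≠ (par (pt i true)).1 := by
      intro i
      unfold par pt; simp
    have hij' : (i : ℕ) ≠ (j : ℕ) := fun h => hij (Fin.ext h)
    unfold seg
    rcases lt_or_gt_of_ne hij' with h | h
    · have h' : (i : ℝ) + 1 ≤ (j : ℝ) := by exact_mod_cast h
      apply (below_of_sep ?_ ?_ ?_ ?_).disjoint (h1 i) (h1 j) <;>
        simp only [par, pt, Bool.false_eq_true, ↓reduceIte] <;> linarith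
    · have h' : (j : ℝ) + 1 ≤ (i : ℝ) := by exact_mod_cast h
      apply (below_of_sep' ?_ ?_ ?_ ?_).disjoint (h1 i) (h1 j) <;>
        simp only [par, pt, Bool.false_eq_true, ↓reduceIte] <;> linarith
  · intro i j hij h
    apply hij
    unfold par pt at h
    simp at h
    apply Fin.ext
    have : (i : ℝ) = (j : ℝ) := by nlinarith
    exact_mod_cast this
  · intro u v h
    have h1 := congrArg Prod.fst h
    unfold par at h1
    obtain ⟨e1, e2⟩ := pt_inj h1
    exact Prod.ext e1 e2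
  · intro u v w h1 h2 h3
    have key : ∀ u v : Fin n × Bool, u ≠ v → pt u.1 u.2 ≠ pt v.1 v.2 := by
      intro u v huv h
      obtain ⟨e1, e2⟩ := pt_inj h
      exact huv (Prod.ext e1 e2)
    exact par_coll (key _ _ h1) (key _ _ h2) (key _ _ h3)

lemma altpath_le {n : ℕ} {p : Fin n → Bool → ℝ × ℝ} {ℓ : ℕ} {v : ℕ → ℝ × ℝ}
    (h : IsAltPath p ℓ v) : ℓ ≤ n := by
  classical
  have hch : ∀ k : Fin ℓ, ∃ i : Fin n, segment ℝ (v (2 * (k : ℕ))) (v (2 * (k : ℕ) + 1)) = seg p i :=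
    fun k => h.alternating k k.2
  choose g hg using hch
  have hinj : Function.Injective g := by
    intro j k hjk
    by_contra hne
    have hne' : (j : ℕ) ≠ (k : ℕ) := fun h => hne (Fin.ext h)
    have hj := j.2
    have hk := k.2
    have h1 := hg j
    have h2 := hg k
    rw [← hjk] at h2
    have hmid : (1 / 2 : ℝ) • v (2 * (j : ℕ)) + (1 / 2 : ℝ) • v (2 * (j : ℕ) + 1) ∈
        openSegment ℝ (v (2 * (j : ℕ))) (v (2 * (j : ℕ) + 1)) :=
      ⟨1 / 2, 1 / 2, by norm_num, by norm_num, by norm_num, rfl⟩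
    have hmid' := openSegment_subset_segment ℝ _ _ hmid
    have hmid'' := hmid'
    rw [h1, ← h2] at hmid''
    exact (h.noncrossing (2 * (j : ℕ)) (2 * (k : ℕ)) (by omega) (by omega) (by omega) _
      hmid' hmid'').1 hmid
  simpa using Fintype.card_le_of_injective g hinj

theorem long_path {n : ℕ} (hn : 2 ≤ n) {p : Fin n → Bool → ℝ × ℝ} (hp : DisjointGenPos p) :
    ∃ ℓ v, IsAltPath p ℓ v ∧ 1 / 200 * Real.sqrt ((n : ℝ) / Real.log n) ≤ (ℓ : ℝ) := by
  by_contra hcon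
  push Not at hcon
  obtain ⟨x, hx⟩ : ∃ x, x = Real.sqrt ((n : ℝ) / Real.log n) := ⟨_, rfl⟩
  rw [← hx] at hcon
  have hn' : (2 : ℝ) ≤ (n : ℝ) := by exact_mod_cast hn
  have hlog2 : 0.69 < Real.log 2 := by have := Real.log_two_gt_d9; linarith
  have hlog : Real.log 2 ≤ Real.log n := Real.log_le_log (by norm_num) hn'
  have hlogpos : 0 < Real.log n := by linarith
  have hx2 : x ^ 2 = (n : ℝ) / Real.log n := by
    rw [hx]; exact Real.sq_sqrt (by positivity)
  -- a path of length one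
  have h1 : 1 < 1 / 200 * x := by
    have hg : Good (fun i b => p i (xor b false)) [((⟨0, by omega⟩ : Fin n), true)] :=
      ⟨by simp, by simp, by simp⟩
    obtain ⟨v, hv⟩ := isAltPath_of_good hp (fun _ => false) hg
    have := hcon _ v hv
    simpa using this
  obtain ⟨P, hP⟩ : ∃ P, P = ⌈1 / 200 * x⌉₊ := ⟨_, rfl⟩
  have hPlt : (P : ℝ) < 1 / 200 * x + 1 := by
    rw [hP]; exact Nat.ceil_lt_add_one (by linarith)
  have hPle : (P : ℝ) ≤ 1 / 100 * x := by linarith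
  have hall : ∀ ℓ v, IsAltPath p ℓ v → ℓ < P := by
    intro ℓ v hv
    rw [hP, Nat.lt_ceil]
    exact hcon ℓ v hv
  have hk := Nat.lt_pow_succ_log_self (b := 2) (by norm_num) n
  have hmain := main_genpos hp P (Nat.log 2 n).succ hall hk
  have hmain' : (n : ℝ) ≤ ((Nat.log 2 n : ℝ) + 1) * (1152 * P * P) := by exact_mod_cast hmain
  have hkl : ((Nat.log 2 n : ℝ) + 1) ≤ 3 * Real.log n := by
    have h2 : (2 : ℝ) ^ (Nat.log 2 n) ≤ (n : ℝ) := by
      exact_mod_cast Nat.pow_log_le_self 2 (by omega)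
    have h3 := Real.log_le_log (by positivity) h2
    rw [Real.log_pow] at h3
    nlinarith
  have hPP : (P : ℝ) * P ≤ 1 / 10000 * x ^ 2 := by
    have h0 : (0 : ℝ) ≤ P := Nat.cast_nonneg P
    nlinarith
  have h4 : (n : ℝ) ≤ (3 * Real.log n) * (1152 * (1 / 10000 * x ^ 2)) := by
    refine hmain'.trans ?_
    apply mul_le_mul hkl _ (by positivity) (by positivity)
    nlinarith
  rw [hx2] at h4
  have h5 : (3 * Real.log n) * (1152 * (1 / 10000 * ((n : ℝ) / Real.log n))) = 3456 / 10000 * n := by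
    field_simp
    ring
  rw [h5] at h4
  linarith

theorem lower {n : ℕ} (hn : 2 ≤ n) :
    1 / 200 * Real.sqrt ((n : ℝ) / Real.log n) ≤ (f n : ℝ) := by
  obtain ⟨ℓ, hℓ⟩ : ∃ ℓ, ℓ = ⌈1 / 200 * Real.sqrt ((n : ℝ) / Real.log n)⌉₊ := ⟨_, rfl⟩
  have hmem : ℓ ∈ {ℓ | ∀ p : Fin n → Bool → ℝ × ℝ, DisjointGenPos p →
      ∃ ℓ' v, ℓ ≤ ℓ' ∧ IsAltPath p ℓ' v} := by
    intro p hp
    obtain ⟨ℓ', v, hv, hle⟩ := long_path hn hp
    refine ⟨ℓ', v, ?_, hv⟩
    rw [hℓ]
    exact Nat.ceil_le.mpr hle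
  have hbdd : BddAbove {ℓ | ∀ p : Fin n → Bool → ℝ × ℝ, DisjointGenPos p →
      ∃ ℓ' v, ℓ ≤ ℓ' ∧ IsAltPath p ℓ' v} := by
    refine ⟨n, ?_⟩
    intro ℓ hℓ
    obtain ⟨p, hp⟩ := exists_genpos n
    obtain ⟨ℓ', v, h1, h2⟩ := hℓ p hp
    exact h1.trans (altpath_le h2)
  have h1 : ℓ ≤ f n := le_csSup hbdd hmem
  have h2 : 1 / 200 * Real.sqrt ((n : ℝ) / Real.log n) ≤ (ℓ : ℝ) := by
    rw [hℓ]; exact Nat.le_ceil _
  exact h2.trans (by exact_mod_cast h1)

end Pool.Agent.Helper650.AP
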