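import Mathlib

open Finset

namespace Helper650Alt

/-- endpoint of the walk that starts at `v` and then visits the list `l` -/
def endp {V : Type} : V → List V → V
  | v, [] => v
  | _, w :: l => endp w l

@[simp] lemma endp_nil {V : Type} (v : V) : endp v [] = v := rfl
@[simp] lemma endp_cons {V : Type} (v w : V) (l : List V) : endp v (w :: l) = endp w l := rfl

lemma endp_append {V : Type} (v : V) (l l' : List V) :
    endp v (l ++ l') = endp (endp v l) l' := by
  induction l generalizing v with
  | nil => rfl
  | cons w l ih => simp [ih]

lemma endp_map {V W : Type} (f : V → W) (v : V) (l : List V) :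
    endp (f v) (l.map f) = f (endp v l) := by
  induction l generalizing v with
  | nil => rfl
  | cons w l ih => simp [ih]

lemma endp_mem {V : Type} (v : V) (l : List V) : endp v l ∈ v :: l := by
  induction l generalizing v with
  | nil => simp
  | cons w l ih => simp only [endp_cons]; exact List.mem_cons_of_mem _ (ih w)

lemma nodup_left {V : Type} {v : V} {l l' : List V} (h : (v :: (l ++ l')).Nodup) :
    (v :: l).Nodup := by
  have : (v :: l).Sublist (v :: (l ++ l')) := by simp
  exact h.sublist this

lemma nodup_right {V : Type} {v : V} {l l' : List V} (h : (v :: (l ++ l')).Nodup) :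
    (endp v l :: l').Nodup := by
  have h1 : ((v :: l) ++ l').Nodup := by simpa using h
  rw [List.nodup_append] at h1
  obtain ⟨_, h3, h4⟩ := h1
  rw [List.nodup_cons]
  refine ⟨fun hm => ?_, h3⟩
  exact h4 _ (endp_mem v l) _ hm rfl

variable {X : Type}

/-- sides alternate -/
def Alt : Bool × X → List (Bool × X) → Prop
  | _, [] => True
  | v, w :: l => w.1 = !v.1 ∧ Alt w l

lemma Alt_append {v : Bool × X} {l l' : List (Bool × X)} :
    Alt v (l ++ l') ↔ Alt v l ∧ Alt (endp v l) l' := by
  induction l generalizing v with
  | nil => simp [Alt]
  | cons w l ih => simp [Alt, ih, and_assoc]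

lemma Alt_map {Y : Type} (f : Bool × X → Bool × Y) (hf : ∀ v, (f v).1 = v.1)
    {v : Bool × X} {l : List (Bool × X)} : Alt (f v) (l.map f) ↔ Alt v l := by
  induction l generalizing v with
  | nil => simp [Alt]
  | cons w l ih => simp [Alt, ih, hf]

lemma count_side (s : Bool) (v : Bool × X) (l : List (Bool × X)) (h : Alt v l) :
    ((v :: l).filter (fun w => w.1 = s)).length
      = if s = v.1 then l.length / 2 + 1 else (l.length + 1) / 2 := by
  induction l generalizing v with
  | nil =>
    by_cases hs : s = v.1
    · simp [hs]
    · have : ¬ v.1 = s := fun h => hs h.symm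
      simp [hs, this]
  | cons w l ih =>
    obtain ⟨h1, h2⟩ := h
    have := ih w h2
    rw [List.filter_cons]
    by_cases hs : s = v.1
    · have hs' : ¬ s = w.1 := by rw [h1, hs]; simp
      rw [if_neg hs'] at this
      simp only [hs, decide_true, if_true, List.length_cons]
      rw [hs] at this
      rw [this]
    · have hs' : s = w.1 := by
        rw [h1]
        cases s <;> cases hv : v.1 <;> simp_all
      have hs2 : ¬ v.1 = s := fun h => hs h.symm
      rw [if_pos hs'] at this
      simp only [hs2, hs, decide_false, if_false, List.length_cons, Bool.false_eq_true]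
      rw [this]
      omega

lemma endp_side (v : Bool × X) (l : List (Bool × X)) (h : Alt v l) :
    (endp v l).1 = if l.length % 2 = 0 then v.1 else !v.1 := by
  induction l generalizing v with
  | nil => simp
  | cons w l ih =>
    obtain ⟨h1, h2⟩ := h
    rw [endp_cons, ih w h2, h1, List.length_cons]
    by_cases hl : l.length % 2 = 0
    · have : ¬ (l.length + 1) % 2 = 0 := by omega
      simp [hl, this]
    · have : (l.length + 1) % 2 = 0 := by omega
      simp [hl, this]

variable [Fintype X] [DecidableEq X]

/-- the elements `z` with `(s,z)` in the list -/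
def sl (s : Bool) (l : List (Bool × X)) : Finset X := univ.filter (fun z => (s, z) ∈ l)

@[simp] lemma mem_sl {s : Bool} {l : List (Bool × X)} {z : X} : z ∈ sl s l ↔ (s, z) ∈ l := by
  simp [sl]

lemma card_sl {s : Bool} {l : List (Bool × X)} (hl : l.Nodup) :
    (sl s l).card = (l.filter (fun w => w.1 = s)).length := by
  have h1 : ((sl s l).image (fun z => (s, z))) = (l.filter (fun w => w.1 = s)).toFinset := by
    ext ⟨t, z⟩
    rw [Finset.mem_image, List.mem_toFinset, List.mem_filter]
    constructor
    · rintro ⟨a, ha, h⟩
      rw [Prod.mk.injEq] at h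
      obtain ⟨rfl, rfl⟩ := h
      exact ⟨mem_sl.mp ha, by simp⟩
    · rintro ⟨ha, h⟩
      have h' : t = s := by simpa using h
      subst h'
      exact ⟨z, mem_sl.mpr ha, rfl⟩
  have hinj : Function.Injective (fun z : X => (s, z)) := fun a b h => by
    simpa using h
  rw [← Finset.card_image_of_injective _ hinj, h1, List.toFinset_card_of_nodup (hl.filter _)]

/-- size of the new vertices on the side of the start -/
lemma card_W (v : Bool × X) (l : List (Bool × X)) (h : Alt v l) (hn : (v :: l).Nodup) :
    (sl v.1 l).card = l.length / 2 := by
  have h1 := count_side v.1 v l h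
  rw [if_pos rfl, List.filter_cons] at h1
  simp only [decide_true, if_true, List.length_cons] at h1
  rw [card_sl (List.nodup_cons.mp hn).2]
  omega

/-- size of the visited set on the side of the end, without the end itself -/
lemma card_D (v : Bool × X) (l : List (Bool × X)) (h : Alt v l) (hn : (v :: l).Nodup) :
    ((sl (endp v l).1 (v :: l)).erase (endp v l).2).card = l.length / 2 := by
  have hmem : (endp v l).2 ∈ sl (endp v l).1 (v :: l) := by
    rw [mem_sl]; exact endp_mem v l
  rw [Finset.card_erase_of_mem hmem, card_sl hn, count_side _ v l h, endp_side v l h]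
  by_cases hl : l.length % 2 = 0
  · simp [hl]
  · simp [hl]; omega

end Helper650Alt
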