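import Mathlib

open Finset

namespace Helper650Alt

section perm
variable {X : Type} [Fintype X] [DecidableEq X]

/-- the permutations with `θ x = u` that map `D` off `W` -/
def good (x u : X) (D W : Finset X) : Finset (Equiv.Perm X) :=
  univ.filter (fun θ => θ x = u ∧ ∀ y ∈ D, θ y ∉ W)

lemma mem_good {x u : X} {D W : Finset X} {θ : Equiv.Perm X} :
    θ ∈ good x u D W ↔ θ x = u ∧ ∀ y ∈ D, θ y ∉ W := by simp [good]

lemma swap_card {x u : X} {D W : Finset X} {z z' : X} (hz : z ∉ insert x D)
    (hz' : z' ∉ insert x D) :
    ((good x u D W).filter (fun θ => θ z' ∈ W)).card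
      ≤ ((good x u D W).filter (fun θ => θ z ∈ W)).card := by
  classical
  refine Finset.card_le_card_of_injOn (fun θ => θ * Equiv.swap z z') ?_ ?_
  · intro θ hθ
    simp only [Finset.coe_filter, Set.mem_setOf_eq, mem_good] at hθ ⊢
    obtain ⟨⟨h1, h2⟩, h3⟩ := hθ
    rw [Finset.mem_insert, not_or] at hz hz'
    refine ⟨⟨?_, ?_⟩, ?_⟩
    · rw [Equiv.Perm.mul_apply, Equiv.swap_apply_of_ne_of_ne (Ne.symm hz.1) (Ne.symm hz'.1)]
      exact h1
    · intro y hy
      have hyz : y ≠ z := fun h => hz.2 (h ▸ hy)
      have hyz' : y ≠ z' := fun h => hz'.2 (h ▸ hy)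
      rw [Equiv.Perm.mul_apply, Equiv.swap_apply_of_ne_of_ne hyz hyz']
      exact h2 y hy
    · rw [Equiv.Perm.mul_apply, Equiv.swap_apply_left]
      exact h3
  · intro θ _ θ' _ h
    exact mul_right_cancel h

lemma count_step {x u : X} {D W : Finset X} {z : X} (hz : z ∉ insert x D) (hu : u ∉ W) :
    W.card * (good x u D W).card
      ≤ Fintype.card X * ((good x u D W).filter (fun θ => θ z ∈ W)).card := by
  classical
  set Q := good x u D W with hQ
  set R : Finset X := (insert x D)ᶜ with hR
  have hsum : ∑ z' ∈ R, (Q.filter (fun θ => θ z' ∈ W)).card = W.card * Q.card := by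
    have h1 : ∑ z' ∈ R, (Q.filter (fun θ => θ z' ∈ W)).card
        = ∑ θ ∈ Q, (R.filter (fun z' => θ z' ∈ W)).card := by
      simp only [Finset.card_filter]
      rw [Finset.sum_comm]
    rw [h1]
    have h2 : ∀ θ ∈ Q, (R.filter (fun z' => θ z' ∈ W)).card = W.card := by
      intro θ hθ
      rw [hQ, mem_good] at hθ
      have h3 : R.filter (fun z' => θ z' ∈ W) = W.image (θ.symm) := by
        ext a
        simp only [Finset.mem_filter, Finset.mem_image, hR, Finset.mem_compl, Finset.mem_insert,
          not_or]
        constructor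
        · rintro ⟨_, h⟩
          exact ⟨θ a, h, by simp⟩
        · rintro ⟨b, hb, rfl⟩
          refine ⟨⟨?_, ?_⟩, by simpa using hb⟩
          · intro h
            apply hu
            rw [← hθ.1, ← h]
            simpa using hb
          · intro h
            exact hθ.2 _ h (by simpa using hb)
      rw [h3, Finset.card_image_of_injective _ θ.symm.injective]
    rw [Finset.sum_congr rfl h2, Finset.sum_const, smul_eq_mul, mul_comm]
  rw [← hsum]
  calc ∑ z' ∈ R, (Q.filter (fun θ => θ z' ∈ W)).card
      ≤ ∑ _z' ∈ R, (Q.filter (fun θ => θ z ∈ W)).card := by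
        refine Finset.sum_le_sum fun z' hz' => ?_
        exact swap_card hz (by simpa [hR] using hz')
    _ = R.card * (Q.filter (fun θ => θ z ∈ W)).card := by
        rw [Finset.sum_const, smul_eq_mul]
    _ ≤ Fintype.card X * (Q.filter (fun θ => θ z ∈ W)).card :=
        Nat.mul_le_mul_right _ (Finset.card_le_univ R)

lemma good_insert {x u : X} {D W : Finset X} {z : X} :
    (good x u (insert z D) W).card + ((good x u D W).filter (fun θ => θ z ∈ W)).card
      = (good x u D W).card := by
  classical
  have h : good x u (insert z D) W = (good x u D W).filter (fun θ => ¬ θ z ∈ W) := by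
    ext θ
    simp only [mem_good, Finset.mem_filter, Finset.mem_insert, forall_eq_or_imp]
    tauto
  rw [h, add_comm, Finset.card_filter_add_card_filter_not]

lemma good_card_le {x u : X} {W : Finset X} (hu : u ∉ W) (D : Finset X) (hx : x ∉ D) :
    ((good x u D W).card : ℝ)
      ≤ (good x u ∅ W).card * (1 - (W.card : ℝ) / Fintype.card X) ^ D.card := by
  classical
  have hM : (0 : ℝ) < Fintype.card X := by
    have : 0 < Fintype.card X := Fintype.card_pos_iff.mpr ⟨x⟩
    exact_mod_cast this
  have hW : (W.card : ℝ) ≤ Fintype.card X := by exact_mod_cast Finset.card_le_univ W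
  have h0 : 0 ≤ 1 - (W.card : ℝ) / Fintype.card X := by
    rw [sub_nonneg, div_le_one hM]; exact hW
  induction D using Finset.induction_on with
  | empty => simp
  | insert z D hz ih =>
    rw [Finset.mem_insert, not_or] at hx
    have ih' := ih hx.2
    have h1 : z ∉ insert x D := by
      rw [Finset.mem_insert, not_or]
      exact ⟨fun h => hx.1 h.symm, hz⟩
    have h2 := count_step (W := W) h1 hu
    have h3 := good_insert (x := x) (u := u) (D := D) (W := W) (z := z)
    have h2' : (W.card : ℝ) * (good x u D W).card
      ≤ Fintype.card X * ((good x u D W).filter (fun θ => θ z ∈ W)).card := by exact_mod_cast h2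
    have h3' : ((good x u (insert z D) W).card : ℝ)
        + ((good x u D W).filter (fun θ => θ z ∈ W)).card = (good x u D W).card := by
      exact_mod_cast h3
    rw [Finset.card_insert_of_notMem hz, pow_succ, ← mul_assoc]
    have h4 : ((good x u (insert z D) W).card : ℝ)
        ≤ (good x u D W).card * (1 - (W.card : ℝ) / Fintype.card X) := by
      have h5 : (W.card : ℝ) / Fintype.card X * (good x u D W).card
          ≤ ((good x u D W).filter (fun θ => θ z ∈ W)).card := by
        rw [div_mul_eq_mul_div, div_le_iff₀ hM]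
        linarith
      have h6 : ((good x u (insert z D) W).card : ℝ)
        = (good x u D W).card - ((good x u D W).filter (fun θ => θ z ∈ W)).card := by
        linarith
      rw [h6]
      nlinarith
    exact h4.trans (mul_le_mul_of_nonneg_right ih' h0)

lemma count_fix (x u : X) (W : Finset X) :
    (good x u ∅ W).card * Fintype.card X = Fintype.card (Equiv.Perm X) := by
  classical
  have h1 : ∀ u', (univ.filter (fun θ : Equiv.Perm X => θ x = u')).card
      = (good x u ∅ W).card := by
    have key : ∀ a b : X, (univ.filter (fun θ : Equiv.Perm X => θ x = a)).card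
        ≤ (univ.filter (fun θ : Equiv.Perm X => θ x = b)).card := by
      intro a b
      refine Finset.card_le_card_of_injOn (fun θ => Equiv.swap a b * θ) ?_ ?_
      · intro θ hθ
        simp only [Finset.coe_filter, Set.mem_setOf_eq, Finset.mem_univ, true_and] at hθ ⊢
        rw [Equiv.Perm.mul_apply, hθ, Equiv.swap_apply_left]
      · intro θ _ θ' _ h
        exact mul_left_cancel h
    intro u'
    have h2 : good x u ∅ W = univ.filter (fun θ : Equiv.Perm X => θ x = u) := by
      ext θ; simp [mem_good]
    rw [h2]
    exact le_antisymm (key _ _) (key _ _)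
  have h3 : (univ : Finset (Equiv.Perm X)).card
      = ∑ u' ∈ (univ : Finset X), (univ.filter (fun θ : Equiv.Perm X => θ x = u')).card :=
    Finset.card_eq_sum_card_fiberwise (fun θ _ => by simp)
  rw [← Finset.card_univ, ← Finset.card_univ, h3, Finset.sum_congr rfl (fun u' _ => h1 u'),
    Finset.sum_const, smul_eq_mul, mul_comm]

/-- a random permutation with `θ x = u` maps `D` off `W` with exponentially small probability -/
lemma avoid_bound {x u : X} {D W : Finset X} (hu : u ∉ W) (hx : x ∉ D) :
    ((good x u D W).card : ℝ) * Real.exp ((D.card : ℝ) * W.card / Fintype.card X)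
      ≤ (Fintype.card (Equiv.Perm X) : ℝ) / Fintype.card X := by
  have hM : (0 : ℝ) < Fintype.card X := by
    have : 0 < Fintype.card X := Fintype.card_pos_iff.mpr ⟨x⟩
    exact_mod_cast this
  have hW : (W.card : ℝ) ≤ Fintype.card X := by exact_mod_cast Finset.card_le_univ W
  have h0 : 0 ≤ 1 - (W.card : ℝ) / Fintype.card X := by
    rw [sub_nonneg, div_le_one hM]; exact hW
  have h1 := good_card_le hu D hx
  have h2 : (1 - (W.card : ℝ) / Fintype.card X) ^ D.card
      ≤ Real.exp (-((D.card : ℝ) * W.card / Fintype.card X)) := by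
    have h3 : 1 - (W.card : ℝ) / Fintype.card X ≤ Real.exp (-((W.card : ℝ) / Fintype.card X)) :=
      Real.one_sub_le_exp_neg _
    calc (1 - (W.card : ℝ) / Fintype.card X) ^ D.card
        ≤ (Real.exp (-((W.card : ℝ) / Fintype.card X))) ^ D.card := pow_le_pow_left₀ h0 h3 _
      _ = Real.exp (-((D.card : ℝ) * W.card / Fintype.card X)) := by
        rw [← Real.exp_nat_mul]; congr 1; ring
  have h4 : ((good x u ∅ W).card : ℝ) = (Fintype.card (Equiv.Perm X) : ℝ) / Fintype.card X := by
    rw [eq_div_iff hM.ne']
    exact_mod_cast count_fix x u W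
  rw [h4] at h1
  have h5 : 0 ≤ (Fintype.card (Equiv.Perm X) : ℝ) / Fintype.card X := by positivity
  calc ((good x u D W).card : ℝ) * Real.exp ((D.card : ℝ) * W.card / Fintype.card X)
      ≤ ((Fintype.card (Equiv.Perm X) : ℝ) / Fintype.card X
          * Real.exp (-((D.card : ℝ) * W.card / Fintype.card X)))
          * Real.exp ((D.card : ℝ) * W.card / Fintype.card X) := by
        refine mul_le_mul_of_nonneg_right (h1.trans ?_) (Real.exp_pos _).le
        exact mul_le_mul_of_nonneg_left h2 h5
    _ = (Fintype.card (Equiv.Perm X) : ℝ) / Fintype.card X := by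
        rw [mul_assoc, ← Real.exp_add]; simp

end perm

end Helper650Alt
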