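import Mathlib
import Pool.Agent.Helper650.Alt1
import Pool.Agent.Helper650.Alt2

open Finset

namespace Helper650Alt

section level
variable {X P : Type} [Fintype X] [DecidableEq X] [Fintype P]

/-- the weighted number of self-avoiding walks from `v` -/
noncomputable def Z (vis : P → Bool × X → List (Bool × X)) (κ M : ℝ) (v : Bool × X) : ℝ :=
  ∑ p : P, if (v :: vis p v).Nodup then Real.exp (κ * ((vis p v).length : ℝ) ^ 2 / M) else 0

def f0 (a : Bool) (w : Bool × X) : Bool × (Bool × X) := (w.1, a, w.2)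

def f1 (θ : Equiv.Perm X) (s a : Bool) (w : Bool × X) : Bool × (Bool × X) :=
  (w.1, (if w.1 = s then a else !a), θ.symm w.2)

/-- the vertex that corresponds to `e` in the second round -/
def tw (θ : Equiv.Perm X) (e : Bool × X) : Bool × X := (e.1, θ e.2)

/-- walks of the next level -/
def vis' (vis : P → Bool × X → List (Bool × X)) (θ : Equiv.Perm X) (pq : P × P)
    (v : Bool × (Bool × X)) : List (Bool × (Bool × X)) :=
  (vis pq.1 (v.1, v.2.2)).map (f0 v.2.1) ++
    (vis pq.2 (tw θ (endp (v.1, v.2.2) (vis pq.1 (v.1, v.2.2))))).map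
      (f1 θ (endp (v.1, v.2.2) (vis pq.1 (v.1, v.2.2))).1 v.2.1)

/-- the visited vertices on the side of the end, without the end -/
def DD (v : Bool × X) (l : List (Bool × X)) : Finset X :=
  (sl (endp v l).1 (v :: l)).erase (endp v l).2

lemma inner_bound (vis : P → Bool × X → List (Bool × X)) (halt : ∀ p v, Alt v (vis p v))
    (κ U : ℝ) (hU : ∀ v, Z vis κ (Fintype.card X) v ≤ U) (s : Bool) (x : X) (D : Finset X)
    (hx : x ∉ D) :
    ∑ θ : Equiv.Perm X, ∑ q : P,
      (if ((s, θ x) :: vis q (s, θ x)).Nodup ∧ ∀ y ∈ D, θ y ∉ sl s (vis q (s, θ x)) then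
        Real.exp (κ * ((vis q (s, θ x)).length : ℝ) ^ 2 / Fintype.card X)
          * Real.exp ((D.card : ℝ) * (((vis q (s, θ x)).length / 2 : ℕ) : ℝ) / Fintype.card X)
        else 0) ≤ (Fintype.card (Equiv.Perm X) : ℝ) * U := by
  classical
  have hM : (0 : ℝ) < Fintype.card X := by
    have : 0 < Fintype.card X := Fintype.card_pos_iff.mpr ⟨x⟩
    exact_mod_cast this
  rw [← Finset.sum_fiberwise (univ : Finset (Equiv.Perm X)) (fun θ => θ x)]
  have key : ∀ u : X, ∑ θ ∈ univ.filter (fun θ : Equiv.Perm X => θ x = u), ∑ q : P,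
      (if ((s, θ x) :: vis q (s, θ x)).Nodup ∧ ∀ y ∈ D, θ y ∉ sl s (vis q (s, θ x)) then
        Real.exp (κ * ((vis q (s, θ x)).length : ℝ) ^ 2 / Fintype.card X)
          * Real.exp ((D.card : ℝ) * (((vis q (s, θ x)).length / 2 : ℕ) : ℝ) / Fintype.card X)
        else 0)
      ≤ (Fintype.card (Equiv.Perm X) : ℝ) / Fintype.card X * U := by
    intro u
    have h1 : ∀ θ ∈ univ.filter (fun θ : Equiv.Perm X => θ x = u), ∑ q : P,
      (if ((s, θ x) :: vis q (s, θ x)).Nodup ∧ ∀ y ∈ D, θ y ∉ sl s (vis q (s, θ x)) then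
        Real.exp (κ * ((vis q (s, θ x)).length : ℝ) ^ 2 / Fintype.card X)
          * Real.exp ((D.card : ℝ) * (((vis q (s, θ x)).length / 2 : ℕ) : ℝ) / Fintype.card X)
        else 0) = ∑ q : P,
      (if ((s, u) :: vis q (s, u)).Nodup ∧ ∀ y ∈ D, θ y ∉ sl s (vis q (s, u)) then
        Real.exp (κ * ((vis q (s, u)).length : ℝ) ^ 2 / Fintype.card X)
          * Real.exp ((D.card : ℝ) * (((vis q (s, u)).length / 2 : ℕ) : ℝ) / Fintype.card X)
        else 0) := by
      intro θ hθ
      rw [(Finset.mem_filter.mp hθ).2]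
    rw [Finset.sum_congr rfl h1, Finset.sum_comm]
    calc ∑ q : P, ∑ θ ∈ univ.filter (fun θ : Equiv.Perm X => θ x = u),
        (if ((s, u) :: vis q (s, u)).Nodup ∧ ∀ y ∈ D, θ y ∉ sl s (vis q (s, u)) then
        Real.exp (κ * ((vis q (s, u)).length : ℝ) ^ 2 / Fintype.card X)
          * Real.exp ((D.card : ℝ) * (((vis q (s, u)).length / 2 : ℕ) : ℝ) / Fintype.card X)
        else 0)
        ≤ ∑ q : P, (Fintype.card (Equiv.Perm X) : ℝ) / Fintype.card X *
          (if ((s, u) :: vis q (s, u)).Nodup then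
            Real.exp (κ * ((vis q (s, u)).length : ℝ) ^ 2 / Fintype.card X) else 0) := by
          refine Finset.sum_le_sum fun q _ => ?_
          by_cases hn : ((s, u) :: vis q (s, u)).Nodup
          · rw [if_pos hn]
            simp only [hn, true_and]
            rw [← Finset.sum_filter, Finset.filter_filter, Finset.sum_const, nsmul_eq_mul]
            have hW : (sl s (vis q (s, u))).card = (vis q (s, u)).length / 2 :=
              card_W (s, u) _ (halt q _) hn
            have hu : u ∉ sl s (vis q (s, u)) := by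
              rw [mem_sl]; exact (List.nodup_cons.mp hn).1
            have h2 := avoid_bound (x := x) (u := u) (D := D) hu hx
            rw [hW] at h2
            have h3 : (univ.filter (fun θ : Equiv.Perm X => θ x = u ∧
              ∀ y ∈ D, θ y ∉ sl s (vis q (s, u)))) = good x u D (sl s (vis q (s, u))) := rfl
            rw [h3]
            calc _ = (((good x u D (sl s (vis q (s, u)))).card : ℝ) *
                  Real.exp ((D.card : ℝ) * (((vis q (s, u)).length / 2 : ℕ) : ℝ)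
                    / Fintype.card X)) *
                  Real.exp (κ * ((vis q (s, u)).length : ℝ) ^ 2 / Fintype.card X) := by ring
              _ ≤ _ := mul_le_mul_of_nonneg_right h2 (Real.exp_pos _).le
          · rw [if_neg hn]
            simp [hn]
      _ = (Fintype.card (Equiv.Perm X) : ℝ) / Fintype.card X *
          Z vis κ (Fintype.card X) (s, u) := by
          rw [Z, Finset.mul_sum]
      _ ≤ (Fintype.card (Equiv.Perm X) : ℝ) / Fintype.card X * U :=
          mul_le_mul_of_nonneg_left (hU _) (by positivity)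
  calc _ ≤ ∑ _u : X, (Fintype.card (Equiv.Perm X) : ℝ) / Fintype.card X * U :=
        Finset.sum_le_sum fun u _ => key u
    _ = (Fintype.card (Equiv.Perm X) : ℝ) * U := by
        rw [Finset.sum_const, nsmul_eq_mul, Finset.card_univ]
        field_simp

/-- the auxiliary double sum -/
noncomputable def Y (vis : P → Bool × X → List (Bool × X)) (κ : ℝ) (θ : Equiv.Perm X)
    (v : Bool × X) : ℝ :=
  ∑ p : P, if (v :: vis p v).Nodup then
    Real.exp (κ * ((vis p v).length : ℝ) ^ 2 / Fintype.card X) *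
    ∑ q : P, (if (tw θ (endp v (vis p v)) :: vis q (tw θ (endp v (vis p v)))).Nodup ∧
        ∀ y ∈ DD v (vis p v), θ y ∉ sl (endp v (vis p v)).1 (vis q (tw θ (endp v (vis p v)))) then
        Real.exp (κ * ((vis q (tw θ (endp v (vis p v)))).length : ℝ) ^ 2 / Fintype.card X)
          * Real.exp (((DD v (vis p v)).card : ℝ) *
            (((vis q (tw θ (endp v (vis p v)))).length / 2 : ℕ) : ℝ) / Fintype.card X)
        else 0)
    else 0

lemma Z_nonneg (vis : P → Bool × X → List (Bool × X)) (κ M : ℝ) (v : Bool × X) :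
    0 ≤ Z vis κ M v := by
  refine Finset.sum_nonneg fun p _ => ?_
  split_ifs
  · exact (Real.exp_pos _).le
  · exact le_rfl

lemma Y_nonneg (vis : P → Bool × X → List (Bool × X)) (κ : ℝ) (θ : Equiv.Perm X)
    (v : Bool × X) : 0 ≤ Y vis κ θ v := by
  refine Finset.sum_nonneg fun p _ => ?_
  split_ifs
  · refine mul_nonneg (Real.exp_pos _).le (Finset.sum_nonneg fun q _ => ?_)
    split_ifs
    · positivity
    · exact le_rfl
  · exact le_rfl

lemma sum_Y (vis : P → Bool × X → List (Bool × X)) (halt : ∀ p v, Alt v (vis p v))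
    (κ U : ℝ) (hU : ∀ v, Z vis κ (Fintype.card X) v ≤ U) (v : Bool × X) :
    ∑ θ : Equiv.Perm X, Y vis κ θ v ≤ (Fintype.card (Equiv.Perm X) : ℝ) * U * U := by
  classical
  have hU0 : 0 ≤ U := (Z_nonneg _ _ _ v).trans (hU v)
  unfold Y
  rw [Finset.sum_comm]
  calc _ ≤ ∑ p : P, (Fintype.card (Equiv.Perm X) : ℝ) * U *
        (if (v :: vis p v).Nodup then
          Real.exp (κ * ((vis p v).length : ℝ) ^ 2 / Fintype.card X) else 0) := by
        refine Finset.sum_le_sum fun p _ => ?_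
        by_cases hn : (v :: vis p v).Nodup
        · simp only [if_pos hn]
          rw [← Finset.mul_sum, mul_comm]
          refine mul_le_mul_of_nonneg_right ?_ (Real.exp_pos _).le
          have := inner_bound vis halt κ U hU (endp v (vis p v)).1 (endp v (vis p v)).2
            (DD v (vis p v)) (by simp [DD])
          exact this
        · simp [hn]
    _ = (Fintype.card (Equiv.Perm X) : ℝ) * U * Z vis κ (Fintype.card X) v := by
        rw [← Finset.mul_sum, Z]
    _ ≤ (Fintype.card (Equiv.Perm X) : ℝ) * U * U :=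
        mul_le_mul_of_nonneg_left (hU v) (by positivity)

lemma exists_theta (vis : P → Bool × X → List (Bool × X)) (halt : ∀ p v, Alt v (vis p v))
    (κ U : ℝ) (hU : ∀ v, Z vis κ (Fintype.card X) v ≤ U) (hU0 : 0 ≤ U) :
    ∃ θ : Equiv.Perm X, ∀ v, Y vis κ θ v ≤ 2 * Fintype.card X * (U * U) := by
  classical
  have h1 : ∑ θ : Equiv.Perm X, ∑ v : Bool × X, Y vis κ θ v
      ≤ ∑ _θ : Equiv.Perm X, (2 * Fintype.card X * (U * U) : ℝ) := by
    rw [Finset.sum_comm]
    calc ∑ v : Bool × X, ∑ θ : Equiv.Perm X, Y vis κ θ v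
        ≤ ∑ _v : Bool × X, (Fintype.card (Equiv.Perm X) : ℝ) * U * U :=
          Finset.sum_le_sum fun v _ => sum_Y vis halt κ U hU v
      _ = _ := by
          rw [Finset.sum_const, Finset.sum_const, nsmul_eq_mul, nsmul_eq_mul, Finset.card_univ,
            Finset.card_univ, Fintype.card_prod, Fintype.card_bool]
          push_cast
          ring
  obtain ⟨θ, _, hθ⟩ := Finset.exists_le_of_sum_le (s := (univ : Finset (Equiv.Perm X)))
    ⟨1, Finset.mem_univ _⟩ h1
  refine ⟨θ, fun v => le_trans ?_ hθ⟩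
  exact Finset.single_le_sum (f := fun v => Y vis κ θ v) (fun v _ => Y_nonneg vis κ θ v)
    (Finset.mem_univ v)

/-- the numerical inequality -/
lemma num_ineq (κ M : ℝ) (hκ : 1 / 8 ≤ κ) (hM : 0 < M) (l m : ℕ) (hl : (l : ℝ) ≤ 2 * M)
    (hm : (m : ℝ) ≤ 2 * M) :
    (κ + 1 / 8) * ((l : ℝ) + m) ^ 2 / (2 * M)
      ≤ 1 + κ * (l : ℝ) ^ 2 / M + (κ * (m : ℝ) ^ 2 / M +
        ((l / 2 : ℕ) : ℝ) * ((m / 2 : ℕ) : ℝ) / M) := by
  have h1 : ((l : ℝ) * m - l - m) / 4 ≤ ((l / 2 : ℕ) : ℝ) * ((m / 2 : ℕ) : ℝ) := by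
    have hl2 : ∃ e : ℕ, e ≤ 1 ∧ l = 2 * (l / 2) + e := ⟨l % 2, by omega, by omega⟩
    have hm2 : ∃ e : ℕ, e ≤ 1 ∧ m = 2 * (m / 2) + e := ⟨m % 2, by omega, by omega⟩
    obtain ⟨e, he, hle⟩ := hl2
    obtain ⟨f, hf, hmf⟩ := hm2
    have hl' : (l : ℝ) = 2 * ((l / 2 : ℕ) : ℝ) + e := by exact_mod_cast hle
    have hm' : (m : ℝ) = 2 * ((m / 2 : ℕ) : ℝ) + f := by exact_mod_cast hmf
    have he' : (e : ℝ) ≤ 1 := by exact_mod_cast he
    have hf' : (f : ℝ) ≤ 1 := by exact_mod_cast hf
    have he0 : (0 : ℝ) ≤ e := by positivity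
    have hf0 : (0 : ℝ) ≤ f := by positivity
    have ha0 : (0 : ℝ) ≤ ((l / 2 : ℕ) : ℝ) := by positivity
    have hb0 : (0 : ℝ) ≤ ((m / 2 : ℕ) : ℝ) := by positivity
    rw [hl', hm']
    nlinarith [mul_nonneg ha0 (sub_nonneg.mpr hf'), mul_nonneg hb0 (sub_nonneg.mpr he'),
      mul_nonneg he0 (sub_nonneg.mpr hf')]
  have e1 : (κ + 1 / 8) * ((l : ℝ) + m) ^ 2 / (2 * M)
      = ((κ + 1 / 8) * ((l : ℝ) + m) ^ 2 / 2) / M := by
    field_simp
  have e2 : 1 + κ * (l : ℝ) ^ 2 / M + (κ * (m : ℝ) ^ 2 / M +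
        ((l / 2 : ℕ) : ℝ) * ((m / 2 : ℕ) : ℝ) / M)
      = (M + κ * (l : ℝ) ^ 2 + κ * (m : ℝ) ^ 2 + ((l / 2 : ℕ) : ℝ) * ((m / 2 : ℕ) : ℝ)) / M := by
    field_simp
    ring
  rw [e1, e2]
  refine div_le_div_of_nonneg_right ?_ hM.le
  nlinarith [sq_nonneg ((l : ℝ) - m), mul_nonneg (sub_nonneg.mpr hκ) (sq_nonneg ((l : ℝ) - m))]

lemma Z_le_Y [DecidableEq (Bool × X)] (vis : P → Bool × X → List (Bool × X))
    (halt : ∀ p v, Alt v (vis p v)) (κ : ℝ) (hκ : 1 / 8 ≤ κ) (θ : Equiv.Perm X)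
    (v : Bool × (Bool × X)) :
    Z (vis' vis θ) (κ + 1 / 8) (2 * Fintype.card X) v
      ≤ Real.exp 1 * Y vis κ θ (v.1, v.2.2) := by
  classical
  obtain ⟨s, a, x⟩ := v
  have hM : (0 : ℝ) < Fintype.card X := by
    have : 0 < Fintype.card X := Fintype.card_pos_iff.mpr ⟨x⟩
    exact_mod_cast this
  unfold Z Y
  rw [Fintype.sum_prod_type, Finset.mul_sum]
  refine Finset.sum_le_sum fun p _ => ?_
  dsimp only
  set l0 := vis p (s, x) with hl0
  set e := endp (s, x) l0 with he
  -- facts for a fixed `q`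
  have fact : ∀ q : P, ((s, a, x) :: vis' vis θ (p, q) (s, a, x)).Nodup →
      ((s, x) :: l0).Nodup ∧ (tw θ e :: vis q (tw θ e)).Nodup ∧
      (∀ y ∈ DD (s, x) l0, θ y ∉ sl e.1 (vis q (tw θ e))) ∧
      (vis' vis θ (p, q) (s, a, x)).length = l0.length + (vis q (tw θ e)).length := by
    intro q hq
    have hv : vis' vis θ (p, q) (s, a, x)
        = l0.map (f0 a) ++ (vis q (tw θ e)).map (f1 θ e.1 a) := rfl
    rw [hv] at hq ⊢
    have hs : ((s, a, x) : Bool × (Bool × X)) = f0 a (s, x) := rfl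
    rw [hs] at hq
    refine ⟨?_, ?_, ?_, by simp⟩
    · have h1 := nodup_left hq
      rw [← List.map_cons] at h1
      exact h1.of_map _
    · have h1 := nodup_right hq
      rw [endp_map, ← he] at h1
      have h2 : f0 a e = f1 θ e.1 a (tw θ e) := by
        simp [f0, f1, tw]
      rw [h2, ← List.map_cons] at h1
      exact h1.of_map _
    · intro y hy hy2
      rw [DD, Finset.mem_erase, mem_sl, ← he] at hy
      rw [mem_sl] at hy2
      have h1 : ((f0 a (s, x) :: l0.map (f0 a)) ++ (vis q (tw θ e)).map (f1 θ e.1 a)).Nodup := by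
        simpa using hq
      rw [List.nodup_append] at h1
      have m1 : f0 a (e.1, y) ∈ f0 a (s, x) :: l0.map (f0 a) := by
        rw [← List.map_cons]
        exact List.mem_map_of_mem hy.2
      have m2 : f1 θ e.1 a (e.1, θ y) ∈ (vis q (tw θ e)).map (f1 θ e.1 a) :=
        List.mem_map_of_mem hy2
      have h3 : f1 θ e.1 a (e.1, θ y) = f0 a (e.1, y) := by simp [f0, f1]
      exact h1.2.2 _ m1 _ (h3 ▸ m2) rfl
  by_cases hn : ((s, x) :: l0).Nodup
  · rw [if_pos hn, ← mul_assoc, Finset.mul_sum]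
    refine Finset.sum_le_sum fun q _ => ?_
    by_cases hq : ((s, a, x) :: vis' vis θ (p, q) (s, a, x)).Nodup
    · obtain ⟨_, h2, h3, h4⟩ := fact q hq
      rw [if_pos hq, if_pos ⟨h2, h3⟩, h4]
      have hD : (DD (s, x) l0).card = l0.length / 2 := card_D (s, x) l0 (halt p _) hn
      rw [hD]
      have c1 : ((l0.length : ℕ) : ℝ) ≤ 2 * Fintype.card X := by
        have := (List.nodup_cons.mp hn).2.length_le_card
        rw [Fintype.card_prod, Fintype.card_bool] at this
        exact_mod_cast this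
      have c2 : (((vis q (tw θ e)).length : ℕ) : ℝ) ≤ 2 * Fintype.card X := by
        have := (List.nodup_cons.mp h2).2.length_le_card
        rw [Fintype.card_prod, Fintype.card_bool] at this
        exact_mod_cast this
      have := num_ineq κ (Fintype.card X) hκ hM _ _ c1 c2
      push_cast
      rw [← Real.exp_add, ← Real.exp_add, ← Real.exp_add]
      refine Real.exp_le_exp.mpr ?_
      push_cast at this
      linarith
    · rw [if_neg hq]
      split_ifs <;> positivity
  · have : ∀ q : P, ¬ ((s, a, x) :: vis' vis θ (p, q) (s, a, x)).Nodup :=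
      fun q hq => hn (fact q hq).1
    simp [this, hn]

/-- the level-up inequality -/
lemma level_up [DecidableEq (Bool × X)] (vis : P → Bool × X → List (Bool × X))
    (halt : ∀ p v, Alt v (vis p v)) (κ U : ℝ) (hκ : 1 / 8 ≤ κ) (hU0 : 0 ≤ U)
    (hU : ∀ v, Z vis κ (Fintype.card X) v ≤ U) :
    ∃ θ : Equiv.Perm X, ∀ v : Bool × (Bool × X),
      Z (vis' vis θ) (κ + 1 / 8) (2 * Fintype.card X) v
        ≤ Real.exp 1 * (2 * Fintype.card X * (U * U)) := by
  obtain ⟨θ, hθ⟩ := exists_theta vis halt κ U hU hU0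
  refine ⟨θ, fun v => (Z_le_Y vis halt κ hκ θ v).trans ?_⟩
  exact mul_le_mul_of_nonneg_left (hθ _) (Real.exp_pos _).le

end level

end Helper650Alt
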