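import Mathlib
import Pool.Agent.Helper650.Alt3

open Finset

namespace Helper650Alt

/-- time of the edge between two vertices on opposite sides -/
def tm {X : Type} (τ : X → X → ℕ) (v w : Bool × X) : ℕ := if v.1 then τ w.2 v.2 else τ v.2 w.2

def opp {X : Type} (v w : Bool × X) : Prop := w.1 = !v.1

/-- weakly increasing sequences of edges -/
def Inc {V : Type} (adj : V → V → Prop) (g : V → V → ℕ) : ℕ → ℕ → V → List V → Prop
  | _, _, _, [] => True
  | a, b, v, w :: l => adj v w ∧ a ≤ g v w ∧ g v w < b ∧ Inc adj g (g v w) b w l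

lemma Inc_mono {V : Type} {adj : V → V → Prop} {g : V → V → ℕ} {a a' b : ℕ} {v : V} {l : List V}
    (h : Inc adj g a b v l) (haa : a' ≤ a) : Inc adj g a' b v l := by
  cases l with
  | nil => trivial
  | cons w l => exact ⟨h.1, haa.trans h.2.1, h.2.2.1, h.2.2.2⟩

lemma Inc_split {V : Type} {adj : V → V → Prop} {g : V → V → ℕ} (c : ℕ) {a b : ℕ} {v : V}
    {l : List V} (h : Inc adj g a b v l) :
    ∃ l0 l1, l = l0 ++ l1 ∧ Inc adj g a c v l0 ∧ Inc adj g c b (endp v l0) l1 := by
  induction l generalizing a v with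
  | nil => exact ⟨[], [], rfl, trivial, trivial⟩
  | cons w l ih =>
    obtain ⟨h1, h2, h3, h4⟩ := h
    by_cases hc : g v w < c
    · obtain ⟨l0, l1, e, i0, i1⟩ := ih h4
      exact ⟨w :: l0, l1, by rw [e]; rfl, ⟨h1, h2, hc, i0⟩, i1⟩
    · exact ⟨[], w :: l, rfl, trivial, ⟨h1, not_lt.mp hc, h3, h4⟩⟩

section
variable {X P : Type}

/-- the time function of the next level -/
def up (τ : X → X → ℕ) (T : ℕ) (θ : Equiv.Perm X) (p q : Bool × X) : ℕ :=
  if q.1 = p.1 then τ p.2 q.2 else T + τ (θ p.2) (θ q.2)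

lemma lemA (τ : X → X → ℕ) (T : ℕ) (θ : Equiv.Perm X) (a : Bool) {c : ℕ} {v : Bool × X}
    {l' : List (Bool × (Bool × X))}
    (h : Inc opp (tm (up τ T θ)) c T (f0 a v) l') :
    ∃ l, l' = l.map (f0 a) ∧ Inc opp (tm τ) c T v l := by
  induction l' generalizing v c with
  | nil => exact ⟨[], rfl, trivial⟩
  | cons w l' ih =>
    obtain ⟨s1, b, y⟩ := w
    obtain ⟨s, x⟩ := v
    obtain ⟨h1, h2, h3, h4⟩ := h
    have hb : b = a := by
      by_contra hne
      cases s
      · simp only [tm, up, f0, hne, if_false, Bool.false_eq_true] at h3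
        omega
      · have hne' : ¬ a = b := fun h => hne h.symm
        simp only [tm, up, f0, hne', if_false, if_true] at h3
        omega
    subst hb
    have ht : tm (up τ T θ) (f0 b (s, x)) (s1, b, y) = tm τ (s, x) (s1, y) := by
      cases s <;> simp [tm, up, f0]
    rw [ht] at h2 h3 h4
    obtain ⟨l, e, hl⟩ := ih (v := (s1, y)) h4
    exact ⟨(s1, y) :: l, by rw [e]; rfl, ⟨h1, h2, h3, hl⟩⟩

lemma lemB (τ : X → X → ℕ) (T : ℕ) (hT : ∀ x y, τ x y < T) (θ : Equiv.Perm X) (s0 a : Bool)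
    {c : ℕ} (hc : T ≤ c) {v : Bool × X} {l' : List (Bool × (Bool × X))}
    (h : Inc opp (tm (up τ T θ)) c (2 * T) (f1 θ s0 a v) l') :
    ∃ l, l' = l.map (f1 θ s0 a) ∧ Inc opp (tm τ) (c - T) T v l := by
  induction l' generalizing v c with
  | nil => exact ⟨[], rfl, trivial⟩
  | cons w l' ih =>
    obtain ⟨s1, b, y⟩ := w
    obtain ⟨s, z⟩ := v
    obtain ⟨h1, h2, h3, h4⟩ := h
    have hs1 : s1 = !s := h1
    subst hs1
    have hb : b = !(if s = s0 then a else !a) := by
      by_contra hne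
      have hb' : b = (if s = s0 then a else !a) := by
        revert hne
        cases b <;> cases (if s = s0 then a else !a) <;> simp
      have h5 : tm (up τ T θ) (f1 θ s0 a (s, z)) (!s, b, y) < T := by
        cases s
        · simp only [tm, up, f1, hb', if_true, Bool.false_eq_true, if_false]
          exact hT _ _
        · simp only [tm, up, f1, hb', if_true]
          exact hT _ _
      omega
    have hw : ((!s, b, y) : Bool × (Bool × X)) = f1 θ s0 a (!s, θ y) := by
      simp only [f1, Equiv.symm_apply_apply, Prod.mk.injEq, true_and, and_true]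
      rw [hb]
      cases s <;> cases s0 <;> simp
    have ht : tm (up τ T θ) (f1 θ s0 a (s, z)) (!s, b, y) = T + tm τ (s, z) (!s, θ y) := by
      cases s
      · have hne : ¬ b = (if false = s0 then a else !a) := by rw [hb]; simp
        simp only [tm, up, f1, hne, if_false, Bool.false_eq_true, Equiv.apply_symm_apply]
      · have hne : ¬ (if true = s0 then a else !a) = b := by rw [hb]; simp
        simp only [tm, up, f1, hne, if_false, if_true, Equiv.apply_symm_apply]
    rw [ht] at h2 h3 h4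
    rw [hw] at h4
    obtain ⟨l, e, hl⟩ := ih (by omega) h4
    refine ⟨(!s, θ y) :: l, by rw [e, hw]; rfl, ⟨rfl, by omega, by omega, ?_⟩⟩
    have : T + tm τ (s, z) (!s, θ y) - T = tm τ (s, z) (!s, θ y) := by omega
    rwa [this] at hl

/-- every weakly increasing self-avoiding path is listed by `vis` -/
def Complete (vis : P → Bool × X → List (Bool × X)) (τ : X → X → ℕ) (T : ℕ) : Prop :=
  ∀ v l, Inc opp (tm τ) 0 T v l → (v :: l).Nodup → ∃ p, vis p v = l

lemma f0_eq_f1 (θ : Equiv.Perm X) (a : Bool) (e : Bool × X) :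
    f0 a e = f1 θ e.1 a (tw θ e) := by simp [f0, f1, tw]

lemma complete_up (vis : P → Bool × X → List (Bool × X)) (τ : X → X → ℕ) (T : ℕ)
    (hT : ∀ x y, τ x y < T) (θ : Equiv.Perm X) (hc : Complete vis τ T) :
    Complete (vis' vis θ) (up τ T θ) (2 * T) := by
  rintro ⟨s, a, x⟩ l hl hn
  obtain ⟨l0', l1', rfl, h0, h1⟩ := Inc_split T hl
  have hs : ((s, a, x) : Bool × (Bool × X)) = f0 a (s, x) := rfl
  rw [hs] at h0 h1 hn
  obtain ⟨l0, rfl, i0⟩ := lemA τ T θ a h0
  have n0 : ((s, x) :: l0).Nodup := by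
    have := nodup_left hn
    rw [← List.map_cons] at this
    exact this.of_map _
  obtain ⟨p, hp⟩ := hc _ _ i0 n0
  have n1 := nodup_right hn
  rw [endp_map, f0_eq_f1 θ] at h1 n1
  obtain ⟨l1, rfl, i1⟩ := lemB τ T hT θ _ a le_rfl h1
  rw [← List.map_cons] at n1
  have n1' := n1.of_map _
  rw [Nat.sub_self] at i1
  obtain ⟨q, hq⟩ := hc _ _ i1 n1'
  refine ⟨(p, q), ?_⟩
  simp only [vis', hp, hq]

lemma alt_up (vis : P → Bool × X → List (Bool × X)) (halt : ∀ p v, Alt v (vis p v))
    (θ : Equiv.Perm X) : ∀ p v, Alt v (vis' vis θ p v) := by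
  rintro ⟨p, q⟩ ⟨s, a, x⟩
  have key : vis' vis θ (p, q) (s, a, x) = (vis p (s, x)).map (f0 a) ++
    (vis q (tw θ (endp (s, x) (vis p (s, x))))).map
      (f1 θ (endp (s, x) (vis p (s, x))).1 a) := rfl
  have hs : ((s, a, x) : Bool × (Bool × X)) = f0 a (s, x) := rfl
  rw [key, Alt_append, hs]
  refine ⟨(Alt_map (f0 a) (fun _ => rfl)).mpr (halt _ _), ?_⟩
  rw [endp_map, f0_eq_f1 θ]
  exact (Alt_map (f1 θ _ a) (fun _ => rfl)).mpr (halt _ _)

lemma up_lt (τ : X → X → ℕ) (T : ℕ) (hT : ∀ x y, τ x y < T) (θ : Equiv.Perm X) :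
    ∀ x y, up τ T θ x y < 2 * T := by
  intro x y
  unfold up
  split_ifs
  · have := hT x.2 y.2; omega
  · have := hT (θ x.2) (θ y.2); omega

end

theorem exists_level (k : ℕ) : ∃ (X P : Type) (_ : Fintype X) (_ : DecidableEq X) (_ : Fintype P)
    (vis : P → Bool × X → List (Bool × X)) (τ : X → X → ℕ),
    Fintype.card X = 2 ^ k ∧ (∀ p v, Alt v (vis p v)) ∧ (∀ x y, τ x y < 2 ^ k) ∧
    Complete vis τ (2 ^ k) ∧
    ∀ v, Z vis (((k : ℝ) + 1) / 8) (Fintype.card X) v
      ≤ Real.exp (5 * 2 ^ k) / (16 * 2 ^ k) := by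
  induction k with
  | zero =>
    refine ⟨Unit, Bool, inferInstance, inferInstance, inferInstance,
      fun p v => if p then [(!v.1, ())] else [], fun _ _ => 0, by simp, ?_, by simp, ?_, ?_⟩
    · rintro (_ | _) v
      · simp [Alt]
      · simp [Alt]
    · rintro ⟨s, u⟩ l hl hn
      match l, hl, hn with
      | [], _, _ => exact ⟨false, by simp⟩
      | [w], hl, hn =>
        refine ⟨true, ?_⟩
        obtain ⟨t, u'⟩ := w
        have : t = !s := hl.1
        simp [this]
      | w :: w' :: l, hl, hn =>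
        exfalso
        obtain ⟨h1, _, _, h4⟩ := hl
        have h5 := h4.1
        have h6 : w' = (s, u) := by
          have : w'.1 = s := by
            have a1 : w'.1 = !w.1 := h5
            have a2 : w.1 = !s := h1
            rw [a1, a2]; simp
          exact Prod.ext this rfl
        rw [h6] at hn
        simp at hn
    · rintro ⟨s, u⟩
      have e1 : (2.7 : ℝ) < Real.exp 1 := by
        have := Real.exp_one_gt_d9; linarith
      have e2 : Real.exp 1 < 2.8 := by
        have := Real.exp_one_lt_d9; linarith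
      have e3 : Real.exp (1 / 8) ≤ Real.exp 1 := Real.exp_le_exp.mpr (by norm_num)
      have e4 : Real.exp 5 = Real.exp 1 ^ 5 := by
        rw [← Real.exp_nat_mul]; norm_num
      have e5 : (2.7 : ℝ) ^ 5 ≤ Real.exp 1 ^ 5 := pow_le_pow_left₀ (by norm_num) e1.le _
      unfold Z
      rw [Fintype.sum_bool]
      simp only [if_true, Bool.false_eq_true, if_false]
      rw [if_pos (by simp), if_pos (by simp)]
      simp only [List.length_cons, List.length_nil]
      have e6 : (143 : ℝ) ≤ Real.exp 1 ^ 5 := le_trans (by norm_num) e5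
      rw [← e4] at e6
      norm_num
      have e7 : Real.exp (1 / 8) ≤ 2.8 := e3.trans e2.le
      linarith
  | succ k ih =>
    obtain ⟨X, P, i1, i2, i3, vis, τ, hcard, halt, hτ, hcomp, hZ⟩ := ih
    have hκ : (1 : ℝ) / 8 ≤ ((k : ℝ) + 1) / 8 := by
      have : (0 : ℝ) ≤ k := by positivity
      linarith
    have hU0 : 0 ≤ Real.exp (5 * 2 ^ k) / (16 * 2 ^ k) := by positivity
    obtain ⟨θ, hθ⟩ := level_up vis halt _ _ hκ hU0 hZ
    refine ⟨Bool × X, P × P, inferInstance, inferInstance, inferInstance, vis' vis θ,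
      up τ (2 ^ k) θ, ?_, alt_up vis halt θ, ?_, ?_, ?_⟩
    · rw [Fintype.card_prod, Fintype.card_bool, hcard, pow_succ, mul_comm]
    · have := up_lt τ (2 ^ k) hτ θ
      intro x y
      rw [pow_succ, mul_comm]
      exact this x y
    · have := complete_up vis τ (2 ^ k) hτ θ hcomp
      rw [pow_succ, mul_comm]
      exact this
    · intro v
      have h1 := hθ v
      have h2 : ((Fintype.card (Bool × X) : ℕ) : ℝ) = 2 * Fintype.card X := by
        rw [Fintype.card_prod, Fintype.card_bool]; push_cast; ring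
      rw [h2]
      have h3 : (((k + 1 : ℕ) : ℝ) + 1) / 8 = ((k : ℝ) + 1) / 8 + 1 / 8 := by
        push_cast; ring
      rw [h3]
      refine h1.trans ?_
      rw [hcard]
      push_cast
      have e2 : Real.exp 1 < 2.8 := by
        have := Real.exp_one_lt_d9; linarith
      have hp : (0 : ℝ) < 2 ^ k := by positivity
      have e4 : Real.exp (5 * 2 ^ (k + 1)) = Real.exp (5 * 2 ^ k) * Real.exp (5 * 2 ^ k) := by
        rw [← Real.exp_add]; congr 1; ring
      rw [e4, pow_succ]
      set E := Real.exp (5 * 2 ^ k) with hE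
      have hE0 : 0 < E := Real.exp_pos _
      have e5 : Real.exp 1 * (2 * 2 ^ k * (E / (16 * 2 ^ k) * (E / (16 * 2 ^ k))))
          = Real.exp 1 / 4 * (E * E / (16 * (2 ^ k * 2))) := by
        field_simp
        ring
      rw [e5]
      have h6 : 0 ≤ E * E / (16 * (2 ^ k * 2)) := by positivity
      have h7 : Real.exp 1 / 4 ≤ 1 := by linarith
      exact mul_le_of_le_one_left h6 h7

/-- in the schedule of level `k` every weakly increasing self-avoiding path is short -/
theorem bipartite_bound (k : ℕ) : ∃ (X : Type) (_ : Fintype X) (_ : DecidableEq X)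
    (τ : X → X → ℕ), Fintype.card X = 2 ^ k ∧ (∀ x y, τ x y < 2 ^ k) ∧
    ∀ v l, Inc opp (tm τ) 0 (2 ^ k) v l → (v :: l).Nodup →
      ((k : ℝ) + 1) * (l.length : ℝ) ^ 2 ≤ 40 * (2 ^ k) ^ 2 := by
  obtain ⟨X, P, i1, i2, i3, vis, τ, hcard, halt, hτ, hcomp, hZ⟩ := exists_level k
  refine ⟨X, i1, i2, τ, hcard, hτ, fun v l hl hn => ?_⟩
  obtain ⟨p, hp⟩ := hcomp v l hl hn
  have h1 := hZ v
  have h2 : Real.exp (((k : ℝ) + 1) / 8 * ((l.length : ℕ) : ℝ) ^ 2 / Fintype.card X)
      ≤ Z vis (((k : ℝ) + 1) / 8) (Fintype.card X) v := by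
    unfold Z
    have h3 := Finset.single_le_sum (s := (univ : Finset P)) (f := fun p : P =>
      if (v :: vis p v).Nodup then Real.exp (((k : ℝ) + 1) / 8 * ((vis p v).length : ℝ) ^ 2
        / Fintype.card X) else 0)
      (fun p _ => by
        split_ifs
        · exact (Real.exp_pos _).le
        · exact le_rfl) (Finset.mem_univ p)
    simp only [hp, hn, if_true] at h3
    exact h3
  have hp' : (0 : ℝ) < 2 ^ k := by positivity
  have hp1 : (1 : ℝ) ≤ 2 ^ k := one_le_pow₀ (by norm_num)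
  have h4 : Real.exp (5 * 2 ^ k) / (16 * 2 ^ k) ≤ Real.exp (5 * 2 ^ k) :=
    div_le_self (Real.exp_pos _).le (by linarith)
  have h5 := Real.exp_le_exp.mp ((h2.trans h1).trans h4)
  rw [hcard] at h5
  push_cast at h5
  rw [div_le_iff₀ hp'] at h5
  nlinarith

end Helper650Alt
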