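import Mathlib
import Pool.Agent.Helper650.Alt4

open Finset

namespace Helper650Alt

section complete
variable {X : Type} {s : ℕ}

/-- time of an edge of the complete graph on `Fin s × X` -/
def gt (τ : X → X → ℕ) (T : ℕ) (s : ℕ) (v w : Fin s × X) : ℕ :=
  if v.1 = w.1 then s * T
  else (((v.1 : ℕ) + (w.1 : ℕ)) % s) * T + (if v.1 < w.1 then τ v.2 w.2 else τ w.2 v.2)

lemma gt_symm (τ : X → X → ℕ) (T : ℕ) (v w : Fin s × X) : gt τ T s v w = gt τ T s w v := by
  unfold gt
  by_cases h : v.1 = w.1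
  · rw [if_pos h, if_pos h.symm]
  · have h' : ¬ w.1 = v.1 := fun h' => h h'.symm
    rw [if_neg h, if_neg h', add_comm (v.1 : ℕ)]
    rcases lt_or_gt_of_ne h with h1 | h1
    · rw [if_pos h1, if_neg (not_lt.mpr h1.le)]
    · rw [if_neg (not_lt.mpr h1.le), if_pos h1]

lemma gt_lt (τ : X → X → ℕ) (T : ℕ) (hτ : ∀ x y, τ x y < T) {v w : Fin s × X}
    (h : v.1 ≠ w.1) : gt τ T s v w < s * T := by
  unfold gt
  rw [if_neg h]
  have hs : 0 < s := v.1.pos
  have h1 : ((v.1 : ℕ) + (w.1 : ℕ)) % s < s := Nat.mod_lt _ hs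
  have h2 : (if v.1 < w.1 then τ v.2 w.2 else τ w.2 v.2) < T := by
    split_ifs
    · exact hτ _ _
    · exact hτ _ _
  calc ((v.1 : ℕ) + (w.1 : ℕ)) % s * T + (if v.1 < w.1 then τ v.2 w.2 else τ w.2 v.2)
      < ((v.1 : ℕ) + (w.1 : ℕ)) % s * T + T := by omega
    _ = (((v.1 : ℕ) + (w.1 : ℕ)) % s + 1) * T := by ring
    _ ≤ s * T := Nat.mul_le_mul_right _ h1

lemma gt_round (τ : X → X → ℕ) (T : ℕ) (hτ : ∀ x y, τ x y < T) {v w : Fin s × X} {ρ : ℕ}
    (hρ : ρ < s) (h1 : ρ * T ≤ gt τ T s v w) (h2 : gt τ T s v w < (ρ + 1) * T) :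
    v.1 ≠ w.1 ∧ ((v.1 : ℕ) + (w.1 : ℕ)) % s = ρ ∧
    gt τ T s v w = ρ * T + (if v.1 < w.1 then τ v.2 w.2 else τ w.2 v.2) := by
  have hne : v.1 ≠ w.1 := by
    intro h
    have h3 : gt τ T s v w = s * T := by unfold gt; rw [if_pos h]
    have h4 : (ρ + 1) * T ≤ s * T := Nat.mul_le_mul_right _ hρ
    omega
  have h3 : gt τ T s v w = (((v.1 : ℕ) + (w.1 : ℕ)) % s) * T
      + (if v.1 < w.1 then τ v.2 w.2 else τ w.2 v.2) := by unfold gt; rw [if_neg hne]
  have h2' : (if v.1 < w.1 then τ v.2 w.2 else τ w.2 v.2) < T := by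
    split_ifs
    · exact hτ _ _
    · exact hτ _ _
  have h4 : ((v.1 : ℕ) + (w.1 : ℕ)) % s = ρ := by
    generalize (if v.1 < w.1 then τ v.2 w.2 else τ w.2 v.2) = r at h3 h2'
    generalize ((v.1 : ℕ) + (w.1 : ℕ)) % s = q at h3
    rw [h3] at h1 h2
    have a1 : ρ * T < (q + 1) * T := by
      calc ρ * T ≤ q * T + r := h1
        _ < q * T + T := by omega
        _ = (q + 1) * T := by ring
    have a2 : q * T < (ρ + 1) * T := by omega
    have b1 := Nat.lt_of_mul_lt_mul_right a1
    have b2 := Nat.lt_of_mul_lt_mul_right a2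
    omega
  exact ⟨hne, h4, by rw [h3, h4]⟩

lemma mod_cancel {a b c s : ℕ} (hb : b < s) (hc : c < s) (h : (a + b) % s = (a + c) % s) :
    b = c := by
  have h1 : a + b ≡ a + c [MOD s] := h
  have h2 := Nat.ModEq.add_left_cancel' a h1
  exact Nat.ModEq.eq_of_lt_of_lt h2 hb hc

lemma round_map (τ : X → X → ℕ) (T : ℕ) (hτ : ∀ x y, τ x y < T) {ρ : ℕ} (hρ : ρ < s)
    (F : Bool → Fin s) (hF : F false < F true) (hFρ : ∀ t, ((F t : ℕ) + (F (!t) : ℕ)) % s = ρ)
    {c : ℕ} (hc : ρ * T ≤ c) {v : Bool × X} {l : List (Fin s × X)}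
    (h : Inc (fun _ _ => True) (gt τ T s) c ((ρ + 1) * T) (F v.1, v.2) l) :
    ∃ l' : List (Bool × X), l = l'.map (fun w => (F w.1, w.2)) ∧
      Inc opp (tm τ) (c - ρ * T) T v l' := by
  induction l generalizing c v with
  | nil => exact ⟨[], rfl, trivial⟩
  | cons w l ih =>
    obtain ⟨t, x⟩ := v
    obtain ⟨j, y⟩ := w
    obtain ⟨_, h2, h3, h4⟩ := h
    obtain ⟨a1, a2, a3⟩ := gt_round τ T hτ hρ (hc.trans h2) h3
    have hj : j = F (!t) := by
      apply Fin.ext
      apply mod_cancel j.isLt (F (!t)).isLt (a := (F t : ℕ))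
      rw [hFρ t]
      exact a2
    subst hj
    have ht : gt τ T s (F t, x) (F (!t), y) = ρ * T + tm τ (t, x) (!t, y) := by
      rw [a3]
      cases t
      · simp [tm, hF]
      · have : ¬ F true < F false := not_lt.mpr hF.le
        simp [tm, this]
    dsimp only at h2 h3 h4
    rw [ht] at h2 h3 h4
    obtain ⟨l', e, hl⟩ := ih (v := (!t, y)) (by omega) h4
    have h5 : (ρ + 1) * T = ρ * T + T := by ring
    refine ⟨(!t, y) :: l', by rw [e]; rfl, ⟨rfl, by omega, by omega, ?_⟩⟩
    have : ρ * T + tm τ (t, x) (!t, y) - ρ * T = tm τ (t, x) (!t, y) := by omega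
    rwa [this] at hl

lemma round_len (τ : X → X → ℕ) (T L : ℕ) (hτ : ∀ x y, τ x y < T)
    (hL : ∀ v l, Inc opp (tm τ) 0 T v l → (v :: l).Nodup → l.length ≤ L)
    {ρ : ℕ} (hρ : ρ < s) {v : Fin s × X} {l : List (Fin s × X)}
    (h : Inc (fun _ _ => True) (gt τ T s) (ρ * T) ((ρ + 1) * T) v l) (hn : (v :: l).Nodup) :
    l.length ≤ L := by
  cases l with
  | nil => simp
  | cons w l =>
    have h' := h
    obtain ⟨_, h2, h3, _⟩ := h'
    obtain ⟨a1, a2, _⟩ := gt_round τ T hτ hρ h2 h3
    set F : Bool → Fin s := fun b => if b then max v.1 w.1 else min v.1 w.1 with hFdef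
    have hF : F false < F true := by
      simp only [hFdef, if_true, Bool.false_eq_true, if_false]
      exact min_lt_max.mpr a1
    have hFρ : ∀ t, ((F t : ℕ) + (F (!t) : ℕ)) % s = ρ := by
      have e1 : ((min v.1 w.1 : Fin s) : ℕ) + ((max v.1 w.1 : Fin s) : ℕ) = v.1 + w.1 := by
        rcases le_total v.1 w.1 with h | h
        · rw [min_eq_left h, max_eq_right h]
        · rw [min_eq_right h, max_eq_left h, add_comm]
      intro t
      cases t
      · simp only [hFdef, if_true, Bool.false_eq_true, if_false, Bool.not_false]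
        rw [e1, a2]
      · simp only [hFdef, if_true, Bool.false_eq_true, if_false, Bool.not_true]
        rw [add_comm, e1, a2]
    have hv : ∃ t : Bool, F t = v.1 := by
      rcases le_total v.1 w.1 with h | h
      · exact ⟨false, by simp [hFdef, h]⟩
      · exact ⟨true, by simp [hFdef, h]⟩
    obtain ⟨t, ht⟩ := hv
    have hv2 : v = (F ((t, v.2) : Bool × X).1, ((t, v.2) : Bool × X).2) := by
      dsimp only; rw [ht]
    rw [hv2] at h hn
    obtain ⟨l', e, hl⟩ := round_map τ T hτ hρ F hF hFρ le_rfl h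
    rw [Nat.sub_self] at hl
    rw [e] at hn ⊢
    have hn' : (((t, v.2) :: l').map (fun w : Bool × X => (F w.1, w.2))).Nodup := by
      simpa using hn
    have := hL _ _ hl hn'.of_map
    simpa using this

lemma last_len [Fintype X] (τ : X → X → ℕ) (T : ℕ) (hτ : ∀ x y, τ x y < T) {b : ℕ}
    {v : Fin s × X} {l : List (Fin s × X)}
    (h : Inc (fun _ _ => True) (gt τ T s) (s * T) b v l) (hn : (v :: l).Nodup) :
    l.length ≤ Fintype.card X := by
  have h1 : ∀ w ∈ l, w.1 = v.1 := by
    clear hn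
    generalize hc : s * T = c at h
    have hc' : s * T ≤ c := hc.le
    clear hc
    induction l generalizing c v with
    | nil => intro w hw; simp at hw
    | cons u l ih =>
      obtain ⟨_, h2, h3, h4⟩ := h
      have h5 : v.1 = u.1 := by
        by_contra hne
        have := gt_lt τ T hτ hne
        omega
      intro w hw
      rcases List.mem_cons.mp hw with rfl | hw
      · exact h5.symm
      · rw [h5]
        exact ih _ h4 (hc'.trans h2) w hw
  have h2 : (l.map Prod.snd).Nodup := by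
    refine (List.nodup_map_iff_inj_on (List.nodup_cons.mp hn).2).mpr ?_
    intro a ha b hb hab
    exact Prod.ext ((h1 a ha).trans (h1 b hb).symm) hab
  have := h2.length_le_card
  simpa using this

lemma total_len [Fintype X] (τ : X → X → ℕ) (T L : ℕ) (hτ : ∀ x y, τ x y < T)
    (hL : ∀ v l, Inc opp (tm τ) 0 T v l → (v :: l).Nodup → l.length ≤ L) {b : ℕ} (m : ℕ)
    (hm : m ≤ s) {v : Fin s × X} {l : List (Fin s × X)}
    (h : Inc (fun _ _ => True) (gt τ T s) ((s - m) * T) b v l) (hn : (v :: l).Nodup) :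
    l.length ≤ m * L + Fintype.card X := by
  induction m generalizing v l with
  | zero =>
    simp only [Nat.sub_zero, zero_mul, zero_add] at h ⊢
    exact last_len τ T hτ h hn
  | succ m ih =>
    obtain ⟨l0, l1, rfl, i0, i1⟩ := Inc_split ((s - m) * T) h
    have e : s - m = (s - (m + 1)) + 1 := by omega
    have c0 : l0.length ≤ L := by
      rw [e] at i0
      exact round_len τ T L hτ hL (by omega) i0 (nodup_left hn)
    have c1 := ih (by omega) i1 (nodup_right hn)
    rw [List.length_append]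
    have : (m + 1) * L = m * L + L := by ring
    omega

end complete

section labelling

variable {n : ℕ}

/-- ranking the edges by an injective key -/
noncomputable def rank (K : Sym2 (Fin n) → ℕ) (e : Sym2 (Fin n)) : ℕ :=
  ((⊤ : SimpleGraph (Fin n)).edgeFinset.filter (fun e' => K e' ≤ K e)).card

lemma rank_mono (K : Sym2 (Fin n) → ℕ) {e e' : Sym2 (Fin n)} (h : K e ≤ K e') :
    rank K e ≤ rank K e' := by
  refine Finset.card_le_card ?_
  intro a ha
  rw [Finset.mem_filter] at ha ⊢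
  exact ⟨ha.1, ha.2.trans h⟩

lemma rank_strict (K : Sym2 (Fin n) → ℕ) {e e' : Sym2 (Fin n)} (h : K e < K e')
    (he' : e' ∈ (⊤ : SimpleGraph (Fin n)).edgeFinset) : rank K e < rank K e' := by
  refine Finset.card_lt_card ?_
  rw [Finset.ssubset_iff_of_subset]
  · refine ⟨e', ?_, ?_⟩
    · rw [Finset.mem_filter]; exact ⟨he', le_rfl⟩
    · rw [Finset.mem_filter, not_and, not_le]; exact fun _ => h
  · intro a ha
    rw [Finset.mem_filter] at ha ⊢
    exact ⟨ha.1, ha.2.trans h.le⟩

lemma rank_bij (K : Sym2 (Fin n) → ℕ) (hK : Function.Injective K) :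
    Set.BijOn (rank K) (⊤ : SimpleGraph (Fin n)).edgeSet (Set.Icc 1 (n.choose 2)) := by
  classical
  have hcard : (⊤ : SimpleGraph (Fin n)).edgeFinset.card = n.choose 2 := by
    rw [SimpleGraph.card_edgeFinset_top_eq_card_choose_two, Fintype.card_fin]
  have hmaps : ∀ e ∈ (⊤ : SimpleGraph (Fin n)).edgeFinset,
      rank K e ∈ Finset.Icc 1 (n.choose 2) := by
    intro e he
    rw [Finset.mem_Icc]
    constructor
    · refine Finset.card_pos.mpr ⟨e, ?_⟩
      rw [Finset.mem_filter]; exact ⟨he, le_rfl⟩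
    · rw [← hcard]
      exact Finset.card_filter_le _ _
  have hinj : Set.InjOn (rank K) ((⊤ : SimpleGraph (Fin n)).edgeFinset : Set (Sym2 (Fin n))) := by
    intro e he e' he' h
    by_contra hne
    have hne' : K e ≠ K e' := fun h' => hne (hK h')
    rcases lt_or_gt_of_ne hne' with h1 | h1
    · exact absurd h (rank_strict K h1 he').ne
    · exact absurd h.symm (rank_strict K h1 he).ne
  have himg : (⊤ : SimpleGraph (Fin n)).edgeFinset.image (rank K)
      = Finset.Icc 1 (n.choose 2) := by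
    refine Finset.eq_of_subset_of_card_le ?_ ?_
    · intro a ha
      obtain ⟨e, he, rfl⟩ := Finset.mem_image.mp ha
      exact hmaps e he
    · rw [Finset.card_image_of_injOn hinj, hcard, Nat.card_Icc]
      omega
  refine ⟨?_, ?_, ?_⟩
  · intro e he
    have := hmaps e (by simpa using he)
    simpa using this
  · intro e he e' he' h
    exact hinj (by simpa using he) (by simpa using he') h
  · intro m hm
    have : m ∈ (⊤ : SimpleGraph (Fin n)).edgeFinset.image (rank K) := by
      rw [himg]; simpa using hm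
    obtain ⟨e, he, rfl⟩ := Finset.mem_image.mp this
    exact ⟨e, by simpa using he, rfl⟩

lemma walk_inc {V : Type} (g : V → V → ℕ) (b : ℕ) (ι : Fin n → V)
    (hb : ∀ u v, g (ι u) (ι v) < b) (lab : Sym2 (Fin n) → ℕ)
    (hlab : ∀ u v u' v', lab s(u, v) < lab s(u', v') → g (ι u) (ι v) ≤ g (ι u') (ι v'))
    {u v : Fin n} (w : (⊤ : SimpleGraph (Fin n)).Walk u v)
    (hw : (w.edges.map lab).Pairwise (· < ·)) (a : ℕ)
    (ha : ∀ x y, s(x, y) ∈ w.edges → a ≤ g (ι x) (ι y)) :
    Inc (fun _ _ => True) g a b (ι u) (w.support.tail.map ι) := by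
  induction w generalizing a with
  | nil => trivial
  | @cons u v' v h p ih =>
    rw [SimpleGraph.Walk.support_cons, List.tail_cons, ← SimpleGraph.Walk.cons_tail_support p,
      List.map_cons]
    rw [SimpleGraph.Walk.edges_cons] at hw ha
    rw [List.map_cons, List.pairwise_cons] at hw
    refine ⟨trivial, ha _ _ (by simp), hb _ _, ?_⟩
    refine ih hw.2 _ ?_
    intro x y hxy
    exact hlab _ _ _ _ (hw.1 _ (List.mem_map_of_mem hxy))

end labelling

/-- For every `c > 0` and all large `n` the complete graph `K_n` has a labelling in which every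
increasing path has length less than `c n`. -/
theorem main (c : ℝ) (hc : 0 < c) : ∃ n₀ : ℕ, ∀ n ≥ n₀, ∃ lab : Sym2 (Fin n) → ℕ,
    Set.BijOn lab (⊤ : SimpleGraph (Fin n)).edgeSet (Set.Icc 1 (n.choose 2)) ∧
    ∀ (u v : Fin n) (w : (⊤ : SimpleGraph (Fin n)).Walk u v), w.IsPath →
      (w.edges.map lab).Pairwise (· < ·) → (w.length : ℝ) < c * n := by
  classical
  obtain ⟨k, hk⟩ := exists_nat_gt (640 / c ^ 2)
  obtain ⟨X, i1, i2, τ, hcard, hτ, hbd⟩ := bipartite_bound k
  set M : ℕ := 2 ^ k with hM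
  have hM0 : 0 < M := by positivity
  have hM0' : (0 : ℝ) < M := by exact_mod_cast hM0
  -- bound in the bipartite schedule
  have hL : ∀ v l, Inc opp (tm τ) 0 M v l → (v :: l).Nodup → l.length ≤ ⌊c / 4 * M⌋₊ := by
    intro v l hl hn
    refine Nat.le_floor ?_
    have h1 := hbd v l hl hn
    have h2 : (640 : ℝ) / c ^ 2 < k + 1 := by linarith
    have hc2 : 0 < c ^ 2 := by positivity
    rw [div_lt_iff₀ hc2] at h2
    have hM' : ((2 : ℝ) ^ k) = M := by rw [hM]; push_cast; ring
    rw [hM'] at h1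
    have h3 : ((l.length : ℕ) : ℝ) ^ 2 ≤ (c / 4 * M) ^ 2 := by
      have h4 : 640 * ((l.length : ℕ) : ℝ) ^ 2 ≤ c ^ 2 * (40 * (M : ℝ) ^ 2) := by
        calc 640 * ((l.length : ℕ) : ℝ) ^ 2 ≤ ((k : ℝ) + 1) * c ^ 2 * ((l.length : ℕ) : ℝ) ^ 2 :=
              mul_le_mul_of_nonneg_right h2.le (by positivity)
          _ = c ^ 2 * (((k : ℝ) + 1) * ((l.length : ℕ) : ℝ) ^ 2) := by ring
          _ ≤ c ^ 2 * (40 * (M : ℝ) ^ 2) := mul_le_mul_of_nonneg_left h1 hc2.le
      nlinarith
    exact (sq_le_sq₀ (by positivity) (by positivity)).mp h3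
  obtain ⟨n₀, hn₀⟩ := exists_nat_gt ((c / 4 * M + M) * (4 / (3 * c)))
  refine ⟨n₀, fun n hn => ?_⟩
  set s : ℕ := n / M + 1 with hs
  have hsM : n ≤ s * M := by
    have := Nat.div_add_mod n M
    have h2 := Nat.mod_lt n hM0
    have h3 : s * M = M * (n / M) + M := by rw [hs]; ring
    omega
  have hsM2 : s * M ≤ n + M := by
    have := Nat.div_mul_le_self n M
    have h3 : s * M = n / M * M + M := by rw [hs]; ring
    omega
  have hemb : Nonempty (Fin n ↪ Fin s × X) := by
    refine Function.Embedding.nonempty_of_card_le ?_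
    rw [Fintype.card_fin, Fintype.card_prod, Fintype.card_fin, hcard]
    exact hsM
  obtain ⟨ι⟩ := hemb
  -- the key
  set G : Sym2 (Fin n) → ℕ := Sym2.lift ⟨fun u v => gt τ M s (ι u) (ι v),
    fun u v => gt_symm τ M (ι u) (ι v)⟩ with hG
  set B : ℕ := Fintype.card (Sym2 (Fin n)) with hB
  set K : Sym2 (Fin n) → ℕ := fun e => G e * B + (Fintype.equivFin (Sym2 (Fin n)) e : ℕ) with hK
  have hKinj : Function.Injective K := by
    intro e e' h
    simp only [hK] at h
    have h1 : (Fintype.equivFin (Sym2 (Fin n)) e : ℕ) < B := Fin.isLt _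
    have h2 : (Fintype.equivFin (Sym2 (Fin n)) e' : ℕ) < B := Fin.isLt _
    have h3 : (Fintype.equivFin (Sym2 (Fin n)) e : ℕ) = (Fintype.equivFin (Sym2 (Fin n)) e' : ℕ) := by
      have e1 : (G e * B + (Fintype.equivFin (Sym2 (Fin n)) e : ℕ)) % B
          = (Fintype.equivFin (Sym2 (Fin n)) e : ℕ) := by
        rw [Nat.add_comm, Nat.add_mul_mod_self_right, Nat.mod_eq_of_lt h1]
      have e2 : (G e' * B + (Fintype.equivFin (Sym2 (Fin n)) e' : ℕ)) % B
          = (Fintype.equivFin (Sym2 (Fin n)) e' : ℕ) := by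
        rw [Nat.add_comm, Nat.add_mul_mod_self_right, Nat.mod_eq_of_lt h2]
      rw [← e1, ← e2, h]
    exact (Fintype.equivFin (Sym2 (Fin n))).injective (Fin.ext h3)
  have hKG : ∀ e e', rank K e < rank K e' → G e ≤ G e' := by
    intro e e' h
    have h1 : K e < K e' := by
      by_contra h'
      exact absurd (rank_mono K (not_lt.mp h')) (not_le.mpr h)
    by_contra h2
    rw [not_le] at h2
    have h3 : (Fintype.equivFin (Sym2 (Fin n)) e' : ℕ) < B := Fin.isLt _
    have h4 : (G e' + 1) * B ≤ G e * B := Nat.mul_le_mul_right _ h2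
    have h5 : (G e' + 1) * B = G e' * B + B := by ring
    simp only [hK] at h1
    omega
  refine ⟨rank K, rank_bij K hKinj, ?_⟩
  intro u v w hw hinc
  have hb : ∀ x y : Fin n, gt τ M s (ι x) (ι y) < s * M + 1 := by
    intro x y
    by_cases hxy : (ι x).1 = (ι y).1
    · unfold gt; rw [if_pos hxy]; omega
    · have := gt_lt τ M hτ hxy; omega
  have hI := walk_inc (gt τ M s) (s * M + 1) ι hb (rank K)
    (fun x y x' y' h => hKG s(x, y) s(x', y') h) w hinc 0 (fun _ _ _ => Nat.zero_le _)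
  have hN : (ι u :: w.support.tail.map ι).Nodup := by
    have h1 : (w.support.map ι).Nodup := hw.support_nodup.map ι.injective
    rw [← SimpleGraph.Walk.cons_tail_support w, List.map_cons] at h1
    exact h1
  have hlen := total_len τ M ⌊c / 4 * M⌋₊ hτ hL s le_rfl (b := s * M + 1)
    (by rw [Nat.sub_self, zero_mul]; exact hI) hN
  have hlen2 : (w.support.tail.map ι).length = w.length := by
    rw [List.length_map, List.length_tail, SimpleGraph.Walk.length_support]
    simp
  rw [hlen2, hcard] at hlen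
  have f1 : ((⌊c / 4 * M⌋₊ : ℕ) : ℝ) ≤ c / 4 * M := Nat.floor_le (by positivity)
  have f2 : (w.length : ℝ) ≤ s * (⌊c / 4 * M⌋₊ : ℕ) + M := by exact_mod_cast hlen
  have f3 : (s : ℝ) * M ≤ n + M := by exact_mod_cast hsM2
  have f4 : (w.length : ℝ) ≤ c / 4 * (n + M) + M := by
    calc (w.length : ℝ) ≤ s * (⌊c / 4 * M⌋₊ : ℕ) + M := f2
      _ ≤ s * (c / 4 * M) + M := by
        have : (0 : ℝ) ≤ s := by positivity
        nlinarith
      _ = c / 4 * (s * M) + M := by ring
      _ ≤ c / 4 * (n + M) + M := by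
        have : 0 ≤ c / 4 := by positivity
        nlinarith
  have f5 : (c / 4 * M + M) * (4 / (3 * c)) < n := by
    have : (n₀ : ℝ) ≤ n := by exact_mod_cast hn
    linarith
  have f6 : c / 4 * M + M < 3 * c / 4 * n := by
    rw [mul_div_assoc', div_lt_iff₀ (by positivity)] at f5
    nlinarith
  nlinarith

end Helper650Alt
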