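import Mathlib

set_option autoImplicit false

namespace Pool.Agent.Helper650.CT

open Finset Filter

/-- digit extraction: for large `β`, no nonzero vector of a finite family is killed by the powers of `β` -/
theorem extract {ι : Type} [Fintype ι] [DecidableEq ι] (idx : ι → ℕ) (hidx : Function.Injective idx)
    (E : Set (ι → ℝ)) (hE : E.Finite) :
    ∀ᶠ β : ℝ in atTop, ∀ e ∈ E, (∑ i, e i * β ^ idx i = 0) → e = 0 := by
  rw [Filter.eventually_all_finite hE]
  intro e _
  by_cases he : e = 0
  · exact Filter.Eventually.of_forall (fun β _ => he)
  · have hQ : (∑ i, Polynomial.C (e i) * Polynomial.X ^ idx i : Polynomial ℝ) ≠ 0 := by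
      intro h0
      apply he
      funext j
      have := congrArg (fun Q => Polynomial.coeff Q (idx j)) h0
      simp only [Polynomial.finset_sum_coeff, Polynomial.coeff_C_mul_X_pow,
        Polynomial.coeff_zero] at this
      rw [Finset.sum_eq_single j] at this
      · simpa using this
      · intro i _ hij
        rw [if_neg]
        intro h
        exact hij (hidx h.symm)
      · intro h; exact absurd (Finset.mem_univ j) h
    filter_upwards [Polynomial.eventually_no_roots _ hQ] with β hβ hsum
    exfalso
    apply hβ
    rw [Polynomial.IsRoot, Polynomial.eval_finset_sum]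
    simpa using hsum

end Pool.Agent.Helper650.CT
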