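import Mathlib
import Pool.Agent.Helper650.CT1

set_option autoImplicit false

namespace Pool.Agent.Helper650.CT

open Finset Filter

/-- digit at position `m` of a state: `none` is `0`, `some (m, false)` is `lo`, `some (m, true)` is `hi` -/
noncomputable def dg {w : ℕ} (lo hi : ℝ) (m : Fin w) (o : Option (Fin w × Bool)) : ℝ :=
  match o with
  | none => 0
  | some (m', b) => if m' = m then (if b then hi else lo) else 0

theorem dg_none {w : ℕ} (lo hi : ℝ) (m : Fin w) : dg lo hi m none = 0 := rfl

theorem dg_some {w : ℕ} (lo hi : ℝ) (m m' : Fin w) (b : Bool) :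
    dg lo hi m (some (m', b)) = if m' = m then (if b then hi else lo) else 0 := rfl

theorem dg_inj {w : ℕ} (lo hi : Fin w → ℝ) (hlo : ∀ m, lo m < 0) (hhi : ∀ m, 0 < hi m)
    (o o' : Option (Fin w × Bool)) (h : ∀ m, dg (lo m) (hi m) m o = dg (lo m) (hi m) m o') :
    o = o' := by
  rcases o with _ | ⟨m1, b1⟩ <;> rcases o' with _ | ⟨m2, b2⟩
  · rfl
  · exfalso
    have := h m2
    rw [dg_none, dg_some, if_pos rfl] at this
    have h1 := hlo m2; have h2 := hhi m2
    cases b2 <;> simp at this <;> linarith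
  · exfalso
    have := h m1
    rw [dg_none, dg_some, if_pos rfl] at this
    have h1 := hlo m1; have h2 := hhi m1
    cases b1 <;> simp at this <;> linarith
  · have := h m1
    rw [dg_some, dg_some, if_pos rfl] at this
    have h1 := hlo m1; have h2 := hhi m1
    by_cases h12 : m2 = m1
    · subst h12
      rw [if_pos rfl] at this
      cases b1 <;> cases b2 <;> simp at this ⊢ <;> linarith
    · rw [if_neg h12] at this
      cases b1 <;> simp at this <;> linarith

theorem blk {w : ℕ} (p q : Fin w → ℝ) (hp : ∀ m, 0 < p m) (hq : ∀ m, 0 < q m) (l : ℝ)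
    (hl0 : 0 < l) (hl1 : l < 1) (o1 o2 o3 : Option (Fin w × Bool))
    (h : ∀ m, dg (-p m) (q m) m o2 = (1 - l) * dg (-p m) (q m) m o1 + l * dg (-p m) (q m) m o3) :
    (o1 = o2 ∧ o3 = o2) ∨ ∃ m b, o1 = some (m, b) ∧ o2 = none ∧ o3 = some (m, !b) := by
  have key : ∀ m : Fin w, ∀ o : Option (Fin w × Bool), dg (-p m) (q m) m o = 0 ∨
      dg (-p m) (q m) m o = - p m ∨ dg (-p m) (q m) m o = q m := by
    intro m o
    rcases o with _ | ⟨m1, b1⟩
    · left; rfl
    · rw [dg_some]
      by_cases hm : m1 = m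
      · rw [if_pos hm]; cases b1 <;> simp
      · rw [if_neg hm]; left; rfl
  have hlo : ∀ m, -p m < 0 := fun m => by linarith [hp m]
  by_cases h13 : o1 = o3
  · left
    subst h13
    have : o2 = o1 := dg_inj _ _ hlo hq _ _ (fun m => by rw [h m]; ring)
    exact ⟨this.symm, this.symm⟩
  · right
    -- find the position where they differ
    have step : ∀ m, dg (-p m) (q m) m o1 ≠ dg (-p m) (q m) m o3 →
        dg (-p m) (q m) m o1 ≠ 0 ∧ dg (-p m) (q m) m o3 ≠ 0 ∧ dg (-p m) (q m) m o2 = 0 := by
      intro m hne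
      have hm := h m
      have hpm := hp m; have hqm := hq m
      have hlp := mul_pos hl0 hpm
      have hlq := mul_pos hl0 hqm
      have hlp' := mul_pos (sub_pos.2 hl1) hpm
      have hlq' := mul_pos (sub_pos.2 hl1) hqm
      rcases key m o1 with h1 | h1 | h1 <;> rcases key m o3 with h3 | h3 | h3 <;>
        rcases key m o2 with h2 | h2 | h2 <;> rw [h1, h3] at hne <;> rw [h1, h2, h3] at hm <;>
        first
          | exact absurd rfl hne
          | (exfalso; nlinarith)
          | (rw [h1, h2, h3]; refine ⟨?_, ?_, rfl⟩ <;> intro hh <;> linarith)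
    obtain ⟨m0, hm0⟩ : ∃ m, dg (-p m) (q m) m o1 ≠ dg (-p m) (q m) m o3 := by
      by_contra hcon
      push Not at hcon
      exact h13 (dg_inj _ _ hlo hq _ _ hcon)
    obtain ⟨h1, h3, h2⟩ := step m0 hm0
    rcases o1 with _ | ⟨m1, b1⟩
    · exact absurd (dg_none _ _ _) h1
    rcases o3 with _ | ⟨m3, b3⟩
    · exact absurd (dg_none _ _ _) h3
    have hm1 : m1 = m0 := by
      by_contra hh; rw [dg_some, if_neg hh] at h1; exact h1 rfl
    have hm3 : m3 = m0 := by
      by_contra hh; rw [dg_some, if_neg hh] at h3; exact h3 rfl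
    subst hm1
    subst hm3
    refine ⟨m3, b1, rfl, ?_, ?_⟩
    · refine dg_inj _ _ hlo hq _ _ (fun m => ?_)
      rw [dg_none]
      by_cases hm : m3 = m
      · subst hm; exact h2
      · rw [h m, dg_some, dg_some, if_neg hm, if_neg hm]; ring
    · have : b1 ≠ b3 := by
        intro hb; subst hb; exact h13 rfl
      cases b1 <;> cases b3 <;> simp at this ⊢

end Pool.Agent.Helper650.CT
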