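import Mathlib
import Pool.Agent.Helper650.CT2

set_option autoImplicit false

namespace Pool.Agent.Helper650.CT

open Finset Filter

/-- index of the pair (block, type) -/
def ix {t w : ℕ} (k : Fin t × Fin w) : ℕ := k.1 * w + k.2

theorem ix_lt {t w : ℕ} (k : Fin t × Fin w) : ix k < t * w := by
  unfold ix
  have h1 := k.1.2
  have h2 := k.2.2
  calc (k.1 : ℕ) * w + k.2 < (k.1 : ℕ) * w + w := by omega
    _ = ((k.1 : ℕ) + 1) * w := by ring
    _ ≤ t * w := Nat.mul_le_mul_right _ (by omega)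

theorem ix_lt_of_block {t w : ℕ} (k k' : Fin t × Fin w) (h : k.1 < k'.1) : ix k < ix k' := by
  unfold ix
  have h2 := k.2.2
  have h3 : (k.1 : ℕ) < k'.1 := h
  calc (k.1 : ℕ) * w + k.2 < (k.1 : ℕ) * w + w := by omega
    _ = ((k.1 : ℕ) + 1) * w := by ring
    _ ≤ (k'.1 : ℕ) * w := Nat.mul_le_mul_right _ (by omega)
    _ ≤ (k'.1 : ℕ) * w + k'.2 := by omega

theorem ix_inj {t w : ℕ} : Function.Injective (ix : Fin t × Fin w → ℕ) := by
  intro k k' h
  rcases lt_trichotomy k.1 k'.1 with h1 | h1 | h1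
  · exact absurd h (ix_lt_of_block _ _ h1).ne
  · refine Prod.ext h1 (Fin.ext ?_)
    unfold ix at h
    rw [h1] at h
    omega
  · exact absurd h (ix_lt_of_block _ _ h1).ne'

variable {t w : ℕ}

/-- short lengths -/
noncomputable def pw (t w : ℕ) (γ : ℝ) (k : Fin t × Fin w) : ℝ := γ ^ (t * w) + γ ^ ix k
/-- long lengths -/
noncomputable def qw (t w : ℕ) (γ : ℝ) (k : Fin t × Fin w) : ℝ := γ ^ (t * w) + 2 * γ ^ ix k

/-- first coordinate -/
noncomputable def X (γ : ℝ) (τ : SignType) (g : Fin t → Option (Fin w × Bool)) : ℝ :=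
  (τ : ℝ) * γ ^ (t * w) + ∑ k : Fin t × Fin w, dg (-1) 2 k.2 (g k.1) * γ ^ ix k

/-- second coordinate -/
noncomputable def Y (γ β : ℝ) (g : Fin t → Option (Fin w × Bool)) : ℝ :=
  ∑ k : Fin t × Fin w, dg (-pw t w γ k) (qw t w γ k) k.2 (g k.1) * β ^ ix k

/-- the point with given data -/
noncomputable def pt (γ β : ℝ) (τ : SignType) (g : Fin t → Option (Fin w × Bool)) : ℝ × ℝ :=
  (X γ τ g, Y γ β g)

/-- good first parameter -/
def GoodG (t w : ℕ) (γ : ℝ) : Prop :=
  2 < γ ∧ ∀ (τ τ' : SignType) (g g' : Fin t → Option (Fin w × Bool)),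
    X γ τ g = X γ τ' g' → τ = τ' ∧ g = g'

theorem sign_cast_inj (τ τ' : SignType) (h : (τ : ℝ) = (τ' : ℝ)) : τ = τ' := by
  cases τ <;> cases τ' <;> simp at h ⊢ <;> norm_num at h

theorem exists_goodG (t w : ℕ) : ∃ γ : ℝ, GoodG t w γ := by
  classical
  let idx : Option (Fin t × Fin w) → ℕ := fun o => match o with
    | none => t * w
    | some k => ix k
  have hidx : Function.Injective idx := by
    intro o o' h
    rcases o with _ | k <;> rcases o' with _ | k'
    · rfl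
    · exact absurd h (ix_lt k').ne'
    · exact absurd h (ix_lt k).ne
    · exact congrArg some (ix_inj h)
  let vec : (SignType × (Fin t → Option (Fin w × Bool))) × (SignType × (Fin t → Option (Fin w × Bool)))
      → (Option (Fin t × Fin w) → ℝ) := fun u o => match o with
    | none => (u.1.1 : ℝ) - (u.2.1 : ℝ)
    | some k => dg (-1) 2 k.2 (u.1.2 k.1) - dg (-1) 2 k.2 (u.2.2 k.1)
  have h1 := extract idx hidx (Set.range vec) (Set.finite_range vec)
  obtain ⟨γ, h2, h3⟩ := (h1.and (eventually_gt_atTop (2 : ℝ))).exists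
  refine ⟨γ, h3, ?_⟩
  intro τ τ' g g' hX
  have h4 := h2 (vec ((τ, g), (τ', g'))) ⟨_, rfl⟩ (by
    rw [Fintype.sum_option]
    simp only [vec, idx]
    have : ∀ k : Fin t × Fin w, (dg (-1) 2 k.2 (g k.1) - dg (-1) 2 k.2 (g' k.1)) * γ ^ ix k
        = dg (-1) 2 k.2 (g k.1) * γ ^ ix k - dg (-1) 2 k.2 (g' k.1) * γ ^ ix k := fun k => by ring
    simp only [this, Finset.sum_sub_distrib]
    unfold X at hX
    linarith)
  refine ⟨sign_cast_inj _ _ ?_, ?_⟩
  · have := congrFun h4 none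
    simp only [vec, Pi.zero_apply] at this
    linarith
  · funext s
    refine dg_inj (fun _ => (-1 : ℝ)) (fun _ => 2) (fun _ => by norm_num) (fun _ => by norm_num)
      _ _ (fun m => ?_)
    have := congrFun h4 (some (s, m))
    simp only [vec, Pi.zero_apply] at this
    linarith

/-- good second parameter -/
def GoodB (t w : ℕ) (γ β : ℝ) : Prop :=
  1 < β ∧
  (∀ i j k : Fin t × Fin w, ix i < ix j → ix j < ix k →
    pw t w γ j * β ^ ix j < (pw t w γ j - pw t w γ i) * β ^ ix k ∧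
    qw t w γ j * β ^ ix j < (qw t w γ j - qw t w γ i) * β ^ ix k) ∧
  (∀ (τ1 τ2 τ3 : SignType) (g1 g2 g3 : Fin t → Option (Fin w × Bool)),
    (X γ τ2 g2 - X γ τ1 g1) * (Y γ β g3 - Y γ β g1)
      = (X γ τ3 g3 - X γ τ1 g1) * (Y γ β g2 - Y γ β g1) →
    ∀ k : Fin t × Fin w,
      (X γ τ2 g2 - X γ τ1 g1) * (dg (-pw t w γ k) (qw t w γ k) k.2 (g3 k.1)
          - dg (-pw t w γ k) (qw t w γ k) k.2 (g1 k.1))
      = (X γ τ3 g3 - X γ τ1 g1) * (dg (-pw t w γ k) (qw t w γ k) k.2 (g2 k.1)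
          - dg (-pw t w γ k) (qw t w γ k) k.2 (g1 k.1)))

theorem growth_ev (a b : ℝ) (ha : 0 < a) (hb : 0 < b) (i j : ℕ) (hij : i < j) :
    ∀ᶠ β : ℝ in atTop, a * β ^ i < b * β ^ j := by
  filter_upwards [eventually_gt_atTop (1 : ℝ), eventually_gt_atTop (a / b)] with β h1 h2
  have h3 : β ^ (i + 1) ≤ β ^ j := pow_le_pow_right₀ h1.le hij
  have h4 : 0 < β ^ i := by positivity
  have h5 : a < b * β := by
    rw [div_lt_iff₀ hb] at h2; linarith
  calc a * β ^ i < (b * β) * β ^ i := mul_lt_mul_of_pos_right h5 h4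
    _ = b * β ^ (i + 1) := by ring
    _ ≤ b * β ^ j := mul_le_mul_of_nonneg_left h3 hb.le

theorem exists_goodB (t w : ℕ) (γ : ℝ) (hγ : 2 < γ) : ∃ β : ℝ, GoodB t w γ β := by
  classical
  let vec : (SignType × (Fin t → Option (Fin w × Bool))) × (SignType × (Fin t → Option (Fin w × Bool)))
      × (SignType × (Fin t → Option (Fin w × Bool)))
      → (Fin t × Fin w → ℝ) := fun u k =>
      (X γ u.2.1.1 u.2.1.2 - X γ u.1.1 u.1.2) * (dg (-pw t w γ k) (qw t w γ k) k.2 (u.2.2.2 k.1)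
          - dg (-pw t w γ k) (qw t w γ k) k.2 (u.1.2 k.1))
      - (X γ u.2.2.1 u.2.2.2 - X γ u.1.1 u.1.2) * (dg (-pw t w γ k) (qw t w γ k) k.2 (u.2.1.2 k.1)
          - dg (-pw t w γ k) (qw t w γ k) k.2 (u.1.2 k.1))
  have h1 := extract (ix : Fin t × Fin w → ℕ) ix_inj (Set.range vec) (Set.finite_range vec)
  have hg0 : (0 : ℝ) < γ := by linarith
  have hpos : ∀ n : ℕ, 0 < γ ^ n := fun n => by positivity
  have hlt : ∀ i j : Fin t × Fin w, ix i < ix j → γ ^ ix i < γ ^ ix j :=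
    fun i j h => pow_lt_pow_right₀ (by linarith) h
  have h2 : ∀ᶠ β : ℝ in atTop, ∀ i j k : Fin t × Fin w, ix i < ix j → ix j < ix k →
    pw t w γ j * β ^ ix j < (pw t w γ j - pw t w γ i) * β ^ ix k ∧
    qw t w γ j * β ^ ix j < (qw t w γ j - qw t w γ i) * β ^ ix k := by
    rw [Filter.eventually_all]; intro i
    rw [Filter.eventually_all]; intro j
    rw [Filter.eventually_all]; intro k
    by_cases hij : ix i < ix j
    · by_cases hjk : ix j < ix k
      · have e1 := growth_ev (pw t w γ j) (pw t w γ j - pw t w γ i)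
          (by unfold pw; have := hpos (t*w); have := hpos (ix j); linarith)
          (by unfold pw; have := hlt i j hij; linarith) _ _ hjk
        have e2 := growth_ev (qw t w γ j) (qw t w γ j - qw t w γ i)
          (by unfold qw; have := hpos (t*w); have := hpos (ix j); linarith)
          (by unfold qw; have := hlt i j hij; linarith) _ _ hjk
        filter_upwards [e1, e2] with β h3 h4 _ _
        exact ⟨h3, h4⟩
      · exact Filter.Eventually.of_forall (fun β _ h => absurd h hjk)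
    · exact Filter.Eventually.of_forall (fun β h _ => absurd h hij)
  obtain ⟨β, ⟨h3, h4⟩, h5⟩ := ((h1.and h2).and (eventually_gt_atTop (1 : ℝ))).exists
  refine ⟨β, h5, h4, ?_⟩
  intro τ1 τ2 τ3 g1 g2 g3 hdet k
  have h6 := h3 (vec ((τ1, g1), (τ2, g2), (τ3, g3))) ⟨_, rfl⟩ (by
    simp only [vec]
    have e : ∀ k : Fin t × Fin w, ((X γ τ2 g2 - X γ τ1 g1) *
        (dg (-pw t w γ k) (qw t w γ k) k.2 (g3 k.1) - dg (-pw t w γ k) (qw t w γ k) k.2 (g1 k.1)) -
        (X γ τ3 g3 - X γ τ1 g1) *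
        (dg (-pw t w γ k) (qw t w γ k) k.2 (g2 k.1) - dg (-pw t w γ k) (qw t w γ k) k.2 (g1 k.1)))
        * β ^ ix k
        = (X γ τ2 g2 - X γ τ1 g1) * (dg (-pw t w γ k) (qw t w γ k) k.2 (g3 k.1) * β ^ ix k)
        - (X γ τ2 g2 - X γ τ1 g1) * (dg (-pw t w γ k) (qw t w γ k) k.2 (g1 k.1) * β ^ ix k)
        - (X γ τ3 g3 - X γ τ1 g1) * (dg (-pw t w γ k) (qw t w γ k) k.2 (g2 k.1) * β ^ ix k)
        + (X γ τ3 g3 - X γ τ1 g1) * (dg (-pw t w γ k) (qw t w γ k) k.2 (g1 k.1) * β ^ ix k) :=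
      fun k => by ring
    simp only [e, Finset.sum_add_distrib, Finset.sum_sub_distrib, ← Finset.mul_sum]
    unfold Y at hdet
    linarith)
  have := congrFun h6 k
  simp only [vec, Pi.zero_apply] at this
  linarith

end Pool.Agent.Helper650.CT
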