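import Mathlib
import Pool.Agent.Helper650.CT3

set_option autoImplicit false

namespace Pool.Agent.Helper650.CT

open Finset Filter

variable {t w : ℕ}

/-- the data used: one empty block for the middle class, none for the other two classes -/
def Valid (τ : SignType) (g : Fin t → Option (Fin w × Bool)) : Prop :=
  (τ = 0 ∧ ∃ s, g s = none ∧ ∀ s', s' ≠ s → g s' ≠ none) ∨ (τ ≠ 0 ∧ ∀ s, g s ≠ none)

/-- three data on one of the designed lines -/
def LineRel (s : Fin t) (m : Fin w) (g1 g2 g3 : Fin t → Option (Fin w × Bool)) : Prop :=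
  g1 s = some (m, false) ∧ g2 s = none ∧ g3 s = some (m, true) ∧
    ∀ s', s' ≠ s → g1 s' = g2 s' ∧ g3 s' = g2 s'

theorem sum_diff (lo hi c : Fin t × Fin w → ℝ) (s : Fin t) (m : Fin w) (b : Bool)
    (g g' : Fin t → Option (Fin w × Bool)) (hg : g s = some (m, b)) (hg' : g' s = none)
    (hr : ∀ s', s' ≠ s → g s' = g' s') :
    (∑ k : Fin t × Fin w, dg (lo k) (hi k) k.2 (g k.1) * c k)
      - ∑ k : Fin t × Fin w, dg (lo k) (hi k) k.2 (g' k.1) * c k
      = (if b then hi (s, m) else lo (s, m)) * c (s, m) := by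
  rw [← Finset.sum_sub_distrib, Finset.sum_eq_single (s, m)]
  · simp only
    rw [hg, hg', dg_some, dg_none, if_pos rfl]; ring
  · rintro ⟨s', m'⟩ _ hne
    simp only
    by_cases hs : s' = s
    · subst hs
      rw [hg, hg', dg_some, dg_none, if_neg (fun h => hne (by rw [h]))]; ring
    · rw [hr s' hs]; ring
  · intro h; exact absurd (Finset.mem_univ _) h

theorem X_diff (γ : ℝ) (τ τ' : SignType) (s : Fin t) (m : Fin w) (b : Bool)
    (g g' : Fin t → Option (Fin w × Bool)) (hg : g s = some (m, b)) (hg' : g' s = none)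
    (hr : ∀ s', s' ≠ s → g s' = g' s') :
    X γ τ g - X γ τ' g' = ((τ : ℝ) - (τ' : ℝ)) * γ ^ (t * w)
      + (if b then 2 else -1) * γ ^ ix (s, m) := by
  have := sum_diff (fun _ => (-1 : ℝ)) (fun _ => 2) (fun k => γ ^ ix k) s m b g g' hg hg' hr
  unfold X
  linarith

theorem Y_diff (γ β : ℝ) (s : Fin t) (m : Fin w) (b : Bool)
    (g g' : Fin t → Option (Fin w × Bool)) (hg : g s = some (m, b)) (hg' : g' s = none)
    (hr : ∀ s', s' ≠ s → g s' = g' s') :
    Y γ β g - Y γ β g' =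
      (if b then qw t w γ (s, m) else -pw t w γ (s, m)) * β ^ ix (s, m) := by
  have := sum_diff (fun k => -pw t w γ k) (fun k => qw t w γ k) (fun k => β ^ ix k) s m b g g'
    hg hg' hr
  unfold Y
  linarith

theorem pw_pos (γ : ℝ) (hγ : 2 < γ) (k : Fin t × Fin w) : 0 < pw t w γ k := by
  unfold pw; positivity

theorem qw_pos (γ : ℝ) (hγ : 2 < γ) (k : Fin t × Fin w) : 0 < qw t w γ k := by
  unfold qw; positivity

theorem big (γ : ℝ) (hγ : 2 < γ) (k : Fin t × Fin w) : 2 * γ ^ ix k < γ ^ (t * w) := by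
  have h1 : γ ^ (ix k + 1) ≤ γ ^ (t * w) := pow_le_pow_right₀ (by linarith) (ix_lt k)
  have h2 : 0 < γ ^ ix k := by positivity
  calc 2 * γ ^ ix k < γ * γ ^ ix k := mul_lt_mul_of_pos_right hγ h2
    _ = γ ^ (ix k + 1) := by ring
    _ ≤ _ := h1

theorem valid_zero_iff {τ τ' : SignType} {g : Fin t → Option (Fin w × Bool)}
    (h : Valid τ g) (h' : Valid τ' g) : τ = 0 ↔ τ' = 0 := by
  unfold Valid at h h'
  rcases h with ⟨h1, s, h2, _⟩ | ⟨h1, h2⟩ <;> rcases h' with ⟨h3, s', h4, _⟩ | ⟨h3, h4⟩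
  · simp [h1, h3]
  · exact absurd h2 (h4 s)
  · exact absurd h4 (h2 s')
  · simp [h1, h3]

theorem classify {γ β : ℝ} (hγ : GoodG t w γ) (hβ : GoodB t w γ β)
    {τ1 τ2 τ3 : SignType} {g1 g2 g3 : Fin t → Option (Fin w × Bool)}
    (v1 : Valid τ1 g1) (v2 : Valid τ2 g2) (v3 : Valid τ3 g3)
    (h : Sbtw ℝ (pt γ β τ1 g1) (pt γ β τ2 g2) (pt γ β τ3 g3)) :
    τ2 = 0 ∧ ((τ1 = -1 ∧ τ3 = 1 ∧ ∃ s m, LineRel s m g1 g2 g3) ∨
      (τ1 = 1 ∧ τ3 = -1 ∧ ∃ s m, LineRel s m g3 g2 g1)) := by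
  obtain ⟨⟨l, ⟨hl0, hl1⟩, hl⟩, hne1, hne3⟩ := h
  have hl0' : l ≠ 0 := by
    intro h0; subst h0; apply hne1; rw [← hl]; simp
  have hl1' : l ≠ 1 := by
    intro h0; subst h0; apply hne3; rw [← hl]; simp
  have hl0 : 0 < l := lt_of_le_of_ne hl0 (Ne.symm hl0')
  have hl1 : l < 1 := lt_of_le_of_ne hl1 hl1'
  have hX : X γ τ2 g2 = X γ τ1 g1 + l * (X γ τ3 g3 - X γ τ1 g1) := by
    have := congrArg Prod.fst hl
    simp only [AffineMap.lineMap_apply, pt, vsub_eq_sub, vadd_eq_add, Prod.fst_add, Prod.smul_fst,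
      Prod.fst_sub, smul_eq_mul] at this
    linarith
  have hY : Y γ β g2 = Y γ β g1 + l * (Y γ β g3 - Y γ β g1) := by
    have := congrArg Prod.snd hl
    simp only [AffineMap.lineMap_apply, pt, vsub_eq_sub, vadd_eq_add, Prod.snd_add, Prod.smul_snd,
      Prod.snd_sub, smul_eq_mul] at this
    linarith
  have h31 : X γ τ3 g3 - X γ τ1 g1 ≠ 0 := by
    intro h0
    obtain ⟨e1, e2⟩ := hγ.2 τ3 τ1 g3 g1 (by linarith)
    subst e1; subst e2
    apply hne1
    rw [← hl]; simp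
  have hc := hβ.2.2 τ1 τ2 τ3 g1 g2 g3 (by rw [hX, hY]; ring)
  have hblk : ∀ s, (g1 s = g2 s ∧ g3 s = g2 s) ∨
      ∃ m b, g1 s = some (m, b) ∧ g2 s = none ∧ g3 s = some (m, !b) := by
    intro s
    refine blk (fun m => pw t w γ (s, m)) (fun m => qw t w γ (s, m))
      (fun m => pw_pos γ hγ.1 _) (fun m => qw_pos γ hγ.1 _) l hl0 hl1 _ _ _ (fun m => ?_)
    have h1 := hc (s, m)
    simp only at h1
    have h2 : X γ τ2 g2 - X γ τ1 g1 = l * (X γ τ3 g3 - X γ τ1 g1) := by linarith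
    rw [h2] at h1
    have h3 : (X γ τ3 g3 - X γ τ1 g1) * (l * (dg (-pw t w γ (s, m)) (qw t w γ (s, m)) m (g3 s)
          - dg (-pw t w γ (s, m)) (qw t w γ (s, m)) m (g1 s)))
        = (X γ τ3 g3 - X γ τ1 g1) * (dg (-pw t w γ (s, m)) (qw t w γ (s, m)) m (g2 s)
          - dg (-pw t w γ (s, m)) (qw t w γ (s, m)) m (g1 s)) := by
      rw [← h1]; ring
    have h4 := mul_left_cancel₀ h31 h3
    linarith
  by_cases hall : ∀ s, g1 s = g2 s ∧ g3 s = g2 s
  · exfalso
    have e1 : g1 = g2 := funext fun s => (hall s).1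
    have e3 : g3 = g2 := funext fun s => (hall s).2
    subst e1
    subst e3
    have z1 := valid_zero_iff v1 v2
    have z3 := valid_zero_iff v3 v2
    have n12 : τ2 ≠ τ1 := fun h => hne1 (by rw [h])
    have n23 : τ2 ≠ τ3 := fun h => hne3 (by rw [h])
    have n13 : τ3 ≠ τ1 := fun h => h31 (by rw [h]; ring)
    cases τ1 <;> cases τ2 <;> cases τ3 <;> simp_all
  · push Not at hall
    obtain ⟨s, hs⟩ := hall
    have hs2 : ∃ m b, g1 s = some (m, b) ∧ g2 s = none ∧ g3 s = some (m, !b) := by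
      rcases hblk s with h1 | h1
      · exact absurd h1.2 (hs h1.1)
      · exact h1
    obtain ⟨m, b, k1, k2, k3⟩ := hs2
    have hτ2 : τ2 = 0 := by
      rcases v2 with h1 | h1
      · exact h1.1
      · exact absurd k2 (h1.2 s)
    have huniq : ∀ s', s' ≠ s → g2 s' ≠ none := by
      rcases v2 with ⟨_, s0, h2, h3⟩ | h1
      · intro s' hs'
        by_cases hh : s' = s0
        · subst hh
          exact absurd k2 (h3 s (Ne.symm hs'))
        · exact h3 s' hh
      · exact absurd k2 (h1.2 s)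
    have hrest : ∀ s', s' ≠ s → g1 s' = g2 s' ∧ g3 s' = g2 s' := by
      intro s' hs'
      rcases hblk s' with h1 | ⟨_, _, _, h1, _⟩
      · exact h1
      · exact absurd h1 (huniq s' hs')
    have hτ1 : τ1 ≠ 0 := by
      rcases v1 with ⟨_, s0, h2, _⟩ | h1
      · exfalso
        by_cases hh : s0 = s
        · subst hh; rw [k1] at h2; exact absurd h2 (by simp)
        · exact huniq s0 hh (by rw [← (hrest s0 hh).1]; exact h2)
      · exact h1.1
    have hτ3 : τ3 ≠ 0 := by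
      rcases v3 with ⟨_, s0, h2, _⟩ | h1
      · exfalso
        by_cases hh : s0 = s
        · subst hh; rw [k3] at h2; exact absurd h2 (by simp)
        · exact huniq s0 hh (by rw [← (hrest s0 hh).2]; exact h2)
      · exact h1.1
    refine ⟨hτ2, ?_⟩
    subst hτ2
    have x1 := X_diff γ τ1 0 s m b g1 g2 k1 k2 (fun s' hs' => (hrest s' hs').1)
    have x3 := X_diff γ τ3 0 s m (!b) g3 g2 k3 k2 (fun s' hs' => (hrest s' hs').2)
    have hcs := hc (s, m)
    simp only [k1, k2, k3, dg_some, dg_none, if_true] at hcs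
    have hbig := big γ hγ.1 (s, m)
    have hD : 0 < γ ^ ix (s, m) := by have := hγ.1; positivity
    have hL : 0 < γ ^ (t * w) := by have := hγ.1; positivity
    unfold pw qw at hcs
    set D := γ ^ ix (s, m) with hDdef
    set L := γ ^ (t * w) with hLdef
    set X1 := X γ τ1 g1
    set X2 := X γ 0 g2
    set X3 := X γ τ3 g3
    have hLD : 0 < L * D := mul_pos hL hD
    have hLL : 0 < L * L := mul_pos hL hL
    have e1 : X2 - X1 = -(X1 - X2) := by ring
    have e3 : X3 - X1 = (X3 - X2) - (X1 - X2) := by ring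
    rw [e1, e3, x1, x3] at hcs
    cases b
    · left
      cases τ1 <;> cases τ3 <;> simp at hτ1 hτ3 hcs ⊢
      all_goals first
        | exact ⟨s, m, k1, k2, k3, hrest⟩
        | (exfalso; nlinarith)
    · right
      cases τ1 <;> cases τ3 <;> simp at hτ1 hτ3 hcs ⊢
      all_goals first
        | exact ⟨s, m, k3, k2, k1, fun s' hs' => ⟨(hrest s' hs').2, (hrest s' hs').1⟩⟩
        | (exfalso; nlinarith)

end Pool.Agent.Helper650.CT
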