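import Mathlib

set_option autoImplicit false

namespace Pool.Agent.Helper650.CT

/-- No four points of the finite plane set `P` lie on a common line. -/
def NoFourCollinear (P : Finset (ℝ × ℝ)) : Prop :=
  ∀ S ⊆ P, S.card = 4 → ¬ Collinear ℝ (S : Set (ℝ × ℝ))

open Classical in
/-- The set of collinear triples of `P`: the three-point subsets of `P` lying on a line. -/
noncomputable def collinearTriples (P : Finset (ℝ × ℝ)) : Finset (Finset (ℝ × ℝ)) :=
  (P.powersetCard 3).filter (fun T => Collinear ℝ (T : Set (ℝ × ℝ)))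

/-- Adjacency in the geometric graph `G_P`: for every collinear triple `u, v, w` of `P` with `v`
strictly between `u` and `w`, the segments `uv` and `vw` are edges. -/
def Adj (P : Finset (ℝ × ℝ)) (x y : ℝ × ℝ) : Prop :=
  ∃ u ∈ P, ∃ v ∈ P, ∃ w ∈ P, Sbtw ℝ u v w ∧
    ((x = u ∧ y = v) ∨ (x = v ∧ y = u) ∨ (x = v ∧ y = w) ∨ (x = w ∧ y = v))

/-- `G_P` contains a self-intersecting path of length 3: four distinct vertices `x₁, x₂, x₃, x₄`,
consecutive ones adjacent, such that the segments `x₁x₂` and `x₃x₄` share a point. -/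
def HasSelfIntersectingPath (P : Finset (ℝ × ℝ)) : Prop :=
  ∃ x₁ x₂ x₃ x₄ : ℝ × ℝ, x₁ ≠ x₂ ∧ x₁ ≠ x₃ ∧ x₁ ≠ x₄ ∧ x₂ ≠ x₃ ∧ x₂ ≠ x₄ ∧ x₃ ≠ x₄ ∧
    Adj P x₁ x₂ ∧ Adj P x₂ x₃ ∧ Adj P x₃ x₄ ∧
    (segment ℝ x₁ x₂ ∩ segment ℝ x₃ x₄).Nonempty

/-- `f n` is the least `m` such that every set of `n` points in the plane with no four collinear
and with at least `m` collinear triples has a self-intersecting path of length 3 in `G_P`. -/
noncomputable def f (n : ℕ) : ℕ :=
  sInf {m : ℕ | ∀ P : Finset (ℝ × ℝ), P.card = n → NoFourCollinear P →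
    m ≤ (collinearTriples P).card → HasSelfIntersectingPath P}

end Pool.Agent.Helper650.CT
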