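import Mathlib
import Pool.Agent.Helper650.CT4
import Pool.Agent.Helper650.CTDefs

set_option autoImplicit false

namespace Pool.Agent.Helper650.CT

open Finset Filter

variable {t w : ℕ}

theorem nc1 (ai aj ak si sj sk s r : ℝ) (hai : 0 < ai) (haj : 0 < aj) (hak : 0 < ak)
    (hs0 : 0 ≤ s) (hs1 : s ≤ 1) (hr0 : 0 ≤ r) (hr1 : r ≤ 1)
    (hsi : 0 < si) (hsk : 0 < sk)
    (e1 : s * ai + r * ak = aj) (e2 : s * (ai * si) + r * (ak * sk) = aj * sj)
    (h : (si < sj ∧ sk < sj) ∨ (sj < si ∧ sj < sk) ∨ aj * sj < (aj - ai) * sk ∨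
      aj * sj < (aj - ak) * si) : False := by
  have hS : 0 ≤ s * ai := by positivity
  have hR : 0 ≤ r * ak := by positivity
  rcases h with ⟨h1, h2⟩ | ⟨h1, h2⟩ | h1 | h1
  · have a1 : s * (ai * si) ≤ s * ai * sj := by
      have := mul_le_mul_of_nonneg_left h1.le hS; linarith
    have a2 : r * (ak * sk) ≤ r * ak * sj := by
      have := mul_le_mul_of_nonneg_left h2.le hR; linarith
    rcases lt_or_eq_of_le hS with h3 | h3
    · have := mul_lt_mul_of_pos_left h1 h3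
      nlinarith
    · have h4 : 0 < r * ak := by linarith
      have := mul_lt_mul_of_pos_left h2 h4
      nlinarith
  · rcases lt_or_eq_of_le hS with h3 | h3
    · have := mul_lt_mul_of_pos_left h1 h3
      have := mul_le_mul_of_nonneg_left h2.le hR
      nlinarith
    · have h4 : 0 < r * ak := by linarith
      have := mul_lt_mul_of_pos_left h2 h4
      have := mul_le_mul_of_nonneg_left h1.le hS
      nlinarith
  · have h2 : aj - ai ≤ r * ak := by nlinarith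
    have h3 : (aj - ai) * sk ≤ r * ak * sk := mul_le_mul_of_nonneg_right h2 hsk.le
    have h4 : 0 ≤ s * (ai * si) := by positivity
    nlinarith
  · have h2 : aj - ak ≤ s * ai := by nlinarith
    have h3 : (aj - ak) * si ≤ s * ai * si := mul_le_mul_of_nonneg_right h2 hsi.le
    have h4 : 0 ≤ r * (ak * sk) := by positivity
    nlinarith

theorem nc2 (ai aj ak si sj sk s r : ℝ) (haj : 0 < aj) (hak : 0 < ak)
    (hr0 : 0 ≤ r)
    (e1 : s * ai = aj + r * ak) (e2 : s * (ai * si) = aj * sj + r * (ak * sk))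
    (h : (si < sj ∧ si < sk) ∨ (sj < si ∧ sk < si)) : False := by
  have e3 : (aj + r * ak) * si = aj * sj + r * (ak * sk) := by
    rw [← e1, ← e2]; ring
  have hR : 0 ≤ r * ak := by positivity
  rcases h with ⟨h1, h2⟩ | ⟨h1, h2⟩
  · have a1 := mul_lt_mul_of_pos_left h1 haj
    have a2 := mul_le_mul_of_nonneg_left h2.le hR
    nlinarith
  · have a1 := mul_lt_mul_of_pos_left h1 haj
    have a2 := mul_le_mul_of_nonneg_left h2.le hR
    nlinarith

/-- class of the outer point -/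
def sg (ε : Bool) : SignType := if ε then 1 else -1

/-- combinatorial edge between the middle datum `g2` and the outer datum `g` -/
def IsEdge (ε : Bool) (s : Fin t) (m : Fin w) (g2 g : Fin t → Option (Fin w × Bool)) : Prop :=
  g2 s = none ∧ g s = some (m, ε) ∧ ∀ s', s' ≠ s → g s' = g2 s'

/-- length of an edge -/
noncomputable def len (t w : ℕ) (γ : ℝ) (ε : Bool) (k : Fin t × Fin w) : ℝ :=
  if ε then qw t w γ k else pw t w γ k

/-- sign -/
noncomputable def sn (ε : Bool) : ℝ := if ε then -1 else 1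

theorem edge_disp {γ β : ℝ} {ε : Bool} {s : Fin t} {m : Fin w}
    {g2 g : Fin t → Option (Fin w × Bool)} (h : IsEdge ε s m g2 g) :
    pt γ β 0 g2 = pt γ β (sg ε) g
      + (sn ε * len t w γ ε (s, m)) • ((1 : ℝ), β ^ ix (s, m)) := by
  obtain ⟨h1, h2, h3⟩ := h
  have x := X_diff γ (sg ε) 0 s m ε g g2 h2 h1 h3
  have y := Y_diff γ β s m ε g g2 h2 h1 h3
  ext
  · simp only [pt, Prod.fst_add, Prod.smul_fst, smul_eq_mul, mul_one]
    cases ε <;> simp [sg, sn, len, pw, qw] at x ⊢ <;> linarith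
  · simp only [pt, Prod.snd_add, Prod.smul_snd, smul_eq_mul]
    cases ε <;> simp [sn, len] at y ⊢ <;> linarith

/-- geometric edge: `b` middle class, `y` outer class -/
def E (t w : ℕ) (γ β : ℝ) (b y : ℝ × ℝ) : Prop :=
  ∃ (ε : Bool) (s : Fin t) (m : Fin w) (g2 g : Fin t → Option (Fin w × Bool)),
    Valid 0 g2 ∧ Valid (sg ε) g ∧ IsEdge ε s m g2 g ∧ b = pt γ β 0 g2 ∧ y = pt γ β (sg ε) g

theorem pt_inj {γ β : ℝ} (hγ : GoodG t w γ) {τ τ' : SignType}
    {g g' : Fin t → Option (Fin w × Bool)} (h : pt γ β τ g = pt γ β τ' g') : τ = τ' ∧ g = g' :=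
  hγ.2 _ _ _ _ (congrArg Prod.fst h)

theorem adj_E {γ β : ℝ} (hγ : GoodG t w γ) (hβ : GoodB t w γ β) (P : Finset (ℝ × ℝ))
    (hP : ∀ x ∈ P, ∃ τ g, Valid (t := t) (w := w) τ g ∧ x = pt γ β τ g) {x y : ℝ × ℝ}
    (h : Adj P x y) : E t w γ β x y ∨ E t w γ β y x := by
  obtain ⟨u, hu, v, hv, z, hz, hs, hxy⟩ := h
  obtain ⟨τ1, g1, v1, rfl⟩ := hP u hu
  obtain ⟨τ2, g2, v2, rfl⟩ := hP v hv
  obtain ⟨τ3, g3, v3, rfl⟩ := hP z hz
  obtain ⟨rfl, hcl⟩ := classify hγ hβ v1 v2 v3 hs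
  have key : E t w γ β (pt γ β 0 g2) (pt γ β τ1 g1) ∧ E t w γ β (pt γ β 0 g2) (pt γ β τ3 g3) := by
    rcases hcl with ⟨rfl, rfl, s, m, a1, a2, a3, a4⟩ | ⟨rfl, rfl, s, m, a1, a2, a3, a4⟩
    · exact ⟨⟨false, s, m, g2, g1, v2, v1, ⟨a2, a1, fun s' hs' => (a4 s' hs').1⟩, rfl, rfl⟩,
        ⟨true, s, m, g2, g3, v2, v3, ⟨a2, a3, fun s' hs' => (a4 s' hs').2⟩, rfl, rfl⟩⟩
    · exact ⟨⟨true, s, m, g2, g1, v2, v1, ⟨a2, a3, fun s' hs' => (a4 s' hs').2⟩, rfl, rfl⟩,
        ⟨false, s, m, g2, g3, v2, v3, ⟨a2, a1, fun s' hs' => (a4 s' hs').1⟩, rfl, rfl⟩⟩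
  rcases hxy with ⟨rfl, rfl⟩ | ⟨rfl, rfl⟩ | ⟨rfl, rfl⟩ | ⟨rfl, rfl⟩
  · right; exact key.1
  · left; exact key.1
  · left; exact key.2
  · right; exact key.2

theorem E_not {γ β : ℝ} (hγ : GoodG t w γ) {x y z : ℝ × ℝ} (h1 : E t w γ β x y)
    (h2 : E t w γ β y z) : False := by
  obtain ⟨ε, _, _, _, g, _, _, _, _, hy⟩ := h1
  obtain ⟨_, _, _, g2, _, _, _, _, hy', _⟩ := h2
  have := (pt_inj hγ (hy.symm.trans hy')).1
  cases ε <;> simp [sg] at this

theorem no_cross {γ β : ℝ} (hγ : GoodG t w γ) (hβ : GoodB t w γ β) {x1 x2 x3 x4 : ℝ × ℝ}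
    (h13 : x1 ≠ x3) (h24 : x2 ≠ x4)
    (h1 : E t w γ β x1 x2) (h2 : E t w γ β x3 x2) (h3 : E t w γ β x3 x4) :
    ¬ (segment ℝ x1 x2 ∩ segment ℝ x3 x4).Nonempty := by
  obtain ⟨ε, s1, m1, b1, y, vb1, vy, e1, rfl, rfl⟩ := h1
  obtain ⟨ε', s2, m2, b2, y', vb2, vy', e2, rfl, hy⟩ := h2
  obtain ⟨h4, rfl⟩ := pt_inj hγ hy
  have hε : ε' = ε := by
    cases ε <;> cases ε' <;> simp [sg] at h4 ⊢
  subst hε
  obtain ⟨ε2, s3, m3, b3, z, vb3, vz, e3, hb, rfl⟩ := h3
  obtain ⟨_, rfl⟩ := pt_inj hγ hb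
  -- blocks
  have hs12 : s1 ≠ s2 := by
    rintro rfl
    apply h13
    have hm : m1 = m2 := by
      have := e1.2.1.symm.trans e2.2.1
      simpa using this
    have : b1 = b2 := by
      funext s'
      by_cases hs' : s' = s1
      · subst hs'; rw [e1.1, e2.1]
      · rw [← e1.2.2 s' hs', ← e2.2.2 s' hs']
    rw [this]
  have hs23 : s3 = s2 := by
    rcases vb2 with ⟨_, s0, h5, h6⟩ | ⟨h5, _⟩
    · by_contra hne
      by_cases h7 : s2 = s0
      · exact h6 s3 (by rw [← h7]; exact hne) e3.1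
      · exact h6 s2 h7 e2.1
    · exact absurd rfl h5
  subst hs23
  have hmne : ε2 = ε' → m2 ≠ m3 := by
    rintro rfl rfl
    apply h24
    have : y = z := by
      funext s'
      by_cases hs' : s' = s3
      · subst hs'; rw [e2.2.1, e3.2.1]
      · rw [e2.2.2 s' hs', e3.2.2 s' hs']
    rw [this]
  -- displacement equations
  have d1 := edge_disp (γ := γ) (β := β) e1
  have d2 := edge_disp (γ := γ) (β := β) e2
  have d3 := edge_disp (γ := γ) (β := β) e3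
  rintro ⟨p, hp1, hp2⟩
  rw [segment_eq_image] at hp1 hp2
  obtain ⟨s, ⟨hs0, hs1⟩, hs⟩ := hp1
  obtain ⟨r, ⟨hr0, hr1⟩, hr⟩ := hp2
  simp only at hs hr
  have hlenp : ∀ (e : Bool) (k : Fin t × Fin w), 0 < len t w γ e k := by
    intro e k; unfold len; split_ifs
    · exact qw_pos γ hγ.1 k
    · exact pw_pos γ hγ.1 k
  have hβ1 := hβ.1
  have hsig : ∀ k k' : Fin t × Fin w, ix k < ix k' → β ^ ix k < β ^ ix k' :=
    fun k k' h => pow_lt_pow_right₀ hβ1 h
  have hsp : ∀ k : Fin t × Fin w, 0 < β ^ ix k := fun k => by positivity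
  have hgrow : ∀ (e : Bool) (i j k : Fin t × Fin w), ix i < ix j → ix j < ix k →
      len t w γ e j * β ^ ix j < (len t w γ e j - len t w γ e i) * β ^ ix k := by
    intro e i j k hij hjk
    obtain ⟨g1, g2⟩ := hβ.2.1 i j k hij hjk
    unfold len; split_ifs
    · exact g2
    · exact g1
  have hblock : ∀ m m' : Fin w, (ix (s1, m) < ix (s3, m') ∧ s1 < s3) ∨
      (ix (s3, m') < ix (s1, m) ∧ s3 < s1) := by
    intro m m'
    rcases lt_or_gt_of_ne hs12 with h | h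
    · left; exact ⟨ix_lt_of_block _ _ h, h⟩
    · right; exact ⟨ix_lt_of_block _ _ h, h⟩
  -- coordinates
  have key : (1 - s) • (pt γ β (sg ε') y + (sn ε' * len t w γ ε' (s1, m1)) • ((1 : ℝ), β ^ ix (s1, m1)))
      + s • pt γ β (sg ε') y = (1 - r) • (pt γ β (sg ε') y
      + (sn ε' * len t w γ ε' (s3, m2)) • ((1 : ℝ), β ^ ix (s3, m2)))
      + r • (pt γ β (sg ε') y + (sn ε' * len t w γ ε' (s3, m2)) • ((1 : ℝ), β ^ ix (s3, m2))
        - (sn ε2 * len t w γ ε2 (s3, m3)) • ((1 : ℝ), β ^ ix (s3, m3))) := by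
    have d4 : pt γ β (sg ε2) z = pt γ β (sg ε') y
        + (sn ε' * len t w γ ε' (s3, m2)) • ((1 : ℝ), β ^ ix (s3, m2))
        - (sn ε2 * len t w γ ε2 (s3, m3)) • ((1 : ℝ), β ^ ix (s3, m3)) := by
      rw [← d2, d3]; abel
    rw [← d4, ← d2, ← d1, hs, hr]
  have kx := congrArg Prod.fst key
  have ky := congrArg Prod.snd key
  simp only [Prod.fst_add, Prod.smul_fst, Prod.fst_sub, smul_eq_mul, mul_one] at kx
  simp only [Prod.snd_add, Prod.smul_snd, Prod.snd_sub, smul_eq_mul] at ky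
  by_cases hεε : ε2 = ε'
  · subst hεε
    have hm := hmne rfl
    have hix : ix (s3, m2) ≠ ix (s3, m3) := fun h => hm (by have := ix_inj h; simpa using this)
    refine nc1 (len t w γ ε2 (s1, m1)) (len t w γ ε2 (s3, m2)) (len t w γ ε2 (s3, m3))
      (β ^ ix (s1, m1)) (β ^ ix (s3, m2)) (β ^ ix (s3, m3)) (1 - s) r
      (hlenp _ _) (hlenp _ _) (hlenp _ _) (by linarith) (by linarith) hr0 hr1
      (hsp _) (hsp _) ?_ ?_ ?_
    · cases ε2 <;> simp [sn] at kx <;> linarith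
    · cases ε2 <;> simp [sn] at ky <;> linarith
    · rcases hblock m1 m2 with ⟨a1, a2⟩ | ⟨a1, a2⟩
      · rcases lt_or_gt_of_ne hix with h | h
        · right; right; left
          exact hgrow _ _ _ _ a1 h
        · left
          exact ⟨hsig _ _ a1, hsig _ _ h⟩
      · rcases lt_or_gt_of_ne hix with h | h
        · right; left
          exact ⟨hsig _ _ a1, hsig _ _ h⟩
        · right; right; right
          exact hgrow _ _ _ _ h a1
  · refine nc2 (len t w γ ε' (s1, m1)) (len t w γ ε' (s3, m2)) (len t w γ ε2 (s3, m3))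
      (β ^ ix (s1, m1)) (β ^ ix (s3, m2)) (β ^ ix (s3, m3)) (1 - s) r
      (hlenp _ _) (hlenp _ _) hr0 ?_ ?_ ?_
    · cases ε2 <;> cases ε' <;> simp [sn] at kx hεε <;> linarith
    · cases ε2 <;> cases ε' <;> simp [sn] at ky hεε <;> linarith
    · rcases lt_or_gt_of_ne hs12 with h | h
      · left; exact ⟨hsig _ _ (ix_lt_of_block _ _ h), hsig _ _ (ix_lt_of_block _ _ h)⟩
      · right; exact ⟨hsig _ _ (ix_lt_of_block _ _ h), hsig _ _ (ix_lt_of_block _ _ h)⟩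

theorem no_path {γ β : ℝ} (hγ : GoodG t w γ) (hβ : GoodB t w γ β) (P : Finset (ℝ × ℝ))
    (hP : ∀ x ∈ P, ∃ τ g, Valid (t := t) (w := w) τ g ∧ x = pt γ β τ g) :
    ¬ HasSelfIntersectingPath P := by
  rintro ⟨x1, x2, x3, x4, h12, h13, h14, h23, h24, h34, a1, a2, a3, hx⟩
  rcases adj_E hγ hβ P hP a1 with e1 | e1 <;> rcases adj_E hγ hβ P hP a2 with e2 | e2 <;>
    rcases adj_E hγ hβ P hP a3 with e3 | e3
  · exact E_not hγ e1 e2
  · exact E_not hγ e1 e2
  · exact no_cross hγ hβ h13 h24 e1 e2 e3 hx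
  · exact E_not hγ e3 e2
  · exact E_not hγ e2 e3
  · rw [Set.inter_comm, segment_symm ℝ x1, segment_symm ℝ x3] at hx
    exact no_cross hγ hβ h24.symm h13.symm e3 e2 e1 hx
  · exact E_not hγ e2 e1
  · exact E_not hγ e2 e1

end Pool.Agent.Helper650.CT
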