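import Mathlib
import Pool.Agent.Helper650.CT5

set_option autoImplicit false

namespace Pool.Agent.Helper650.CT

open Finset Filter

variable {t w : ℕ}

theorem three_distinct {γ β : ℝ} (hγ : GoodG t w γ) (hβ : GoodB t w γ β)
    {τ1 τ2 τ3 : SignType} {g1 g2 g3 : Fin t → Option (Fin w × Bool)}
    (v1 : Valid τ1 g1) (v2 : Valid τ2 g2) (v3 : Valid τ3 g3)
    (h12 : pt γ β τ1 g1 ≠ pt γ β τ2 g2) (h13 : pt γ β τ1 g1 ≠ pt γ β τ3 g3)
    (h23 : pt γ β τ2 g2 ≠ pt γ β τ3 g3)
    (h : Collinear ℝ ({pt γ β τ1 g1, pt γ β τ2 g2, pt γ β τ3 g3} : Set (ℝ × ℝ))) : τ1 ≠ τ2 := by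
  rcases h.wbtw_or_wbtw_or_wbtw with h1 | h1 | h1
  · obtain ⟨a, b⟩ := classify hγ hβ v1 v2 v3 ⟨h1, h12.symm, h23⟩
    rcases b with ⟨b, _⟩ | ⟨b, _⟩ <;> rw [a, b] <;> decide
  · obtain ⟨a, b⟩ := classify hγ hβ v2 v3 v1 ⟨h1, h23.symm, h13.symm⟩
    rcases b with ⟨b, b', _⟩ | ⟨b, b', _⟩ <;> rw [b, b'] <;> decide
  · obtain ⟨a, b⟩ := classify hγ hβ v3 v1 v2 ⟨h1, h13, h12⟩
    rcases b with ⟨b, b', _⟩ | ⟨b, b', _⟩ <;> rw [a, b'] <;> decide

theorem no_four {γ β : ℝ} (hγ : GoodG t w γ) (hβ : GoodB t w γ β) (P : Finset (ℝ × ℝ))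
    (hP : ∀ x ∈ P, ∃ τ g, Valid (t := t) (w := w) τ g ∧ x = pt γ β τ g) :
    NoFourCollinear P := by
  classical
  intro S hS hcard hcol
  choose! c g hc using hP
  have hinj : Set.InjOn c (S : Set (ℝ × ℝ)) := by
    intro x hx y hy hxy
    by_contra hne
    have hx' : x ∈ S := hx
    have hy' : y ∈ S := hy
    obtain ⟨z, hz⟩ : ((S.erase x).erase y).Nonempty := by
      rw [← Finset.card_pos, Finset.card_erase_of_mem (Finset.mem_erase.2 ⟨Ne.symm hne, hy'⟩),
        Finset.card_erase_of_mem hx', hcard]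
      norm_num
    rw [Finset.mem_erase, Finset.mem_erase] at hz
    obtain ⟨hzy, hzx, hzS⟩ := hz
    obtain ⟨vx, ex⟩ := hc x (hS hx')
    obtain ⟨vy, ey⟩ := hc y (hS hy')
    obtain ⟨vz, ez⟩ := hc z (hS hzS)
    refine three_distinct hγ hβ vx vy vz ?_ ?_ ?_ ?_ hxy
    · rw [← ex, ← ey]; exact hne
    · rw [← ex, ← ez]; exact Ne.symm hzx
    · rw [← ey, ← ez]; exact Ne.symm hzy
    · rw [← ex, ← ey, ← ez]
      refine hcol.subset ?_
      intro u hu
      simp only [Set.mem_insert_iff, Set.mem_singleton_iff] at hu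
      rcases hu with rfl | rfl | rfl <;> assumption
  have h1 : (S.image c).card = S.card := Finset.card_image_of_injOn hinj
  have h2 : (S.image c).card ≤ Fintype.card SignType := Finset.card_le_univ _
  have h3 : Fintype.card SignType = 3 := rfl
  omega

/-- outer datum -/
def gA (F : Fin t → Fin w × Bool) : Fin t → Option (Fin w × Bool) := fun s => some (F s)
/-- middle datum -/
def gB (s : Fin t) (F : Fin t → Fin w × Bool) : Fin t → Option (Fin w × Bool) :=
  Function.update (gA F) s none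

theorem valid_A (τ : SignType) (hτ : τ ≠ 0) (F : Fin t → Fin w × Bool) : Valid τ (gA F) :=
  Or.inr ⟨hτ, fun s h => by simp [gA] at h⟩

theorem valid_B (s : Fin t) (F : Fin t → Fin w × Bool) : Valid 0 (gB s F) :=
  Or.inl ⟨rfl, s, by simp [gB], fun s' hs' => by simp [gB, gA, Function.update_of_ne hs']⟩

theorem card_pi_block (s : Fin t) (U : Finset (Fin w × Bool)) :
    (Fintype.piFinset (fun i : Fin t => if i = s then U else Finset.univ)).card
      = U.card * (2 * w) ^ (t - 1) := by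
  rw [Fintype.card_piFinset]
  have : ∀ i : Fin t, (if i = s then U else (Finset.univ : Finset (Fin w × Bool))).card
      = if i = s then U.card else 2 * w := by
    intro i; split_ifs
    · rfl
    · simp [mul_comm]
  simp only [this]
  rw [← Finset.mul_prod_erase Finset.univ _ (Finset.mem_univ s), if_pos rfl]
  congr 1
  rw [Finset.prod_congr rfl (g := fun _ => 2 * w)]
  · rw [Finset.prod_const, Finset.card_erase_of_mem (Finset.mem_univ s)]
    simp
  · intro i hi
    rw [if_neg (Finset.ne_of_mem_erase hi)]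

open Classical in
/-- the construction -/
noncomputable def PP (t w : ℕ) (γ β : ℝ) (x0 : Fin w × Bool) : Finset (ℝ × ℝ) :=
  ((Finset.univ : Finset (Fin t → Fin w × Bool)).image (fun F => pt γ β (-1) (gA F))) ∪
  ((Finset.univ : Finset (Fin t → Fin w × Bool)).image (fun F => pt γ β 1 (gA F))) ∪
  (Finset.univ : Finset (Fin t)).biUnion (fun s =>
    (Fintype.piFinset (fun i : Fin t => if i = s then {x0} else Finset.univ)).image
      (fun F => pt γ β 0 (gB s F)))

theorem PP_valid (γ β : ℝ) (x0 : Fin w × Bool) :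
    ∀ x ∈ PP t w γ β x0, ∃ τ g, Valid (t := t) (w := w) τ g ∧ x = pt γ β τ g := by
  classical
  intro x hx
  unfold PP at hx
  rw [Finset.mem_union, Finset.mem_union, Finset.mem_image, Finset.mem_image,
    Finset.mem_biUnion] at hx
  rcases hx with (⟨F, _, rfl⟩ | ⟨F, _, rfl⟩) | ⟨s, _, hx⟩
  · exact ⟨_, _, valid_A _ (by decide) F, rfl⟩
  · exact ⟨_, _, valid_A _ (by decide) F, rfl⟩
  · rw [Finset.mem_image] at hx
    obtain ⟨F, _, rfl⟩ := hx
    exact ⟨_, _, valid_B s F, rfl⟩

theorem PP_card (γ β : ℝ) (x0 : Fin w × Bool) :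
    (PP t w γ β x0).card ≤ 2 * (2 * w) ^ t + t * (2 * w) ^ (t - 1) := by
  classical
  unfold PP
  refine (Finset.card_union_le _ _).trans ?_
  refine Nat.add_le_add ((Finset.card_union_le _ _).trans ?_) ?_
  · have h1 : (Finset.univ : Finset (Fin t → Fin w × Bool)).card = (2 * w) ^ t := by
      rw [Finset.card_univ, Fintype.card_fun]
      simp [mul_comm]
    have h2 := Finset.card_image_le (s := (Finset.univ : Finset (Fin t → Fin w × Bool)))
      (f := fun F => pt γ β (-1) (gA F))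
    have h3 := Finset.card_image_le (s := (Finset.univ : Finset (Fin t → Fin w × Bool)))
      (f := fun F => pt γ β 1 (gA F))
    rw [h1] at h2 h3
    omega
  · refine Finset.card_biUnion_le.trans ?_
    calc _ ≤ ∑ _s : Fin t, (2 * w) ^ (t - 1) := by
          refine Finset.sum_le_sum (fun s _ => Finset.card_image_le.trans ?_)
          rw [card_pi_block]; simp
      _ = t * (2 * w) ^ (t - 1) := by simp

theorem mem_A {γ β : ℝ} {x0 : Fin w × Bool} (F : Fin t → Fin w × Bool) :
    pt γ β (-1) (gA F) ∈ PP t w γ β x0 := by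
  classical
  unfold PP
  rw [Finset.mem_union, Finset.mem_union]
  exact Or.inl (Or.inl (Finset.mem_image_of_mem _ (Finset.mem_univ F)))

theorem mem_C {γ β : ℝ} {x0 : Fin w × Bool} (F : Fin t → Fin w × Bool) :
    pt γ β 1 (gA F) ∈ PP t w γ β x0 := by
  classical
  unfold PP
  rw [Finset.mem_union, Finset.mem_union]
  exact Or.inl (Or.inr (Finset.mem_image_of_mem _ (Finset.mem_univ F)))

theorem mem_B {γ β : ℝ} {x0 : Fin w × Bool} (s : Fin t) (F : Fin t → Fin w × Bool) :
    pt γ β 0 (gB s F) ∈ PP t w γ β x0 := by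
  classical
  unfold PP
  rw [Finset.mem_union, Finset.mem_biUnion]
  refine Or.inr ⟨s, Finset.mem_univ s, Finset.mem_image.2 ⟨Function.update F s x0, ?_, ?_⟩⟩
  · rw [Fintype.mem_piFinset]
    intro i
    by_cases hi : i = s
    · subst hi; simp
    · simp [hi]
  · congr 1
    funext i
    by_cases hi : i = s
    · subst hi; simp [gB]
    · simp [gB, gA, Function.update_of_ne hi]

end Pool.Agent.Helper650.CT
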