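import Mathlib
import Pool.Agent.Helper650.CT6

set_option autoImplicit false

namespace Pool.Agent.Helper650.CT

open Finset Filter

variable {t w : ℕ}

/-- the third datum of the line -/
def gC (s : Fin t) (F : Fin t → Fin w × Bool) : Fin t → Fin w × Bool :=
  Function.update F s ((F s).1, true)

open Classical in
/-- the designed triple -/
noncomputable def TT (γ β : ℝ) (s : Fin t) (F : Fin t → Fin w × Bool) : Finset (ℝ × ℝ) :=
  {pt γ β (-1) (gA F), pt γ β 0 (gB s F), pt γ β 1 (gA (gC s F))}

theorem TT_mem {γ β : ℝ} (hγ : GoodG t w γ) {x0 : Fin w × Bool}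
    (s : Fin t) (F : Fin t → Fin w × Bool) (hF : (F s).2 = false) :
    TT γ β s F ∈ collinearTriples (PP t w γ β x0) := by
  classical
  have n12 : pt γ β (-1) (gA F) ≠ pt γ β 0 (gB s F) :=
    fun h => absurd (pt_inj hγ h).1 (by decide)
  have n13 : pt γ β (-1) (gA F) ≠ pt γ β 1 (gA (gC s F)) :=
    fun h => absurd (pt_inj hγ h).1 (by decide)
  have n23 : pt γ β 0 (gB s F) ≠ pt γ β 1 (gA (gC s F)) :=
    fun h => absurd (pt_inj hγ h).1 (by decide)
  unfold collinearTriples
  rw [Finset.mem_filter, Finset.mem_powersetCard]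
  refine ⟨⟨?_, ?_⟩, ?_⟩
  · intro x hx
    simp only [TT, Finset.mem_insert, Finset.mem_singleton] at hx
    rcases hx with rfl | rfl | rfl
    · exact mem_A F
    · exact mem_B s F
    · exact mem_C _
  · unfold TT
    rw [Finset.card_insert_of_notMem, Finset.card_insert_of_notMem, Finset.card_singleton]
    · simpa using n23
    · simp only [Finset.mem_insert, Finset.mem_singleton, not_or]
      exact ⟨n12, n13⟩
  · have e1 : IsEdge false s (F s).1 (gB s F) (gA F) := by
      refine ⟨by simp [gB], ?_, fun s' hs' => by simp [gB, gA, Function.update_of_ne hs']⟩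
      simp only [gA]; rw [← hF]
    have e2 : IsEdge true s (F s).1 (gB s F) (gA (gC s F)) := by
      refine ⟨by simp [gB], by simp [gA, gC], fun s' hs' => ?_⟩
      simp [gB, gA, gC, Function.update_of_ne hs']
    have d1 := edge_disp (γ := γ) (β := β) e1
    have d2 := edge_disp (γ := γ) (β := β) e2
    have hs1 : sg false = -1 := rfl
    have hs2 : sg true = 1 := rfl
    rw [hs1] at d1
    rw [hs2] at d2
    rw [collinear_iff_of_mem (p₀ := pt γ β 0 (gB s F)) (by simp [TT])]
    refine ⟨((1 : ℝ), β ^ ix (s, (F s).1)), ?_⟩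
    intro p hp
    simp only [TT, Finset.coe_insert, Finset.coe_singleton, Set.mem_insert_iff,
      Set.mem_singleton_iff] at hp
    rcases hp with rfl | rfl | rfl
    · refine ⟨-(sn false * len t w γ false (s, (F s).1)), ?_⟩
      rw [d1, vadd_eq_add, neg_smul]; abel
    · exact ⟨0, by simp⟩
    · refine ⟨-(sn true * len t w γ true (s, (F s).1)), ?_⟩
      rw [d2, vadd_eq_add, neg_smul]; abel

theorem TT_inj {γ β : ℝ} (hγ : GoodG t w γ) (s s' : Fin t) (F F' : Fin t → Fin w × Bool)
    (h : TT γ β s F = TT γ β s' F') : s = s' ∧ F = F' := by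
  classical
  have h1 : pt γ β (-1) (gA F) ∈ TT γ β s' F' := by rw [← h]; simp [TT]
  have h2 : pt γ β 0 (gB s F) ∈ TT γ β s' F' := by rw [← h]; simp [TT]
  simp only [TT, Finset.mem_insert, Finset.mem_singleton] at h1 h2
  have hF : F = F' := by
    rcases h1 with h1 | h1 | h1
    · have := (pt_inj hγ h1).2
      funext i
      have := congrFun this i
      simpa [gA] using this
    · exact absurd (pt_inj hγ h1).1 (by decide)
    · exact absurd (pt_inj hγ h1).1 (by decide)
  refine ⟨?_, hF⟩
  rcases h2 with h2 | h2 | h2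
  · exact absurd (pt_inj hγ h2).1 (by decide)
  · have := congrFun (pt_inj hγ h2).2 s
    by_contra hne
    simp [gB, gA, Function.update_of_ne hne] at this
  · exact absurd (pt_inj hγ h2).1 (by decide)

theorem main_exists (t w : ℕ) (hw : 0 < w) : ∃ P : Finset (ℝ × ℝ),
    P.card ≤ 2 * (2 * w) ^ t + t * (2 * w) ^ (t - 1) ∧ NoFourCollinear P ∧
    ¬ HasSelfIntersectingPath P ∧ t * (w * (2 * w) ^ (t - 1)) ≤ (collinearTriples P).card := by
  classical
  obtain ⟨γ, hγ⟩ := exists_goodG t w
  obtain ⟨β, hβ⟩ := exists_goodB t w γ hγ.1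
  let x0 : Fin w × Bool := (⟨0, hw⟩, false)
  have hP := PP_valid (t := t) γ β x0
  refine ⟨PP t w γ β x0, PP_card γ β x0, no_four hγ hβ _ hP, no_path hγ hβ _ hP, ?_⟩
  let U : Finset (Fin w × Bool) := Finset.univ.filter (fun x => x.2 = false)
  have hU : U.card = w := by
    have : U = (Finset.univ : Finset (Fin w)).image (fun m => (m, false)) := by
      ext ⟨m, b⟩
      simp only [U, Finset.mem_filter, Finset.mem_univ, true_and, Finset.mem_image, Prod.mk.injEq]
      constructor
      · intro h; exact ⟨m, rfl, h.symm⟩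
      · rintro ⟨_, _, h⟩; exact h.symm
    rw [this, Finset.card_image_of_injective _ (fun a b h => by simpa using h)]
    simp
  let I : Finset (Σ _s : Fin t, (Fin t → Fin w × Bool)) :=
    (Finset.univ : Finset (Fin t)).sigma (fun s =>
      Fintype.piFinset (fun i : Fin t => if i = s then U else Finset.univ))
  have hI : I.card = t * (w * (2 * w) ^ (t - 1)) := by
    simp only [I]
    rw [Finset.card_sigma]
    simp only [card_pi_block, hU]
    simp
  rw [← hI]
  refine Finset.card_le_card_of_injOn (fun z => TT γ β z.1 z.2) ?_ ?_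
  · rintro ⟨s, F⟩ hz
    have hz' : (⟨s, F⟩ : Σ _s : Fin t, (Fin t → Fin w × Bool)) ∈ I := hz
    simp only [I, Finset.mem_sigma, Finset.mem_univ, true_and, Fintype.mem_piFinset] at hz'
    have := hz' s
    rw [if_pos rfl] at this
    simp only [U, Finset.mem_filter, Finset.mem_univ, true_and] at this
    exact TT_mem hγ s F this
  · rintro ⟨s, F⟩ _ ⟨s', F'⟩ _ h
    obtain ⟨a, b⟩ := TT_inj hγ s s' F F' h
    rw [a, b]

end Pool.Agent.Helper650.CT
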