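import Mathlib
import Pool.Agent.Helper650.CT7

set_option autoImplicit false

namespace Pool.Agent.Helper650.CT

open Finset Filter

theorem exists_generic (P : Finset (ℝ × ℝ)) : ∃ z : ℝ × ℝ, z ∉ P ∧
    ∀ p ∈ P, ∀ q ∈ P, p ≠ q → ∀ T : Set (ℝ × ℝ), p ∈ T → q ∈ T → z ∈ T → ¬ Collinear ℝ T := by
  classical
  obtain ⟨x0, hx0⟩ := Infinite.exists_notMem_finset (P.image Prod.fst)
  obtain ⟨y0, hy0⟩ := Infinite.exists_notMem_finset ((P ×ˢ P).image
    (fun u => u.1.2 + (u.2.2 - u.1.2) / (u.2.1 - u.1.1) * (x0 - u.1.1)))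
  refine ⟨(x0, y0), fun h => hx0 (Finset.mem_image.2 ⟨_, h, rfl⟩), ?_⟩
  intro p hp q hq hpq T hpT hqT hzT hcol
  have hcol' : Collinear ℝ ({p, q, (x0, y0)} : Set (ℝ × ℝ)) := by
    refine hcol.subset ?_
    intro u hu
    simp only [Set.mem_insert_iff, Set.mem_singleton_iff] at hu
    rcases hu with rfl | rfl | rfl <;> assumption
  rw [collinear_iff_of_mem (p₀ := p) (by simp)] at hcol'
  obtain ⟨v, hv⟩ := hcol'
  obtain ⟨a, ha⟩ := hv q (by simp)
  obtain ⟨c, hc⟩ := hv (x0, y0) (by simp)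
  rw [vadd_eq_add] at ha hc
  have c1 : x0 = c * v.1 + p.1 := by have := congrArg Prod.fst hc; simpa using this
  have c2 : y0 = c * v.2 + p.2 := by have := congrArg Prod.snd hc; simpa using this
  have a1 : q.1 = a * v.1 + p.1 := by have := congrArg Prod.fst ha; simpa using this
  have a2 : q.2 = a * v.2 + p.2 := by have := congrArg Prod.snd ha; simpa using this
  have hxp : x0 ≠ p.1 := fun h => hx0 (Finset.mem_image.2 ⟨p, hp, h.symm⟩)
  have hv1 : v.1 ≠ 0 := by
    intro h; rw [h, mul_zero, zero_add] at c1; exact hxp c1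
  have ha0 : a ≠ 0 := by
    intro h; apply hpq; rw [ha, h, zero_smul, zero_add]
  apply hy0
  refine Finset.mem_image.2 ⟨(p, q), Finset.mem_product.2 ⟨hp, hq⟩, ?_⟩
  simp only
  rw [a1, a2, c1, c2]
  field_simp
  ring

theorem pad_one (P : Finset (ℝ × ℝ)) (h4 : NoFourCollinear P) (hp : ¬ HasSelfIntersectingPath P) :
    ∃ P' : Finset (ℝ × ℝ), P'.card = P.card + 1 ∧ NoFourCollinear P' ∧
      ¬ HasSelfIntersectingPath P' ∧ collinearTriples P ⊆ collinearTriples P' := by
  classical
  obtain ⟨z, hz, hgen⟩ := exists_generic P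
  have hadj : ∀ x y, Adj (insert z P) x y → Adj P x y := by
    rintro x y ⟨u, hu, v, hv, w, hw, hs, hxy⟩
    have hcol : Collinear ℝ ({u, v, w} : Set (ℝ × ℝ)) := hs.wbtw.collinear
    have huv : u ≠ v := hs.left_ne
    have hvw : v ≠ w := hs.ne_right
    have huw : u ≠ w := hs.left_ne_right
    rw [Finset.mem_insert] at hu hv hw
    have hu' : u ∈ P := by
      rcases hu with rfl | hu
      · exfalso
        exact hgen v (hv.resolve_left huv.symm) w (hw.resolve_left huw.symm) hvw _
          (by simp) (by simp) (by simp) hcol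
      · exact hu
    have hv' : v ∈ P := by
      rcases hv with rfl | hv
      · exfalso
        exact hgen u hu' w (hw.resolve_left hvw.symm) huw _
          (by simp) (by simp) (by simp) hcol
      · exact hv
    have hw' : w ∈ P := by
      rcases hw with rfl | hw
      · exfalso
        exact hgen u hu' v hv' huv _ (by simp) (by simp) (by simp) hcol
      · exact hw
    exact ⟨u, hu', v, hv', w, hw', hs, hxy⟩
  refine ⟨insert z P, Finset.card_insert_of_notMem hz, ?_, ?_, ?_⟩
  · intro S hS hcard hcol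
    by_cases hzS : z ∈ S
    · have h3 : (S.erase z).card = 3 := by rw [Finset.card_erase_of_mem hzS, hcard]
      obtain ⟨p, hp', q, hq', hpq⟩ := Finset.one_lt_card.1 (by rw [h3]; norm_num : 1 < (S.erase z).card)
      rw [Finset.mem_erase] at hp' hq'
      have hpP : p ∈ P := (Finset.mem_insert.1 (hS hp'.2)).resolve_left hp'.1
      have hqP : q ∈ P := (Finset.mem_insert.1 (hS hq'.2)).resolve_left hq'.1
      exact hgen p hpP q hqP hpq _ hp'.2 hq'.2 hzS hcol
    · refine h4 S ?_ hcard hcol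
      intro x hx
      exact (Finset.mem_insert.1 (hS hx)).resolve_left (fun h => hzS (h ▸ hx))
  · rintro ⟨x1, x2, x3, x4, h12, h13, h14, h23, h24, h34, a1, a2, a3, hx⟩
    exact hp ⟨x1, x2, x3, x4, h12, h13, h14, h23, h24, h34, hadj _ _ a1, hadj _ _ a2,
      hadj _ _ a3, hx⟩
  · intro T hT
    unfold collinearTriples at hT ⊢
    rw [Finset.mem_filter, Finset.mem_powersetCard] at hT ⊢
    exact ⟨⟨hT.1.1.trans (Finset.subset_insert _ _), hT.1.2⟩, hT.2⟩

theorem pad (P : Finset (ℝ × ℝ)) (h4 : NoFourCollinear P) (hp : ¬ HasSelfIntersectingPath P)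
    (d : ℕ) : ∃ P' : Finset (ℝ × ℝ), P'.card = P.card + d ∧ NoFourCollinear P' ∧
      ¬ HasSelfIntersectingPath P' ∧ (collinearTriples P).card ≤ (collinearTriples P').card := by
  induction d with
  | zero => exact ⟨P, rfl, h4, hp, le_rfl⟩
  | succ d ih =>
    obtain ⟨P1, c1, f1, p1, t1⟩ := ih
    obtain ⟨P2, c2, f2, p2, t2⟩ := pad_one P1 f1 p1
    exact ⟨P2, by omega, f2, p2, t1.trans (Finset.card_le_card t2)⟩

theorem lt_f (n : ℕ) (P : Finset (ℝ × ℝ)) (hn : P.card ≤ n) (h4 : NoFourCollinear P)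
    (hp : ¬ HasSelfIntersectingPath P) : (collinearTriples P).card < f n := by
  classical
  obtain ⟨P', c', f', p', t'⟩ := pad P h4 hp (n - P.card)
  have hne : {m : ℕ | ∀ P : Finset (ℝ × ℝ), P.card = n → NoFourCollinear P →
      m ≤ (collinearTriples P).card → HasSelfIntersectingPath P}.Nonempty := by
    refine ⟨n.choose 3 + 1, ?_⟩
    intro Q hQ _ h
    exfalso
    have h1 : (collinearTriples Q).card ≤ (Q.powersetCard 3).card := by
      unfold collinearTriples
      exact Finset.card_filter_le _ _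
    rw [Finset.card_powersetCard, hQ] at h1
    omega
  have hmem := Nat.sInf_mem hne
  have h5 : ¬ f n ≤ (collinearTriples P').card := by
    intro h
    exact p' (hmem P' (by omega) f' h)
  omega

end Pool.Agent.Helper650.CT
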