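import Mathlib
import Pool.Agent.Helper650.CT8

set_option autoImplicit false

namespace Pool.Agent.Helper650.CT

open Finset Filter

/-- a clean finite form -/
theorem finite_form (n t w : ℕ) (ht : 1 ≤ t) (hw : 0 < w) (htw : t ≤ 2 * w)
    (hn : 3 * (2 * w) ^ t ≤ n) : (t : ℝ) * ((2 * w : ℕ) : ℝ) ^ t / 2 < f n := by
  obtain ⟨P, h1, h2, h3, h4⟩ := main_exists t w hw
  obtain ⟨u, rfl⟩ : ∃ u, t = u + 1 := ⟨t - 1, by omega⟩
  have e : (2 * w) ^ (u + 1) = (2 * w) ^ u * (2 * w) := pow_succ _ _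
  have h5 : P.card ≤ n := by
    refine h1.trans (le_trans ?_ hn)
    have : (u + 1) * (2 * w) ^ (u + 1 - 1) ≤ (2 * w) ^ (u + 1) := by
      rw [e, Nat.add_sub_cancel, mul_comm]
      exact Nat.mul_le_mul_left _ htw
    omega
  have h6 := lt_f n P h5 h2 h3
  have h7 : (u + 1) * (w * (2 * w) ^ (u + 1 - 1)) < f n := lt_of_le_of_lt h4 h6
  have h8 : (((u + 1) * (w * (2 * w) ^ (u + 1 - 1)) : ℕ) : ℝ) < f n := by exact_mod_cast h7
  refine lt_of_eq_of_lt ?_ h8
  rw [Nat.add_sub_cancel]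
  push_cast
  ring

theorem lower_aux (n : ℕ) (hl : 16 ≤ Real.log n) (hm : 1 ≤ Real.log (Real.log n))
    (hlm : 4 * Real.log (Real.log n) ≤ Real.log n) :
    (1 / 200) * (n : ℝ) * Real.log n / Real.log (Real.log n) ≤ f n := by
  set l := Real.log n with hldef
  set m := Real.log l with hmdef
  have hn0 : (0 : ℝ) < n := by
    rcases Nat.eq_zero_or_pos n with h | h
    · subst h; rw [hldef] at hl; simp at hl; linarith
    · exact_mod_cast h
  have hexp : Real.exp l = n := Real.exp_log hn0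
  have hl0 : 0 < l := by linarith
  have hm0 : 0 < m := by linarith
  set t := ⌊l / (2 * m)⌋₊ with htdef
  have hq : 2 ≤ l / (2 * m) := by
    rw [le_div_iff₀ (by positivity)]; linarith
  have ht1 : (t : ℝ) ≤ l / (2 * m) := Nat.floor_le (by positivity)
  have ht2 : l / (2 * m) < t + 1 := Nat.lt_floor_add_one _
  have ht : 1 ≤ t := by
    rw [htdef]; exact Nat.le_floor (by push_cast; linarith)
  have htR : (1 : ℝ) ≤ t := by exact_mod_cast ht
  have htl : (t : ℝ) + 1 ≤ l := by
    have : l / (2 * m) ≤ l / 2 := by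
      apply div_le_div_of_nonneg_left hl0.le (by norm_num) (by linarith)
    linarith
  -- basic inequality
  have hbase : 3 * ((t : ℝ) + 1) ^ t ≤ n := by
    have h1 : Real.log ((t : ℝ) + 1) ≤ m := Real.log_le_log (by positivity) htl
    have h2 : (t : ℝ) * Real.log ((t : ℝ) + 1) ≤ l / 2 := by
      have h3 : (t : ℝ) * Real.log ((t : ℝ) + 1) ≤ l / (2 * m) * m :=
        mul_le_mul ht1 h1 (Real.log_nonneg (by linarith)) (by positivity)
      have h4 : l / (2 * m) * m = l / 2 := by field_simp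
      linarith
    have h5 : (3 : ℝ) ≤ Real.exp (l / 2) := by
      have := Real.add_one_le_exp (l / 2)
      linarith
    have h6 : ((t : ℝ) + 1) ^ t ≤ Real.exp (l / 2) := by
      have h7 : ((t : ℝ) + 1) ^ t = Real.exp ((t : ℝ) * Real.log ((t : ℝ) + 1)) := by
        rw [mul_comm, Real.exp_mul, Real.exp_log (by positivity), Real.rpow_natCast]
      rw [h7]
      exact Real.exp_le_exp.2 h2
    calc 3 * ((t : ℝ) + 1) ^ t ≤ Real.exp (l / 2) * Real.exp (l / 2) :=
          mul_le_mul h5 h6 (by positivity) (by positivity)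
      _ = Real.exp l := by rw [← Real.exp_add]; congr 1; ring
      _ = n := hexp
  set w0 := (t + 1) / 2 with hw0
  have hw0a : 2 * w0 ≤ t + 1 := by omega
  have hw0b : t ≤ 2 * w0 := by omega
  have hw0c : 1 ≤ w0 := by omega
  have hP0 : 3 * (2 * w0) ^ t ≤ n := by
    have h1 : ((3 * (2 * w0) ^ t : ℕ) : ℝ) ≤ n := by
      push_cast
      refine le_trans ?_ hbase
      have h2 : (2 : ℝ) * w0 ≤ t + 1 := by exact_mod_cast hw0a
      have : ((2 : ℝ) * w0) ^ t ≤ ((t : ℝ) + 1) ^ t := pow_le_pow_left₀ (by positivity) h2 _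
      linarith
    exact_mod_cast h1
  have hlt : ∀ w : ℕ, 3 * (2 * w) ^ t ≤ n → w ≤ n := by
    intro w hw
    have : w ≤ (2 * w) ^ t := by
      rcases Nat.eq_zero_or_pos w with h | h
      · omega
      · calc w ≤ 2 * w := by omega
          _ = (2 * w) ^ 1 := (pow_one _).symm
          _ ≤ (2 * w) ^ t := Nat.pow_le_pow_right (by omega) ht
    omega
  set w := Nat.findGreatest (fun w => 3 * (2 * w) ^ t ≤ n) n with hwdef
  have hPw : 3 * (2 * w) ^ t ≤ n := Nat.findGreatest_spec (P := fun w => 3 * (2 * w) ^ t ≤ n)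
    (hlt w0 hP0) hP0
  have hww0 : w0 ≤ w := Nat.le_findGreatest (hlt w0 hP0) hP0
  have hPw1 : ¬ 3 * (2 * (w + 1)) ^ t ≤ n := by
    intro h
    have := Nat.le_findGreatest (P := fun w => 3 * (2 * w) ^ t ≤ n) (hlt (w + 1) h) h
    omega
  have hwpos : 0 < w := by omega
  have htw : t ≤ 2 * w := by omega
  have hfin := finite_form n t w ht hwpos htw hPw
  have hwR : (0 : ℝ) < w := by exact_mod_cast hwpos
  have htwR : (t : ℝ) ≤ 2 * w := by exact_mod_cast htw
  -- n < 3 (2(w+1))^t ≤ 3 (2w)^t * e^2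
  have h10 : (n : ℝ) ≤ 3 * ((2 * w : ℕ) : ℝ) ^ t * Real.exp 2 := by
    have h1 : (n : ℝ) ≤ 3 * (2 * ((w : ℝ) + 1)) ^ t := by
      have : n ≤ 3 * (2 * (w + 1)) ^ t := by omega
      exact_mod_cast this
    have h2 : (2 * ((w : ℝ) + 1)) ^ t = ((2 * w : ℕ) : ℝ) ^ t * (1 + 1 / w) ^ t := by
      rw [← mul_pow]; congr 1; push_cast; field_simp
    have h3 : (1 + 1 / (w : ℝ)) ^ t ≤ Real.exp 2 := by
      have h4 : 1 + 1 / (w : ℝ) ≤ Real.exp (1 / w) := by
        have := Real.add_one_le_exp (1 / (w : ℝ)); linarith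
      calc (1 + 1 / (w : ℝ)) ^ t ≤ (Real.exp (1 / w)) ^ t := pow_le_pow_left₀ (by positivity) h4 _
        _ = Real.exp (t * (1 / w)) := by rw [← Real.exp_nat_mul]
        _ ≤ Real.exp 2 := by
            apply Real.exp_le_exp.2
            rw [mul_one_div, div_le_iff₀ hwR]
            exact htwR
    rw [h2] at h1
    have h5 : (0 : ℝ) ≤ ((2 * w : ℕ) : ℝ) ^ t := by positivity
    have h6 := mul_le_mul_of_nonneg_left h3 h5
    linarith
  have he2 : Real.exp 2 ≤ 8 := by
    have h1 := Real.exp_one_lt_d9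
    have h2 : Real.exp 2 = Real.exp 1 * Real.exp 1 := by rw [← Real.exp_add]; norm_num
    have h3 := Real.exp_pos 1
    rw [h2]
    nlinarith
  have h5 : (0 : ℝ) ≤ ((2 * w : ℕ) : ℝ) ^ t := by positivity
  have h11 : (n : ℝ) ≤ 24 * ((2 * w : ℕ) : ℝ) ^ t := by nlinarith
  have ht3 : l / (4 * m) ≤ t := by
    have e1 : l / (2 * m) = 2 * (l / (4 * m)) := by field_simp; norm_num
    have e2 : 1 ≤ l / (4 * m) := by
      rw [le_div_iff₀ (by positivity)]; linarith
    linarith
  calc (1 / 200) * (n : ℝ) * l / m = (n / 50) * (l / (4 * m)) := by field_simp; norm_num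
    _ ≤ (n / 50) * t := mul_le_mul_of_nonneg_left ht3 (by positivity)
    _ ≤ (t : ℝ) * ((2 * w : ℕ) : ℝ) ^ t / 2 := by nlinarith
    _ ≤ f n := hfin.le

theorem tendsto_l : Tendsto (fun n : ℕ => Real.log n) atTop atTop :=
  Real.tendsto_log_atTop.comp tendsto_natCast_atTop_atTop

theorem tendsto_m : Tendsto (fun n : ℕ => Real.log (Real.log n)) atTop atTop :=
  Real.tendsto_log_atTop.comp tendsto_l

theorem lower : ∀ᶠ n : ℕ in atTop,
    (1 / 200) * (n : ℝ) * Real.log n / Real.log (Real.log n) ≤ f n := by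
  have h3 : ∀ᶠ n : ℕ in atTop, 4 * Real.log (Real.log n) ≤ Real.log n := by
    have h := (Real.isLittleO_log_id_atTop.comp_tendsto tendsto_l)
    have h' := h.def (show (0 : ℝ) < 1 / 4 by norm_num)
    filter_upwards [h', tendsto_l.eventually_ge_atTop 1, tendsto_m.eventually_ge_atTop 0]
      with n hn h1 h2
    simp only [Function.comp, id, Real.norm_eq_abs] at hn
    rw [abs_of_nonneg h2, abs_of_nonneg (by linarith)] at hn
    linarith
  filter_upwards [tendsto_l.eventually_ge_atTop 16, tendsto_m.eventually_ge_atTop 1, h3]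
    with n h1 h2 h3
  exact lower_aux n h1 h2 h3

theorem not_bigO : ¬ ((fun n : ℕ => (f n : ℝ)) =O[atTop]
    (fun n : ℕ => (n : ℝ) * Real.sqrt (Real.log n))) := by
  intro h
  obtain ⟨C, hC, hb⟩ := h.exists_pos
  rw [Asymptotics.IsBigOWith] at hb
  have h1 : (fun x : ℝ => Real.log x) =o[atTop] (fun x : ℝ => x ^ (1 / 2 : ℝ)) :=
    isLittleO_log_rpow_atTop (by norm_num)
  have h2 := (h1.comp_tendsto tendsto_l).def (show (0 : ℝ) < 1 / (400 * C) by positivity)
  have h3 := (hb.and (lower.and (h2.and ((tendsto_l.eventually_ge_atTop 1).and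
    ((tendsto_m.eventually_ge_atTop 1).and (eventually_ge_atTop 1)))))).exists
  obtain ⟨n, a1, a2, a3, a4, a5, a6⟩ := h3
  have hn : (0 : ℝ) < n := by exact_mod_cast a6
  simp only [Function.comp, Real.norm_eq_abs] at a3
  rw [← Real.sqrt_eq_rpow, abs_of_nonneg (by linarith), abs_of_nonneg (Real.sqrt_nonneg _)] at a3
  rw [Real.norm_eq_abs, Real.norm_eq_abs, abs_of_nonneg (by positivity),
    abs_of_nonneg (by positivity)] at a1
  set l := Real.log n
  set m := Real.log l
  have hs : 0 < Real.sqrt l := Real.sqrt_pos.2 (by linarith)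
  have hss : Real.sqrt l * Real.sqrt l = l := Real.mul_self_sqrt (by linarith)
  have hm : 0 < m := by linarith
  have b1 : (1 / 200) * (n : ℝ) * l ≤ C * (n * Real.sqrt l) * m := by
    have := a2.trans a1
    rwa [div_le_iff₀ hm] at this
  have b2 : m * (400 * C) ≤ Real.sqrt l := by
    have h5 : 1 / (400 * C) * Real.sqrt l * (400 * C) = Real.sqrt l := by field_simp
    have := mul_le_mul_of_nonneg_right a3 (show (0 : ℝ) ≤ 400 * C by positivity)
    linarith
  have b3 : (1 / 200) * l ≤ C * Real.sqrt l * m := by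
    have : (n : ℝ) * ((1 / 200) * l) ≤ n * (C * Real.sqrt l * m) := by linarith
    exact le_of_mul_le_mul_left this hn
  have b4 : Real.sqrt l * ((1 / 200) * Real.sqrt l) ≤ Real.sqrt l * (C * m) := by
    nlinarith
  have b5 := le_of_mul_le_mul_left b4 hs
  nlinarith

end Pool.Agent.Helper650.CT
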