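import Mathlib

set_option autoImplicit false

namespace Pool.Agent.Helper650.UB

open Finset

variable {α : Type*}

/-- few elements of a finite set have fewer than `k` elements above them -/
theorem card_few (R : Finset α) (σ : α → ℝ) (hσ : Set.InjOn σ (R : Set α)) (k : ℕ) :
    (R.filter (fun r => (R.filter (fun s => σ r < σ s)).card < k)).card ≤ k := by
  classical
  have h : (R.filter (fun r => (R.filter (fun s => σ r < σ s)).card < k)).card
      ≤ (Finset.range k).card := by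
    refine Finset.card_le_card_of_injOn (fun r => (R.filter (fun s => σ r < σ s)).card) ?_ ?_
    · intro r hr
      have hr' : r ∈ R.filter (fun r => (R.filter (fun s => σ r < σ s)).card < k) := hr
      rw [Finset.mem_filter] at hr'
      simpa using hr'.2
    · intro r hr s hs h
      have hr' : r ∈ R.filter (fun r => (R.filter (fun s => σ r < σ s)).card < k) := hr
      have hs' : s ∈ R.filter (fun r => (R.filter (fun s => σ r < σ s)).card < k) := hs
      rw [Finset.mem_filter] at hr' hs'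
      simp only at h
      have key : ∀ u v : α, u ∈ R → v ∈ R → σ u < σ v →
          (R.filter (fun s => σ v < σ s)).card < (R.filter (fun s => σ u < σ s)).card := by
        intro u v hu hv huv
        apply Finset.card_lt_card
        rw [Finset.ssubset_iff_of_subset]
        · exact ⟨v, by simp [hv, huv], by simp⟩
        · intro w hw
          rw [Finset.mem_filter] at hw ⊢
          exact ⟨hw.1, huv.trans hw.2⟩
      apply hσ hr'.1 hs'.1
      by_contra hne
      rcases lt_or_gt_of_ne hne with h1 | h1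
      · have := key _ _ hr'.1 hs'.1 h1; omega
      · have := key _ _ hs'.1 hr'.1 h1; omega
  simpa using h

theorem card_few' (R : Finset α) (σ : α → ℝ) (hσ : Set.InjOn σ (R : Set α)) (k : ℕ) :
    (R.filter (fun r => (R.filter (fun s => σ s < σ r)).card < k)).card ≤ k := by
  have h := card_few R (fun r => - σ r) (fun x hx y hy h => hσ hx hy (neg_inj.1 h)) k
  simpa [neg_lt_neg_iff] using h

/-! ### slopes -/

/-- slope of the segment from `a` to `b` -/
noncomputable def sl (X Y : α → ℝ) (a b : α) : ℝ := (Y b - Y a) / (X b - X a)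

theorem sl_eq {X Y : α → ℝ} {a b : α} (h : X a < X b) :
    Y b = Y a + sl X Y a b * (X b - X a) := by
  unfold sl
  have : X b - X a ≠ 0 := (sub_pos.2 h).ne'
  field_simp
  ring

/-- four points zigzag not crossing -/
def NC (X Y : α → ℝ) (E : Finset (α × α)) : Prop :=
  ∀ x₁ x₂ x₃ x₄ : α, x₁ ≠ x₂ → x₁ ≠ x₃ → x₁ ≠ x₄ → x₂ ≠ x₃ → x₂ ≠ x₄ → x₃ ≠ x₄ →
    ((x₁, x₂) ∈ E ∨ (x₂, x₁) ∈ E) → ((x₂, x₃) ∈ E ∨ (x₃, x₂) ∈ E) →
    ((x₃, x₄) ∈ E ∨ (x₄, x₃) ∈ E) →
    ∀ s t : ℝ, 0 ≤ s → s ≤ 1 → 0 ≤ t → t ≤ 1 →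
      X x₁ + s * (X x₂ - X x₁) = X x₃ + t * (X x₄ - X x₃) →
      Y x₁ + s * (Y x₂ - Y x₁) = Y x₃ + t * (Y x₄ - Y x₃) → False

theorem cross_pt {X Y : α → ℝ} {p q r s : α} {x : ℝ} (hpq : X p < X q) (hrs : X r < X s)
    (h1 : X p ≤ x) (h2 : x ≤ X q) (h3 : X r ≤ x) (h4 : x ≤ X s)
    (h : Y p + sl X Y p q * (x - X p) = Y r + sl X Y r s * (x - X r)) :
    ∃ u v : ℝ, 0 ≤ u ∧ u ≤ 1 ∧ 0 ≤ v ∧ v ≤ 1 ∧
      X p + u * (X q - X p) = X r + v * (X s - X r) ∧
      Y p + u * (Y q - Y p) = Y r + v * (Y s - Y r) := by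
  have e1 : 0 < X q - X p := sub_pos.2 hpq
  have e2 : 0 < X s - X r := sub_pos.2 hrs
  refine ⟨(x - X p) / (X q - X p), (x - X r) / (X s - X r), ?_, ?_, ?_, ?_, ?_, ?_⟩
  · exact div_nonneg (by linarith) e1.le
  · rw [div_le_one e1]; linarith
  · exact div_nonneg (by linarith) e2.le
  · rw [div_le_one e2]; linarith
  · rw [div_mul_cancel₀ _ e1.ne', div_mul_cancel₀ _ e2.ne']; ring
  · have a1 : (x - X p) / (X q - X p) * (Y q - Y p) = sl X Y p q * (x - X p) := by
      unfold sl; ring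
    have a2 : (x - X r) / (X s - X r) * (Y s - Y r) = sl X Y r s * (x - X r) := by
      unfold sl; ring
    rw [a1, a2]; exact h

/-- Lemma for the zigzag `b₁ a b a₁`. -/
theorem L1 {X Y : α → ℝ} {E : Finset (α × α)} (hE : ∀ e ∈ E, X e.1 < X e.2) (nc : NC X Y E)
    {a b a₁ b₁ : α} (h1 : (a, b) ∈ E) (h2 : (a, b₁) ∈ E) (h3 : (a₁, b) ∈ E)
    (s1 : sl X Y a b < sl X Y a b₁) (s2 : sl X Y a₁ b < sl X Y a b) :
    (X b₁ < X b ∧ sl X Y a₁ b ≤ sl X Y b₁ b) ∨ (X a < X a₁ ∧ sl X Y a a₁ ≤ sl X Y a b₁) := by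
  have x1 : X a < X b := hE _ h1
  have x2 : X a < X b₁ := hE _ h2
  have x3 : X a₁ < X b := hE _ h3
  by_cases hab : b₁ = a₁
  · subst hab
    exact Or.inl ⟨x3, le_refl _⟩
  set m0 := sl X Y a b with hm0
  set m1 := sl X Y a b₁ with hm1
  set m2 := sl X Y a₁ b with hm2
  have y1 := sl_eq (Y := Y) x1
  have y2 := sl_eq (Y := Y) x2
  have y3 := sl_eq (Y := Y) x3
  rw [← hm0] at y1
  rw [← hm1] at y2
  rw [← hm2] at y3
  have hd : 0 < m1 - m2 := by linarith
  have hD : 0 < X b - X a := by linarith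
  set τ := (X b - X a) * (m0 - m2) / (m1 - m2) with hτ
  have hτ1 : τ * (m1 - m2) = (X b - X a) * (m0 - m2) := by
    rw [hτ]; field_simp
  have hτ0 : 0 < τ := by rw [hτ]; exact div_pos (mul_pos hD (by linarith)) hd
  have hτ2 : τ < X b - X a := by
    rw [hτ, div_lt_iff₀ hd]; exact mul_lt_mul_of_pos_left (by linarith) hD
  by_cases c1 : X b₁ < X a + τ
  · left
    refine ⟨by linarith, ?_⟩
    have x4 : X b₁ < X b := by linarith
    have y4 := sl_eq (Y := Y) x4
    set m4 := sl X Y b₁ b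
    by_contra hcon
    push Not at hcon
    -- heights
    have : m4 * (X b - X b₁) < m2 * (X b - X b₁) :=
      mul_lt_mul_of_pos_right hcon (by linarith)
    -- Y b₁ = Y a + m1 (X b₁ - X a) ; Y b = Y a + m0 (X b - X a)
    have k1 : (m1 - m2) * (X b₁ - X a) < (m1 - m2) * τ :=
      mul_lt_mul_of_pos_left (by linarith) hd
    nlinarith
  · right
    push Not at c1
    have c2 : X a + τ < X a₁ := by
      by_contra hcon
      push Not at hcon
      obtain ⟨u, v, u0, u1, v0, v1, eX, eY⟩ := cross_pt (Y := Y) (x := X a + τ) x2 x3 (by linarith) c1 hcon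
        (by linarith) (by
          rw [← hm1, ← hm2]
          nlinarith)
      refine nc b₁ a b a₁ ?_ ?_ hab ?_ ?_ ?_ (Or.inr h2) (Or.inl h1) (Or.inr h3) (1 - u) (1 - v)
        (by linarith) (by linarith) (by linarith) (by linarith) (by linarith) (by linarith)
      · rintro rfl; exact lt_irrefl _ x2
      · rintro rfl; exact lt_irrefl _ s1
      · rintro rfl; exact lt_irrefl _ x1
      · rintro rfl; exact lt_irrefl _ s2
      · rintro rfl; exact lt_irrefl _ x3
    have x5 : X a < X a₁ := by linarith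
    refine ⟨x5, ?_⟩
    have y5 := sl_eq (Y := Y) x5
    set m5 := sl X Y a a₁
    by_contra hcon
    push Not at hcon
    have : m1 * (X a₁ - X a) < m5 * (X a₁ - X a) :=
      mul_lt_mul_of_pos_right hcon (by linarith)
    have k1 : (m1 - m2) * τ < (m1 - m2) * (X a₁ - X a) :=
      mul_lt_mul_of_pos_left (by linarith) hd
    nlinarith

/-- Lemma for the path `a' b₁ a b`. -/
theorem L2 {X Y : α → ℝ} {E : Finset (α × α)} (hE : ∀ e ∈ E, X e.1 < X e.2) (nc : NC X Y E)
    {a b a' b₁ : α} (h1 : (a, b) ∈ E) (h2 : (a, b₁) ∈ E) (h3 : (a', b₁) ∈ E)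
    (s1 : sl X Y a b < sl X Y a b₁) (s2 : sl X Y a b₁ < sl X Y a' b₁) (hb : X b₁ < X b) :
    X a < X a' ∧ sl X Y a b ≤ sl X Y a a' := by
  have x1 : X a < X b := hE _ h1
  have x2 : X a < X b₁ := hE _ h2
  have x3 : X a' < X b₁ := hE _ h3
  set m0 := sl X Y a b with hm0
  set m1 := sl X Y a b₁ with hm1
  set m' := sl X Y a' b₁ with hm'
  have y1 := sl_eq (Y := Y) x1
  have y2 := sl_eq (Y := Y) x2
  have y3 := sl_eq (Y := Y) x3
  rw [← hm0] at y1
  rw [← hm1] at y2
  rw [← hm'] at y3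
  have hd : 0 < m' - m0 := by linarith
  have hD : 0 < X b₁ - X a := by linarith
  set τ := (X b₁ - X a) * (m' - m1) / (m' - m0) with hτ
  have hτ1 : τ * (m' - m0) = (X b₁ - X a) * (m' - m1) := by
    rw [hτ]; field_simp
  have hτ0 : 0 < τ := by rw [hτ]; exact div_pos (mul_pos hD (by linarith)) hd
  have hτ2 : τ < X b₁ - X a := by
    rw [hτ, div_lt_iff₀ hd]; exact mul_lt_mul_of_pos_left (by linarith) hD
  have c2 : X a + τ < X a' := by
    by_contra hcon
    push Not at hcon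
    obtain ⟨u, v, u0, u1, v0, v1, eX, eY⟩ := cross_pt (Y := Y) (x := X a + τ) x3 x1 hcon
      (by linarith) (by linarith) (by linarith) (by
        rw [← hm0, ← hm']
        nlinarith)
    refine nc a' b₁ a b ?_ ?_ ?_ ?_ ?_ ?_ (Or.inl h3) (Or.inr h2) (Or.inl h1) u v u0 u1 v0 v1 eX eY
    · rintro rfl; exact lt_irrefl _ x3
    · rintro rfl; exact lt_irrefl _ s2
    · rintro rfl; linarith
    · rintro rfl; exact lt_irrefl _ x2
    · rintro rfl; exact lt_irrefl _ hb
    · rintro rfl; exact lt_irrefl _ x1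
  have x5 : X a < X a' := by linarith
  refine ⟨x5, ?_⟩
  have y5 := sl_eq (Y := Y) x5
  set m5 := sl X Y a a'
  by_contra hcon
  push Not at hcon
  have : m5 * (X a' - X a) < m0 * (X a' - X a) :=
    mul_lt_mul_of_pos_right hcon (by linarith)
  have k1 : (m' - m0) * τ < (m' - m0) * (X a' - X a) :=
    mul_lt_mul_of_pos_left (by linarith) hd
  nlinarith

/-- Lemma for the path `b' a₁ b a`. -/
theorem L3 {X Y : α → ℝ} {E : Finset (α × α)} (hE : ∀ e ∈ E, X e.1 < X e.2) (nc : NC X Y E)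
    {a b b' a₁ : α} (h1 : (a, b) ∈ E) (h2 : (a₁, b) ∈ E) (h3 : (a₁, b') ∈ E)
    (s1 : sl X Y a₁ b < sl X Y a b) (s2 : sl X Y a₁ b' < sl X Y a₁ b) (ha : X a < X a₁) :
    X b' < X b ∧ sl X Y b' b ≤ sl X Y a b := by
  have x1 : X a < X b := hE _ h1
  have x2 : X a₁ < X b := hE _ h2
  have x3 : X a₁ < X b' := hE _ h3
  set m0 := sl X Y a b with hm0
  set m1 := sl X Y a₁ b with hm1
  set m' := sl X Y a₁ b' with hm'
  have y1 := sl_eq (Y := Y) x1
  have y2 := sl_eq (Y := Y) x2
  have y3 := sl_eq (Y := Y) x3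
  rw [← hm0] at y1
  rw [← hm1] at y2
  rw [← hm'] at y3
  have hd : 0 < m0 - m' := by linarith
  have hD : 0 < X b - X a₁ := by linarith
  set τ := (X b - X a₁) * (m1 - m') / (m0 - m') with hτ
  have hτ1 : τ * (m0 - m') = (X b - X a₁) * (m1 - m') := by
    rw [hτ]; field_simp
  have hτ0 : 0 < τ := by rw [hτ]; exact div_pos (mul_pos hD (by linarith)) hd
  have hτ2 : τ < X b - X a₁ := by
    rw [hτ, div_lt_iff₀ hd]; exact mul_lt_mul_of_pos_left (by linarith) hD
  have c2 : X b' < X b - τ := by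
    by_contra hcon
    push Not at hcon
    obtain ⟨u, v, u0, u1, v0, v1, eX, eY⟩ := cross_pt (Y := Y) (x := X b - τ) x3 x1 (by linarith)
      hcon (by linarith) (by linarith) (by
        rw [← hm0, ← hm']
        nlinarith)
    refine nc b' a₁ b a ?_ ?_ ?_ ?_ ?_ ?_ (Or.inr h3) (Or.inl h2) (Or.inr h1) (1 - u) (1 - v)
      (by linarith) (by linarith) (by linarith) (by linarith) (by linarith) (by linarith)
    · rintro rfl; exact lt_irrefl _ x3
    · rintro rfl; exact lt_irrefl _ s2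
    · rintro rfl; linarith
    · rintro rfl; exact lt_irrefl _ x2
    · rintro rfl; exact lt_irrefl _ ha
    · rintro rfl; exact lt_irrefl _ x1
  have x5 : X b' < X b := by linarith
  refine ⟨x5, ?_⟩
  have y5 := sl_eq (Y := Y) x5
  set m5 := sl X Y b' b
  by_contra hcon
  push Not at hcon
  have : m0 * (X b - X b') < m5 * (X b - X b') :=
    mul_lt_mul_of_pos_right hcon (by linarith)
  have k1 : (m0 - m') * τ < (m0 - m') * (X b - X b') :=
    mul_lt_mul_of_pos_left (by linarith) hd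
  nlinarith

end Pool.Agent.Helper650.UB
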