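import Mathlib
import Pool.Agent.Helper650.UB1

set_option autoImplicit false

namespace Pool.Agent.Helper650.UB

open Finset

variable {α : Type*} [DecidableEq α]

omit [DecidableEq α] in
theorem le_sl_iff {X Y : α → ℝ} {a b : α} {m : ℝ} (h : X a < X b) :
    m ≤ sl X Y a b ↔ m * (X b - X a) ≤ Y b - Y a := by
  unfold sl; rw [le_div_iff₀ (sub_pos.2 h)]

omit [DecidableEq α] in
theorem sl_le_iff {X Y : α → ℝ} {a b : α} {m : ℝ} (h : X a < X b) :
    sl X Y a b ≤ m ↔ Y b - Y a ≤ m * (X b - X a) := by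
  unfold sl; rw [div_le_iff₀ (sub_pos.2 h)]

/-- the region above the edge `ab` -/
def InReg (X Y : α → ℝ) (a b b₁ a₁ v : α) : Prop :=
  X a < X v ∧ X v < X b ∧ sl X Y a b ≤ sl X Y a v ∧ sl X Y a v ≤ sl X Y a b₁ ∧
    sl X Y a₁ b ≤ sl X Y v b ∧ sl X Y v b ≤ sl X Y a b

omit [DecidableEq α] in
theorem I1 {X Y : α → ℝ} {a b b₁ a₁ a' v : α} (x1 : X a < X b) (x2 : X a < X b₁)
    (x4 : X b₁ < X b)
    (s1 : sl X Y a b < sl X Y a b₁) (s2 : sl X Y a₁ b < sl X Y a b)
    (r : sl X Y a₁ b ≤ sl X Y b₁ b)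
    (x5 : X a < X a') (x6 : X a' < X b₁) (s3 : sl X Y a b ≤ sl X Y a a')
    (s4 : sl X Y a b₁ < sl X Y a' b₁)
    (x7 : X a' < X v) (x8 : X v < X b₁) (s5 : sl X Y a b₁ ≤ sl X Y v b₁)
    (s6 : sl X Y v b₁ ≤ sl X Y a' b₁) : InReg X Y a b b₁ a₁ v := by
  have y1 := sl_eq (Y := Y) x1
  have y2 := sl_eq (Y := Y) x2
  have y6 := sl_eq (Y := Y) x6
  have r' := (le_sl_iff x4).1 r
  have s3' := (le_sl_iff x5).1 s3
  have s5' := (le_sl_iff x8).1 s5
  have s6' := (sl_le_iff x8).1 s6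
  set m0 := sl X Y a b
  set m1 := sl X Y a b₁
  set m2 := sl X Y a₁ b
  set m' := sl X Y a' b₁
  have g1 : m0 * (X v - X a) ≤ Y v - Y a := by
    have : m0 * (X v - X a') ≤ m' * (X v - X a') :=
      mul_le_mul_of_nonneg_right (by linarith) (by linarith)
    linarith
  have hav : X a < X v := by linarith
  have hvb : X v < X b := by linarith
  refine ⟨hav, hvb, (le_sl_iff hav).2 g1, (sl_le_iff hav).2 ?_, (le_sl_iff hvb).2 ?_,
    (sl_le_iff hvb).2 ?_⟩
  · linarith
  · have : m2 * (X b₁ - X v) ≤ m1 * (X b₁ - X v) :=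
      mul_le_mul_of_nonneg_right (by linarith) (by linarith)
    linarith
  · linarith

omit [DecidableEq α] in
theorem I2 {X Y : α → ℝ} {a b b₁ a₁ b' v : α} (x1 : X a < X b) (x2 : X a₁ < X b)
    (x4 : X a < X a₁)
    (s1 : sl X Y a b < sl X Y a b₁) (s2 : sl X Y a₁ b < sl X Y a b)
    (r : sl X Y a a₁ ≤ sl X Y a b₁)
    (x5 : X b' < X b) (x6 : X a₁ < X b') (s3 : sl X Y b' b ≤ sl X Y a b)
    (s4 : sl X Y a₁ b' < sl X Y a₁ b)
    (x7 : X v < X b') (x8 : X a₁ < X v) (s5 : sl X Y a₁ v ≤ sl X Y a₁ b)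
    (s6 : sl X Y a₁ b' ≤ sl X Y a₁ v) : InReg X Y a b b₁ a₁ v := by
  have y1 := sl_eq (Y := Y) x1
  have y2 := sl_eq (Y := Y) x2
  have y6 := sl_eq (Y := Y) x6
  have r' := (sl_le_iff x4).1 r
  have s3' := (sl_le_iff x5).1 s3
  have s5' := (sl_le_iff x8).1 s5
  have s6' := (le_sl_iff x8).1 s6
  set m0 := sl X Y a b
  set m1 := sl X Y a b₁
  set m2 := sl X Y a₁ b
  set m' := sl X Y a₁ b'
  have hav : X a < X v := by linarith
  have hvb : X v < X b := by linarith
  have g1 : Y b - Y v ≤ m0 * (X b - X v) := by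
    have : m' * (X b' - X v) ≤ m0 * (X b' - X v) :=
      mul_le_mul_of_nonneg_right (by linarith) (by linarith)
    linarith
  refine ⟨hav, hvb, (le_sl_iff hav).2 ?_, (sl_le_iff hav).2 ?_, (le_sl_iff hvb).2 ?_,
    (sl_le_iff hvb).2 g1⟩
  · linarith
  · have : m2 * (X v - X a₁) ≤ m1 * (X v - X a₁) :=
      mul_le_mul_of_nonneg_right (by linarith) (by linarith)
    linarith
  · linarith

/-- slope of a pair -/
noncomputable def rho (X Y : α → ℝ) (e : α × α) : ℝ := sl X Y e.1 e.2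

open Classical in
/-- remove the extreme edges at each vertex -/
noncomputable def peel (X Y : α → ℝ) (E : Finset (α × α)) : Finset (α × α) :=
  E.filter (fun e =>
    3 ≤ ((E.filter (fun g => g.1 = e.1)).filter (fun g => rho X Y e < rho X Y g)).card ∧
    3 ≤ ((E.filter (fun g => g.1 = e.1)).filter (fun g => rho X Y g < rho X Y e)).card ∧
    3 ≤ ((E.filter (fun g => g.2 = e.2)).filter (fun g => rho X Y e < rho X Y g)).card ∧
    3 ≤ ((E.filter (fun g => g.2 = e.2)).filter (fun g => rho X Y g < rho X Y e)).card)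

theorem peel_subset (X Y : α → ℝ) (E : Finset (α × α)) : peel X Y E ⊆ E :=
  Finset.filter_subset _ _

/-- slopes are distinct at each vertex (on each side) -/
def Dist (X Y : α → ℝ) (E : Finset (α × α)) : Prop :=
  (∀ e ∈ E, ∀ g ∈ E, e.1 = g.1 → rho X Y e = rho X Y g → e = g) ∧
  (∀ e ∈ E, ∀ g ∈ E, e.2 = g.2 → rho X Y e = rho X Y g → e = g)

theorem peel_card (X Y : α → ℝ) (V : Finset α) (E : Finset (α × α))
    (hV : ∀ e ∈ E, e.1 ∈ V ∧ e.2 ∈ V) (hD : Dist X Y E) :
    E.card ≤ (peel X Y E).card + 12 * V.card := by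
  classical
  set F1 := E.filter (fun e =>
    ((E.filter (fun g => g.1 = e.1)).filter (fun g => rho X Y e < rho X Y g)).card < 3) with hF1
  set F2 := E.filter (fun e =>
    ((E.filter (fun g => g.1 = e.1)).filter (fun g => rho X Y g < rho X Y e)).card < 3) with hF2
  set F3 := E.filter (fun e =>
    ((E.filter (fun g => g.2 = e.2)).filter (fun g => rho X Y e < rho X Y g)).card < 3) with hF3
  set F4 := E.filter (fun e =>
    ((E.filter (fun g => g.2 = e.2)).filter (fun g => rho X Y g < rho X Y e)).card < 3) with hF4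
  have hsub : E ⊆ peel X Y E ∪ (F1 ∪ (F2 ∪ (F3 ∪ F4))) := by
    intro e he
    by_contra hcon
    simp only [Finset.mem_union, not_or, hF1, hF2, hF3, hF4, Finset.mem_filter, he, true_and,
      not_lt] at hcon
    obtain ⟨h0, h1, h2, h3, h4⟩ := hcon
    apply h0
    unfold peel
    rw [Finset.mem_filter]
    refine ⟨he, ?_, ?_, ?_, ?_⟩
    · convert h1
    · convert h2
    · convert h3
    · convert h4
  have inj1 : ∀ a, Set.InjOn (rho X Y) ((E.filter (fun g => g.1 = a) : Finset (α × α)) : Set (α × α)) := by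
    intro a e he g hg h
    have he' : e ∈ E.filter (fun g => g.1 = a) := he
    have hg' : g ∈ E.filter (fun g => g.1 = a) := hg
    rw [Finset.mem_filter] at he' hg'
    exact hD.1 e he'.1 g hg'.1 (he'.2.trans hg'.2.symm) h
  have inj2 : ∀ a, Set.InjOn (rho X Y) ((E.filter (fun g => g.2 = a) : Finset (α × α)) : Set (α × α)) := by
    intro a e he g hg h
    have he' : e ∈ E.filter (fun g => g.2 = a) := he
    have hg' : g ∈ E.filter (fun g => g.2 = a) := hg
    rw [Finset.mem_filter] at he' hg'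
    exact hD.2 e he'.1 g hg'.1 (he'.2.trans hg'.2.symm) h
  have c1 : F1.card ≤ 3 * V.card := by
    have h1 : F1.card ≤ 3 * (F1.image Prod.fst).card := by
      apply Finset.card_le_mul_card_image
      intro a _
      refine le_trans (Finset.card_le_card ?_) (card_few (E.filter (fun g => g.1 = a)) (rho X Y) (inj1 a) 3)
      intro e he
      simp only [hF1, Finset.mem_filter] at he ⊢
      obtain ⟨⟨h1, h2⟩, h3⟩ := he
      refine ⟨⟨h1, h3⟩, ?_⟩
      rw [← h3]; exact h2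
    refine h1.trans (Nat.mul_le_mul_left _ (Finset.card_le_card ?_))
    intro a ha
    obtain ⟨e, he, rfl⟩ := Finset.mem_image.1 ha
    exact (hV e (Finset.mem_filter.1 he).1).1
  have c2 : F2.card ≤ 3 * V.card := by
    have h1 : F2.card ≤ 3 * (F2.image Prod.fst).card := by
      apply Finset.card_le_mul_card_image
      intro a _
      refine le_trans (Finset.card_le_card ?_) (card_few' (E.filter (fun g => g.1 = a)) (rho X Y) (inj1 a) 3)
      intro e he
      simp only [hF2, Finset.mem_filter] at he ⊢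
      obtain ⟨⟨h1, h2⟩, h3⟩ := he
      refine ⟨⟨h1, h3⟩, ?_⟩
      rw [← h3]; exact h2
    refine h1.trans (Nat.mul_le_mul_left _ (Finset.card_le_card ?_))
    intro a ha
    obtain ⟨e, he, rfl⟩ := Finset.mem_image.1 ha
    exact (hV e (Finset.mem_filter.1 he).1).1
  have c3 : F3.card ≤ 3 * V.card := by
    have h1 : F3.card ≤ 3 * (F3.image Prod.snd).card := by
      apply Finset.card_le_mul_card_image
      intro a _
      refine le_trans (Finset.card_le_card ?_) (card_few (E.filter (fun g => g.2 = a)) (rho X Y) (inj2 a) 3)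
      intro e he
      simp only [hF3, Finset.mem_filter] at he ⊢
      obtain ⟨⟨h1, h2⟩, h3⟩ := he
      refine ⟨⟨h1, h3⟩, ?_⟩
      rw [← h3]; exact h2
    refine h1.trans (Nat.mul_le_mul_left _ (Finset.card_le_card ?_))
    intro a ha
    obtain ⟨e, he, rfl⟩ := Finset.mem_image.1 ha
    exact (hV e (Finset.mem_filter.1 he).1).2
  have c4 : F4.card ≤ 3 * V.card := by
    have h1 : F4.card ≤ 3 * (F4.image Prod.snd).card := by
      apply Finset.card_le_mul_card_image
      intro a _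
      refine le_trans (Finset.card_le_card ?_) (card_few' (E.filter (fun g => g.2 = a)) (rho X Y) (inj2 a) 3)
      intro e he
      simp only [hF4, Finset.mem_filter] at he ⊢
      obtain ⟨⟨h1, h2⟩, h3⟩ := he
      refine ⟨⟨h1, h3⟩, ?_⟩
      rw [← h3]; exact h2
    refine h1.trans (Nat.mul_le_mul_left _ (Finset.card_le_card ?_))
    intro a ha
    obtain ⟨e, he, rfl⟩ := Finset.mem_image.1 ha
    exact (hV e (Finset.mem_filter.1 he).1).2
  have t := Finset.card_le_card hsub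
  have t1 := Finset.card_union_le (peel X Y E) (F1 ∪ (F2 ∪ (F3 ∪ F4)))
  have t2 := Finset.card_union_le F1 (F2 ∪ (F3 ∪ F4))
  have t3 := Finset.card_union_le F2 (F3 ∪ F4)
  have t4 := Finset.card_union_le F3 F4
  omega

theorem three_sorted {β : Type*} [DecidableEq β] (S : Finset β) (σ : β → ℝ)
    (hσ : Set.InjOn σ (S : Set β)) (h : 3 ≤ S.card) :
    ∃ x ∈ S, ∃ y ∈ S, ∃ z ∈ S, σ x < σ y ∧ σ y < σ z := by
  obtain ⟨a, ha, b, hb, c, hc, hab, hac, hbc⟩ := Finset.two_lt_card.1 (show 2 < S.card by omega)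
  have h1 : σ a ≠ σ b := fun h => hab (hσ ha hb h)
  have h2 : σ a ≠ σ c := fun h => hac (hσ ha hc h)
  have h3 : σ b ≠ σ c := fun h => hbc (hσ hb hc h)
  rcases lt_or_gt_of_ne h1 with h1 | h1 <;> rcases lt_or_gt_of_ne h2 with h2 | h2 <;>
    rcases lt_or_gt_of_ne h3 with h3 | h3
  · exact ⟨a, ha, b, hb, c, hc, h1, h3⟩
  · exact ⟨a, ha, c, hc, b, hb, h2, h3⟩
  · exact ⟨c, hc, a, ha, b, hb, h2, h1⟩
  · exact ⟨c, hc, a, ha, b, hb, h2, h1⟩
  · exact ⟨b, hb, a, ha, c, hc, h1, h2⟩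
  · exact ⟨b, hb, a, ha, c, hc, h1, h2⟩
  · exact ⟨b, hb, c, hc, a, ha, h3, h2⟩
  · exact ⟨c, hc, b, hb, a, ha, h3, h1⟩

end Pool.Agent.Helper650.UB
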