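import Mathlib
import Pool.Agent.Helper650.UB2

set_option autoImplicit false

namespace Pool.Agent.Helper650.UB

open Finset

variable {α : Type*} [DecidableEq α]

/-- iterated peeling -/
noncomputable def PP (X Y : α → ℝ) (E : Finset (α × α)) : ℕ → Finset (α × α)
  | 0 => E
  | t + 1 => peel X Y (PP X Y E t)

theorem PP_succ_subset (X Y : α → ℝ) (E : Finset (α × α)) (t : ℕ) :
    PP X Y E (t + 1) ⊆ PP X Y E t := peel_subset X Y _

theorem PP_subset (X Y : α → ℝ) (E : Finset (α × α)) (t : ℕ) : PP X Y E t ⊆ E := by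
  induction t with
  | zero => exact subset_rfl
  | succ t ih => exact (PP_succ_subset X Y E t).trans ih

theorem Dist.mono {X Y : α → ℝ} {E F : Finset (α × α)} (h : Dist X Y E) (hF : F ⊆ E) :
    Dist X Y F :=
  ⟨fun e he g hg => h.1 e (hF he) g (hF hg), fun e he g hg => h.2 e (hF he) g (hF hg)⟩

theorem PP_card (X Y : α → ℝ) (V : Finset α) (E : Finset (α × α))
    (hV : ∀ e ∈ E, e.1 ∈ V ∧ e.2 ∈ V) (hD : Dist X Y E) (t : ℕ) :
    E.card ≤ (PP X Y E t).card + 12 * V.card * t := by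
  induction t with
  | zero => simp [PP]
  | succ t ih =>
    have := peel_card X Y V (PP X Y E t) (fun e he => hV e (PP_subset X Y E t he))
      (hD.mono (PP_subset X Y E t))
    have h2 : PP X Y E (t + 1) = peel X Y (PP X Y E t) := rfl
    rw [h2]
    nlinarith

theorem claim (X Y : α → ℝ) (V : Finset α) (E : Finset (α × α))
    (hV : ∀ e ∈ E, e.1 ∈ V ∧ e.2 ∈ V) (hE : ∀ e ∈ E, X e.1 < X e.2) (nc : NC X Y E)
    (hD : Dist X Y E) (k : ℕ) : ∀ a b b₁ a₁ : α, (a, b) ∈ PP X Y E (2 * k + 1) →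
      (a, b₁) ∈ PP X Y E (2 * k) → sl X Y a b < sl X Y a b₁ →
      (a₁, b) ∈ PP X Y E (2 * k) → sl X Y a₁ b < sl X Y a b →
      ∃ S ⊆ V, (∀ v ∈ S, InReg X Y a b b₁ a₁ v) ∧ 2 ^ k ≤ S.card := by
  induction k with
  | zero =>
    intro a b b₁ a₁ h1 h2 s1 h3 s2
    have h1' := PP_subset X Y E _ h1
    have h2' := PP_subset X Y E _ h2
    have h3' := PP_subset X Y E _ h3
    have x1 : X a < X b := hE _ h1'
    have x2 : X a < X b₁ := hE _ h2'
    have x3 : X a₁ < X b := hE _ h3'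
    rcases L1 hE nc h1' h2' h3' s1 s2 with ⟨c1, c2⟩ | ⟨c1, c2⟩
    · refine ⟨{b₁}, by simpa using (hV _ h2').2, ?_, by simp⟩
      intro v hv
      rw [Finset.mem_singleton] at hv
      subst hv
      refine ⟨x2, c1, s1.le, le_refl _, c2, ?_⟩
      have y1 := sl_eq (Y := Y) x1
      have y2 := sl_eq (Y := Y) x2
      rw [sl_le_iff c1]
      have : sl X Y a b * (X v - X a) ≤ sl X Y a v * (X v - X a) :=
        mul_le_mul_of_nonneg_right s1.le (by linarith)
      linarith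
    · refine ⟨{a₁}, by simpa using (hV _ h3').1, ?_, by simp⟩
      intro v hv
      rw [Finset.mem_singleton] at hv
      subst hv
      refine ⟨c1, x3, ?_, c2, le_refl _, s2.le⟩
      have y1 := sl_eq (Y := Y) x1
      have y3 := sl_eq (Y := Y) x3
      rw [le_sl_iff c1]
      have : sl X Y v b * (X b - X v) ≤ sl X Y a b * (X b - X v) :=
        mul_le_mul_of_nonneg_right s2.le (by linarith)
      linarith
  | succ k ih =>
    intro a b b₁ a₁ h1 h2 s1 h3 s2
    have h1' := PP_subset X Y E _ h1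
    have h2' := PP_subset X Y E _ h2
    have h3' := PP_subset X Y E _ h3
    have x1 : X a < X b := hE _ h1'
    have x2 : X a < X b₁ := hE _ h2'
    have x3 : X a₁ < X b := hE _ h3'
    -- membership in peels
    have e2 : (a, b₁) ∈ peel X Y (PP X Y E (2 * k + 1)) := h2
    have e3 : (a₁, b) ∈ peel X Y (PP X Y E (2 * k + 1)) := h3
    have hsub1 : PP X Y E (2 * k + 1) ⊆ PP X Y E (2 * k) := PP_succ_subset X Y E _
    -- in `PP (2k+1)` every edge has edges of `PP (2k)` above it on each side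
    have above1 : ∀ p q : α, (p, q) ∈ PP X Y E (2 * k + 1) → ∃ q', (p, q') ∈ PP X Y E (2 * k) ∧
        sl X Y p q < sl X Y p q' := by
      intro p q h
      have h' : (p, q) ∈ peel X Y (PP X Y E (2 * k)) := h
      unfold peel at h'
      rw [Finset.mem_filter] at h'
      have hc := h'.2.1
      obtain ⟨g, hg⟩ := Finset.card_pos.1 (lt_of_lt_of_le (by norm_num : 0 < 3) hc)
      simp only [Finset.mem_filter] at hg
      obtain ⟨⟨g1, g2⟩, g3⟩ := hg
      obtain ⟨gp, gq⟩ := g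
      simp only at g2
      subst g2
      exact ⟨gq, g1, g3⟩
    have above2 : ∀ p q : α, (p, q) ∈ PP X Y E (2 * k + 1) → ∃ p', (p', q) ∈ PP X Y E (2 * k) ∧
        sl X Y p' q < sl X Y p q := by
      intro p q h
      have h' : (p, q) ∈ peel X Y (PP X Y E (2 * k)) := h
      unfold peel at h'
      rw [Finset.mem_filter] at h'
      have hc := h'.2.2.2.2
      obtain ⟨g, hg⟩ := Finset.card_pos.1 (lt_of_lt_of_le (by norm_num : 0 < 3) hc)
      simp only [Finset.mem_filter] at hg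
      obtain ⟨⟨g1, g2⟩, g3⟩ := hg
      obtain ⟨gp, gq⟩ := g
      simp only at g2
      subst g2
      exact ⟨gp, g1, g3⟩
    rcases L1 hE nc h1' h2' h3' s1 s2 with ⟨c1, c2⟩ | ⟨c1, c2⟩
    · -- three left edges of `b₁` below `(a, b₁)`
      unfold peel at e2
      rw [Finset.mem_filter] at e2
      have hc := e2.2.2.2.1
      obtain ⟨g₁, hg₁, g₂, hg₂, g₃, hg₃, o1, o2⟩ := three_sorted _ (rho X Y) (by
        intro e he g hg h
        simp only [Finset.coe_filter, Finset.mem_filter, Set.mem_ofPred_eq] at he hg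
        exact hD.2 e (PP_subset X Y E _ he.1.1) g (PP_subset X Y E _ hg.1.1)
          (he.1.2.trans hg.1.2.symm) h) hc
      simp only [Finset.mem_filter] at hg₁ hg₂ hg₃
      obtain ⟨⟨m1, n1⟩, q1⟩ := hg₁
      obtain ⟨⟨m2, n2⟩, q2⟩ := hg₂
      obtain ⟨⟨m3, n3⟩, q3⟩ := hg₃
      obtain ⟨p1, r1⟩ := g₁
      obtain ⟨p2, r2⟩ := g₂
      obtain ⟨p3, r3⟩ := g₃
      simp only at n1 n2 n3
      subst n1 n2 n3
      simp only [rho] at q1 q2 q3 o1 o2
      -- the edges
      have k1 := PP_subset X Y E _ m1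
      have k3 := PP_subset X Y E _ m3
      have t1 := L2 hE nc h1' h2' k1 s1 q1 c1
      have t3 := L2 hE nc h1' h2' k3 s1 q3 c1
      obtain ⟨u1, hu1, hu1'⟩ := above1 _ _ m1
      obtain ⟨u3, hu3, hu3'⟩ := above1 _ _ m3
      have ha_edge : (a, r3) ∈ PP X Y E (2 * k) :=
        hsub1 (PP_succ_subset X Y E _ h2)
      obtain ⟨S1, hS1, hS1', hS1c⟩ := ih p1 r3 u1 a m1 hu1 hu1' ha_edge q1
      obtain ⟨S3, hS3, hS3', hS3c⟩ := ih p3 r3 u3 p2 m3 hu3 hu3' (hsub1 m2) o2
      refine ⟨S1 ∪ S3, Finset.union_subset hS1 hS3, ?_, ?_⟩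
      · intro v hv
        rcases Finset.mem_union.1 hv with hv | hv
        · obtain ⟨w1, w2, w3, w4, w5, w6⟩ := hS1' v hv
          exact I1 x1 x2 c1 s1 s2 c2 t1.1 (hE _ k1) t1.2 q1 w1 w2 w5 w6
        · obtain ⟨w1, w2, w3, w4, w5, w6⟩ := hS3' v hv
          exact I1 x1 x2 c1 s1 s2 c2 t3.1 (hE _ k3) t3.2 q3 w1 w2 (q2.le.trans w5) w6
      · have hdis : Disjoint S1 S3 := by
          rw [Finset.disjoint_left]
          intro v hv1 hv3
          obtain ⟨w1, w2, w3, w4, w5, w6⟩ := hS1' v hv1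
          obtain ⟨z1, z2, z3, z4, z5, z6⟩ := hS3' v hv3
          linarith
        rw [Finset.card_union_of_disjoint hdis, pow_succ]
        omega
    · unfold peel at e3
      rw [Finset.mem_filter] at e3
      have hc := e3.2.2.1
      obtain ⟨g₁, hg₁, g₂, hg₂, g₃, hg₃, o1, o2⟩ := three_sorted _ (rho X Y) (by
        intro e he g hg h
        simp only [Finset.coe_filter, Finset.mem_filter, Set.mem_ofPred_eq] at he hg
        exact hD.1 e (PP_subset X Y E _ he.1.1) g (PP_subset X Y E _ hg.1.1)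
          (he.1.2.trans hg.1.2.symm) h) hc
      simp only [Finset.mem_filter] at hg₁ hg₂ hg₃
      obtain ⟨⟨m1, n1⟩, q1⟩ := hg₁
      obtain ⟨⟨m2, n2⟩, q2⟩ := hg₂
      obtain ⟨⟨m3, n3⟩, q3⟩ := hg₃
      obtain ⟨r1, p1⟩ := g₁
      obtain ⟨r2, p2⟩ := g₂
      obtain ⟨r3, p3⟩ := g₃
      simp only at n1 n2 n3
      subst n1 n2 n3
      simp only [rho] at q1 q2 q3 o1 o2
      have k1 := PP_subset X Y E _ m1
      have k3 := PP_subset X Y E _ m3
      have t1 := L3 hE nc h1' h3' k1 s2 q1 c1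
      have t3 := L3 hE nc h1' h3' k3 s2 q3 c1
      obtain ⟨u1, hu1, hu1'⟩ := above2 _ _ m1
      obtain ⟨u3, hu3, hu3'⟩ := above2 _ _ m3
      have hb_edge : (r3, b) ∈ PP X Y E (2 * k) :=
        hsub1 (PP_succ_subset X Y E _ h3)
      obtain ⟨S1, hS1, hS1', hS1c⟩ := ih r3 p1 p2 u1 m1 (hsub1 m2) o1 hu1 hu1'
      obtain ⟨S3, hS3, hS3', hS3c⟩ := ih r3 p3 b u3 m3 hb_edge q3 hu3 hu3'
      refine ⟨S1 ∪ S3, Finset.union_subset hS1 hS3, ?_, ?_⟩
      · intro v hv
        rcases Finset.mem_union.1 hv with hv | hv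
        · obtain ⟨w1, w2, w3, w4, w5, w6⟩ := hS1' v hv
          exact I2 x1 x3 c1 s1 s2 c2 t1.1 (hE _ k1) t1.2 q1 w2 w1 (w4.trans q2.le) w3
        · obtain ⟨w1, w2, w3, w4, w5, w6⟩ := hS3' v hv
          exact I2 x1 x3 c1 s1 s2 c2 t3.1 (hE _ k3) t3.2 q3 w2 w1 w4 w3
      · have hdis : Disjoint S1 S3 := by
          rw [Finset.disjoint_left]
          intro v hv1 hv3
          obtain ⟨w1, w2, w3, w4, w5, w6⟩ := hS1' v hv1
          obtain ⟨z1, z2, z3, z4, z5, z6⟩ := hS3' v hv3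
          linarith
        rw [Finset.card_union_of_disjoint hdis, pow_succ]
        omega

theorem edge_bound (X Y : α → ℝ) (V : Finset α) (E : Finset (α × α))
    (hV : ∀ e ∈ E, e.1 ∈ V ∧ e.2 ∈ V) (hE : ∀ e ∈ E, X e.1 < X e.2) (nc : NC X Y E)
    (hD : Dist X Y E) :
    E.card ≤ 12 * V.card * (2 * Nat.log 2 V.card + 3) := by
  set k := Nat.log 2 V.card + 1 with hk
  have hlt : V.card < 2 ^ k := Nat.lt_pow_succ_log_self (by norm_num) _
  have hemp : PP X Y E (2 * k + 1) = ∅ := by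
    rw [Finset.eq_empty_iff_forall_notMem]
    rintro ⟨a, b⟩ h
    have h' : (a, b) ∈ peel X Y (PP X Y E (2 * k)) := h
    unfold peel at h'
    rw [Finset.mem_filter] at h'
    obtain ⟨g, hg⟩ := Finset.card_pos.1 (lt_of_lt_of_le (by norm_num : 0 < 3) h'.2.1)
    obtain ⟨g', hg'⟩ := Finset.card_pos.1 (lt_of_lt_of_le (by norm_num : 0 < 3) h'.2.2.2.2)
    simp only [Finset.mem_filter] at hg hg'
    obtain ⟨⟨g1, g2⟩, g3⟩ := hg
    obtain ⟨⟨g1', g2'⟩, g3'⟩ := hg'
    obtain ⟨gp, gq⟩ := g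
    obtain ⟨gp', gq'⟩ := g'
    simp only at g2 g2'
    subst g2 g2'
    obtain ⟨S, hS, _, hc⟩ := claim X Y V E hV hE nc hD k gp gq' gq gp' h g1 g3 g1' g3'
    have := Finset.card_le_card hS
    omega
  have := PP_card X Y V E hV hD (2 * k + 1)
  rw [hemp, Finset.card_empty, zero_add] at this
  have h2 : 2 * k + 1 = 2 * Nat.log 2 V.card + 3 := by omega
  rwa [h2] at this

end Pool.Agent.Helper650.UB
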