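import Mathlib
import Pool.Agent.Helper650.CTDefs
import Pool.Agent.Helper650.UB3

set_option autoImplicit false

namespace Pool.Agent.Helper650.UB

open Finset Pool.Agent.Helper650.CT

/-- generic first coordinate -/
noncomputable def XX (ε : ℝ) (v : ℝ × ℝ) : ℝ := v.1 + ε * v.2

theorem exists_eps (P : Finset (ℝ × ℝ)) : ∃ ε : ℝ, ∀ p ∈ P, ∀ q ∈ P, XX ε p = XX ε q → p = q := by
  classical
  obtain ⟨ε, hε⟩ := Infinite.exists_notMem_finset ((P ×ˢ P).image
    (fun u => (u.2.1 - u.1.1) / (u.1.2 - u.2.2)))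
  refine ⟨ε, ?_⟩
  intro p hp q hq h
  unfold XX at h
  by_cases h2 : p.2 = q.2
  · rw [h2] at h
    exact Prod.ext (by linarith) h2
  · exfalso
    apply hε
    refine Finset.mem_image.2 ⟨(p, q), Finset.mem_product.2 ⟨hp, hq⟩, ?_⟩
    have : p.2 - q.2 ≠ 0 := sub_ne_zero.2 h2
    simp only
    field_simp
    linarith

theorem adj_symm {P : Finset (ℝ × ℝ)} {x y : ℝ × ℝ} (h : Adj P x y) : Adj P y x := by
  obtain ⟨u, hu, v, hv, w, hw, hs, hc⟩ := h
  exact ⟨u, hu, v, hv, w, hw, hs, by tauto⟩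

theorem adj_mem {P : Finset (ℝ × ℝ)} {x y : ℝ × ℝ} (h : Adj P x y) : x ∈ P ∧ y ∈ P := by
  obtain ⟨u, hu, v, hv, w, hw, hs, hc⟩ := h
  rcases hc with ⟨rfl, rfl⟩ | ⟨rfl, rfl⟩ | ⟨rfl, rfl⟩ | ⟨rfl, rfl⟩ <;> exact ⟨by assumption, by assumption⟩

theorem adj_third {P : Finset (ℝ × ℝ)} {x y : ℝ × ℝ} (h : Adj P x y) :
    ∃ c ∈ P, Sbtw ℝ x y c ∨ Sbtw ℝ y x c := by
  obtain ⟨u, hu, v, hv, w, hw, hs, hc⟩ := h
  rcases hc with ⟨rfl, rfl⟩ | ⟨rfl, rfl⟩ | ⟨rfl, rfl⟩ | ⟨rfl, rfl⟩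
  · exact ⟨w, hw, Or.inl hs⟩
  · exact ⟨w, hw, Or.inr hs⟩
  · exact ⟨u, hu, Or.inr hs.symm⟩
  · exact ⟨u, hu, Or.inl hs.symm⟩

theorem four {P : Finset (ℝ × ℝ)} (h4 : NoFourCollinear P) {a b c d : ℝ × ℝ} (ha : a ∈ P)
    (hb : b ∈ P) (hc : c ∈ P) (hd : d ∈ P) (hab : a ≠ b) (hac : a ≠ c) (had : a ≠ d)
    (hbc : b ≠ c) (hbd : b ≠ d) (hcd : c ≠ d) (h1 : a ∈ line[ℝ, c, d]) (h2 : b ∈ line[ℝ, c, d]) :
    False := by
  classical
  refine h4 {a, b, c, d} ?_ ?_ ?_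
  · intro x hx
    simp only [Finset.mem_insert, Finset.mem_singleton] at hx
    rcases hx with rfl | rfl | rfl | rfl <;> assumption
  · rw [Finset.card_insert_of_notMem, Finset.card_insert_of_notMem, Finset.card_insert_of_notMem,
      Finset.card_singleton]
    · simpa using hcd
    · simp [hbc, hbd]
    · simp [hab, hac, had]
  · have := collinear_insert_insert_of_mem_affineSpan_pair h1 h2
    simpa using this

theorem not_adj {P : Finset (ℝ × ℝ)} (h4 : NoFourCollinear P) {p q r : ℝ × ℝ}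
    (hq : q ∈ P) (hs : Sbtw ℝ p q r) (ha : Adj P p r) : False := by
  obtain ⟨hp, hr⟩ := adj_mem ha
  obtain ⟨c, hc, h | h⟩ := adj_third ha
  · have hcq : q ≠ c := by
      rintro rfl
      exact hs.not_swap_right h.wbtw
    exact four h4 hq hc hp hr hcq hs.ne_left hs.ne_right h.left_ne_right.symm
      h.ne_right.symm hs.left_ne_right hs.wbtw.mem_affineSpan h.right_mem_affineSpan
  · have hcq : q ≠ c := by
      rintro rfl
      exact hs.not_swap_left h.symm.wbtw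
    refine four h4 hq hc hp hr hcq hs.ne_left hs.ne_right h.ne_right.symm h.left_ne_right.symm
      hs.left_ne_right hs.wbtw.mem_affineSpan ?_
    rw [Set.pair_comm]
    exact h.right_mem_affineSpan

theorem sbtw_of_slope {ε : ℝ} {a b c : ℝ × ℝ} (h1 : XX ε a < XX ε b) (h2 : XX ε b < XX ε c)
    (h : sl (XX ε) Prod.snd a b = sl (XX ε) Prod.snd a c) : Sbtw ℝ a b c := by
  have h3 : XX ε a < XX ε c := h1.trans h2
  rw [sbtw_iff_mem_image_Ioo_and_ne]
  refine ⟨⟨(XX ε b - XX ε a) / (XX ε c - XX ε a), ⟨?_, ?_⟩, ?_⟩, ?_⟩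
  · exact div_pos (by linarith) (by linarith)
  · rw [div_lt_one (by linarith)]; linarith
  · have e1 := sl_eq (Y := Prod.snd) h1
    have e2 := sl_eq (Y := Prod.snd) h3
    rw [h] at e1
    set m := sl (XX ε) Prod.snd a c
    have hd : XX ε c - XX ε a ≠ 0 := (sub_pos.2 h3).ne'
    set t := (XX ε b - XX ε a) / (XX ε c - XX ε a) with ht
    have ht' : t * (XX ε c - XX ε a) = XX ε b - XX ε a := by rw [ht]; field_simp
    have k2 : a.2 + t * (c.2 - a.2) = b.2 := by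
      have : t * (c.2 - a.2) = m * (t * (XX ε c - XX ε a)) := by rw [e2]; ring
      rw [this, ht', e1]
    have k1 : a.1 + t * (c.1 - a.1) = b.1 := by
      have e3 : t * ((c.1 + ε * c.2) - (a.1 + ε * a.2)) = (b.1 + ε * b.2) - (a.1 + ε * a.2) := ht'
      have e4 : ε * (a.2 + t * (c.2 - a.2)) = ε * b.2 := by rw [k2]
      linarith
    rw [AffineMap.lineMap_apply]
    refine Prod.ext ?_ ?_
    · simp only [vsub_eq_sub, vadd_eq_add, Prod.fst_add, Prod.smul_fst, Prod.fst_sub, smul_eq_mul]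
      linarith
    · simp only [vsub_eq_sub, vadd_eq_add, Prod.snd_add, Prod.smul_snd, Prod.snd_sub, smul_eq_mul]
      linarith
  · rintro rfl; exact lt_irrefl _ h3

theorem sbtw_XX {ε : ℝ} {a b c : ℝ × ℝ} (h : Sbtw ℝ a b c) (hac : XX ε a < XX ε c) :
    XX ε a < XX ε b ∧ XX ε b < XX ε c := by
  rw [sbtw_iff_mem_image_Ioo_and_ne] at h
  obtain ⟨⟨t, ⟨t0, t1⟩, ht⟩, _⟩ := h
  have hb : XX ε b = XX ε a + t * (XX ε c - XX ε a) := by
    rw [← ht, AffineMap.lineMap_apply]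
    simp only [XX, vsub_eq_sub, vadd_eq_add, Prod.fst_add, Prod.smul_fst, Prod.fst_sub,
      smul_eq_mul, Prod.snd_add, Prod.smul_snd, Prod.snd_sub]
    ring
  constructor
  · rw [hb]; nlinarith
  · rw [hb]; nlinarith

open scoped Classical in
/-- the directed edges of `G_P` -/
noncomputable def EE (ε : ℝ) (P : Finset (ℝ × ℝ)) : Finset ((ℝ × ℝ) × (ℝ × ℝ)) :=
  (P ×ˢ P).filter (fun e => XX ε e.1 < XX ε e.2 ∧ Adj P e.1 e.2)

theorem mem_EE {ε : ℝ} {P : Finset (ℝ × ℝ)} {e : (ℝ × ℝ) × (ℝ × ℝ)} :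
    e ∈ EE ε P ↔ XX ε e.1 < XX ε e.2 ∧ Adj P e.1 e.2 := by
  classical
  unfold EE
  rw [Finset.mem_filter, Finset.mem_product]
  constructor
  · exact fun h => h.2
  · exact fun h => ⟨adj_mem h.2, h⟩

theorem EE_dist {ε : ℝ} {P : Finset (ℝ × ℝ)} (h4 : NoFourCollinear P)
    (hε : ∀ p ∈ P, ∀ q ∈ P, XX ε p = XX ε q → p = q) : Dist (XX ε) Prod.snd (EE ε P) := by
  have key : ∀ p q r : ℝ × ℝ, q ∈ P → XX ε p < XX ε q → XX ε q < XX ε r →
      sl (XX ε) Prod.snd p q = sl (XX ε) Prod.snd p r → Adj P p r → False := by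
    intro p q r hq h1 h2 h ha
    exact not_adj h4 hq (sbtw_of_slope h1 h2 h) ha
  constructor
  · rintro ⟨a, b⟩ he ⟨a', b'⟩ hg h1 h2
    simp only at h1
    subst h1
    rw [mem_EE] at he hg
    simp only [rho] at h2 he hg
    have hb : b = b' := by
      by_contra hne
      have hX : XX ε b ≠ XX ε b' := fun h => hne (hε _ (adj_mem he.2).2 _ (adj_mem hg.2).2 h)
      rcases lt_or_gt_of_ne hX with h | h
      · exact key a b b' (adj_mem he.2).2 he.1 h h2 hg.2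
      · exact key a b' b (adj_mem hg.2).2 hg.1 h h2.symm he.2
    rw [hb]
  · rintro ⟨a, b⟩ he ⟨a', b'⟩ hg h1 h2
    simp only at h1
    subst h1
    rw [mem_EE] at he hg
    simp only [rho] at h2 he hg
    have key2 : ∀ p q r : ℝ × ℝ, XX ε p < XX ε q → XX ε q < XX ε r →
        sl (XX ε) Prod.snd q r = sl (XX ε) Prod.snd p r →
        sl (XX ε) Prod.snd p q = sl (XX ε) Prod.snd p r := by
      intro p q r h1 h2 h
      have e1 := sl_eq (Y := Prod.snd) h2
      have e2 := sl_eq (Y := Prod.snd) (h1.trans h2)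
      rw [h] at e1
      have : q.2 - p.2 = sl (XX ε) Prod.snd p r * (XX ε q - XX ε p) := by linarith
      have h3 : XX ε q - XX ε p ≠ 0 := (sub_pos.2 h1).ne'
      conv_lhs => unfold sl
      rw [div_eq_iff h3]
      exact this
    have ha : a = a' := by
      by_contra hne
      have hX : XX ε a ≠ XX ε a' := fun h => hne (hε _ (adj_mem he.2).1 _ (adj_mem hg.2).1 h)
      rcases lt_or_gt_of_ne hX with h | h
      · exact key a a' b (adj_mem hg.2).1 h hg.1 (key2 _ _ _ h hg.1 h2.symm) he.2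
      · exact key a' a b (adj_mem he.2).1 h he.1 (key2 _ _ _ h he.1 h2) hg.2
    rw [ha]

theorem EE_nc {ε : ℝ} {P : Finset (ℝ × ℝ)} (hp : ¬ HasSelfIntersectingPath P) :
    NC (XX ε) Prod.snd (EE ε P) := by
  intro x₁ x₂ x₃ x₄ h12 h13 h14 h23 h24 h34 a1 a2 a3 s t s0 s1 t0 t1 hX hY
  have adj : ∀ x y, ((x, y) ∈ EE ε P ∨ (y, x) ∈ EE ε P) → Adj P x y := by
    intro x y h
    rcases h with h | h
    · exact (mem_EE.1 h).2
    · exact adj_symm (mem_EE.1 h).2
  apply hp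
  refine ⟨x₁, x₂, x₃, x₄, h12, h13, h14, h23, h24, h34, adj _ _ a1, adj _ _ a2, adj _ _ a3,
    x₁ + s • (x₂ - x₁), ?_, ?_⟩
  · rw [segment_eq_image']
    exact ⟨s, ⟨s0, s1⟩, rfl⟩
  · rw [segment_eq_image']
    refine ⟨t, ⟨t0, t1⟩, ?_⟩
    have k1 : x₃.1 + t * (x₄.1 - x₃.1) = x₁.1 + s * (x₂.1 - x₁.1) := by
      have e4 : ε * (x₁.2 + s * (x₂.2 - x₁.2)) = ε * (x₃.2 + t * (x₄.2 - x₃.2)) := by rw [hY]
      unfold XX at hX
      linarith
    refine Prod.ext ?_ ?_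
    · simpa using k1
    · simpa using hY.symm

theorem triples_le {ε : ℝ} {P : Finset (ℝ × ℝ)} (h4 : NoFourCollinear P)
    (hε : ∀ p ∈ P, ∀ q ∈ P, XX ε p = XX ε q → p = q) :
    (collinearTriples P).card ≤ (EE ε P).card := by
  classical
  have hex : ∀ T ∈ collinearTriples P, ∃ u v w : ℝ × ℝ, T = {u, v, w} ∧ u ∈ P ∧ v ∈ P ∧ w ∈ P ∧
      Sbtw ℝ u v w ∧ XX ε u < XX ε w := by
    intro T hT
    unfold collinearTriples at hT
    rw [Finset.mem_filter, Finset.mem_powersetCard] at hT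
    obtain ⟨⟨hTP, hc⟩, hcol⟩ := hT
    obtain ⟨x, y, z, hxy, hxz, hyz, rfl⟩ := Finset.card_eq_three.1 hc
    have hx : x ∈ P := hTP (by simp)
    have hy : y ∈ P := hTP (by simp)
    have hz : z ∈ P := hTP (by simp)
    have hcol' : Collinear ℝ ({x, y, z} : Set (ℝ × ℝ)) := by simpa using hcol
    have fin : ∀ u v w : ℝ × ℝ, ({x, y, z} : Finset (ℝ × ℝ)) = {u, v, w} → u ∈ P → v ∈ P → w ∈ P →
        u ≠ v → v ≠ w → u ≠ w → Wbtw ℝ u v w → ∃ u v w : ℝ × ℝ, ({x, y, z} : Finset (ℝ × ℝ)) =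
          {u, v, w} ∧ u ∈ P ∧ v ∈ P ∧ w ∈ P ∧ Sbtw ℝ u v w ∧ XX ε u < XX ε w := by
      intro u v w hT hu hv hw huv hvw huw hb
      have hs : Sbtw ℝ u v w := ⟨hb, huv.symm, hvw⟩
      have hX : XX ε u ≠ XX ε w := fun h => huw (hε _ hu _ hw h)
      rcases lt_or_gt_of_ne hX with h | h
      · exact ⟨u, v, w, hT, hu, hv, hw, hs, h⟩
      · refine ⟨w, v, u, ?_, hw, hv, hu, hs.symm, h⟩
        rw [hT]
        ext t; simp only [Finset.mem_insert, Finset.mem_singleton]; tauto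
    rcases hcol'.wbtw_or_wbtw_or_wbtw with h | h | h
    · exact fin x y z rfl hx hy hz hxy hyz hxz h
    · refine fin y z x ?_ hy hz hx hyz hxz.symm hxy.symm h
      ext t; simp only [Finset.mem_insert, Finset.mem_singleton]; tauto
    · refine fin z x y ?_ hz hx hy hxz.symm hxy hyz.symm h
      ext t; simp only [Finset.mem_insert, Finset.mem_singleton]; tauto
  choose! u v w hT hu hv hw hs hX using hex
  refine Finset.card_le_card_of_injOn (fun T => (u T, v T)) ?_ ?_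
  · intro T hT'
    have h' : T ∈ collinearTriples P := hT'
    show (u T, v T) ∈ EE ε P
    rw [mem_EE]
    exact ⟨(sbtw_XX (hs T h') (hX T h')).1, ⟨_, hu T h', _, hv T h', _, hw T h', hs T h',
      Or.inl ⟨rfl, rfl⟩⟩⟩
  · intro T hT' S hS' h
    have h1 : T ∈ collinearTriples P := hT'
    have h2 : S ∈ collinearTriples P := hS'
    simp only [Prod.mk.injEq] at h
    obtain ⟨e1, e2⟩ := h
    have sT := hs T h1
    have sS := hs S h2
    rw [← e1, ← e2] at sS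
    have hww : w T = w S := by
      by_contra hne
      exact four h4 (hw T h1) (hw S h2) (hu T h1) (hv T h1) hne sT.left_ne_right.symm
        sT.ne_right.symm sS.left_ne_right.symm sS.ne_right.symm sT.left_ne
        sT.right_mem_affineSpan sS.right_mem_affineSpan
    rw [hT T h1, hT S h2, ← e1, ← e2, hww]

theorem triples_bound (P : Finset (ℝ × ℝ)) (h4 : NoFourCollinear P)
    (hp : ¬ HasSelfIntersectingPath P) :
    (collinearTriples P).card ≤ 12 * P.card * (2 * Nat.log 2 P.card + 3) := by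
  obtain ⟨ε, hε⟩ := exists_eps P
  refine (triples_le h4 hε).trans ?_
  exact edge_bound (XX ε) Prod.snd P (EE ε P) (fun e he => adj_mem (mem_EE.1 he).2)
    (fun e he => (mem_EE.1 he).1) (EE_nc hp) (EE_dist h4 hε)

theorem f_le (n : ℕ) : f n ≤ 12 * n * (2 * Nat.log 2 n + 3) + 1 := by
  unfold f
  apply Nat.sInf_le
  intro P hP h4 hm
  by_contra hp
  have := triples_bound P h4 hp
  rw [hP] at this
  omega

end Pool.Agent.Helper650.UB
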