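import Mathlib
import Pool.Agent.Helper650.UB4

set_option autoImplicit false

namespace Pool.Agent.Helper650.UB

open Finset Filter Pool.Agent.Helper650.CT

theorem f_le_log (n : ℕ) (hn : 3 ≤ n) : (f n : ℝ) ≤ 73 * n * Real.log n := by
  have h := f_le n
  have h' : (f n : ℝ) ≤ 12 * n * (2 * (Nat.log 2 n : ℝ) + 3) + 1 := by exact_mod_cast h
  have hn0 : (3 : ℝ) ≤ n := by exact_mod_cast hn
  have h1 : (Nat.log 2 n : ℝ) ≤ Real.logb 2 n := by
    have := Real.natLog_le_logb n 2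
    exact_mod_cast this
  have h2 : Real.logb 2 n * Real.log 2 = Real.log n := by
    unfold Real.logb
    rw [div_mul_cancel₀]
    exact (Real.log_pos (by norm_num)).ne'
  have hl2 : (0.6931471803 : ℝ) < Real.log 2 := Real.log_two_gt_d9
  have hlogn : 1 ≤ Real.log n := by
    rw [Real.le_log_iff_exp_le (by linarith)]
    exact (Real.exp_one_lt_d9.le.trans (by norm_num : (2.7182818286 : ℝ) ≤ 3)).trans hn0
  have h3 : (Nat.log 2 n : ℝ) ≤ 1.5 * Real.log n := by
    have h0 : (0 : ℝ) ≤ (Nat.log 2 n : ℝ) := Nat.cast_nonneg _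
    nlinarith
  have h4 : (2 * (Nat.log 2 n : ℝ) + 3) ≤ 6 * Real.log n := by linarith
  have h5 : 12 * (n : ℝ) * (2 * (Nat.log 2 n : ℝ) + 3) ≤ 12 * n * (6 * Real.log n) :=
    mul_le_mul_of_nonneg_left h4 (by linarith)
  have h6 : (1 : ℝ) ≤ n * Real.log n := by nlinarith
  nlinarith

theorem upper : ∀ᶠ n : ℕ in atTop, (f n : ℝ) ≤ 73 * n * Real.log n := by
  filter_upwards [eventually_ge_atTop 3] with n hn
  exact f_le_log n hn

end Pool.Agent.Helper650.UB
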